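import Pool.Agent.Lib.MP_fb3619_al.SR.Iface

/-!
# MP_fb3619_al, board SR: row AB2
-/

set_option autoImplicit false

universe u

namespace Pool.Agent.FourGp.SR

theorem pow_fi {Z : Type u} [CommGroup Z] (tor : ∀ z : Z, IsOfFinOrder z) (n : ℕ)
    (hf : {z : Z | z ^ n = 1}.Finite) : ((powMonoidHom n : Z →* Z).range).FiniteIndex := by
  classical
  set P : Subgroup Z := (powMonoidHom n : Z →* Z).range with hP
  by_contra hcon
  have h0 : Infinite (Z ⧸ P) := by
    by_contra h
    rw [not_infinite_iff_finite] at h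
    exact hcon Subgroup.finiteIndex_of_finite_quotient
  obtain ⟨T, hT⟩ := Infinite.exists_subset_card_eq (Z ⧸ P) (hf.toFinset.card + 1)
  let s : Z ⧸ P → Z := fun q => Quotient.out q
  let F : Subgroup Z := Subgroup.closure (s '' (T : Set (Z ⧸ P)))
  have hfg : F.FG := (Subgroup.fg_iff F).2 ⟨_, rfl, T.finite_toSet.image s⟩
  haveI : Group.FG F := (Group.fg_iff_subgroup_fg F).2 hfg
  have htor : Monoid.IsTorsion F := fun x => by
    have := tor (x : Z)
    exact Submonoid.isOfFinOrder_coe.1 this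
  haveI : Finite F := CommGroup.finite_of_fg_torsion F htor
  let f : F →* F := powMonoidHom n
  have h1 : Nat.card (F ⧸ f.range) = Nat.card f.ker := by
    have e1 := Subgroup.card_eq_card_quotient_mul_card_subgroup f.range
    have e2 := Subgroup.card_eq_card_quotient_mul_card_subgroup f.ker
    have e3 : Nat.card (F ⧸ f.ker) = Nat.card f.range :=
      Nat.card_congr (QuotientGroup.quotientKerEquivRange f).toEquiv
    have h4 : Nat.card f.range ≠ 0 := Nat.card_pos.ne'
    rw [e3] at e2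
    rw [e1, mul_comm] at e2
    exact Nat.eq_of_mul_eq_mul_left (Nat.pos_of_ne_zero h4) e2
  have h2 : Nat.card f.ker ≤ hf.toFinset.card := by
    rw [← Set.ncard_eq_toFinset_card _ hf]
    have : Set.ncard (Set.range fun x : f.ker => ((x : F) : Z)) = Nat.card f.ker := by
      have hi : Function.Injective fun x : f.ker => ((x : F) : Z) :=
        Subtype.val_injective.comp Subtype.val_injective
      rw [← Set.image_univ, Set.ncard_image_of_injective _ hi, Set.ncard_univ]
    rw [← this]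
    refine Set.ncard_le_ncard ?_ hf
    rintro _ ⟨x, rfl⟩
    have hx : f x.1 = 1 := x.2
    exact congrArg Subtype.val hx
  have h3 : T.card ≤ Nat.card (F ⧸ f.range) := by
    have hm : ∀ q ∈ T, s q ∈ F := fun q hq => Subgroup.subset_closure ⟨q, hq, rfl⟩
    let g : T → F ⧸ f.range := fun q => ((⟨s q.1, hm q.1 q.2⟩ : F) : F ⧸ f.range)
    have hg : Function.Injective g := by
      rintro ⟨q, hq⟩ ⟨r, hr⟩ h
      have h4 : (⟨s q, hm q hq⟩ : F)⁻¹ * ⟨s r, hm r hr⟩ ∈ f.range := QuotientGroup.eq.1 h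
      obtain ⟨y, hy⟩ := h4
      have h5 : (s q)⁻¹ * s r ∈ P := ⟨(y : Z), congrArg Subtype.val hy⟩
      have h6 : ((s q : Z) : Z ⧸ P) = (s r : Z) := QuotientGroup.eq.2 h5
      have h7 : ((s q : Z) : Z ⧸ P) = q := Quotient.out_eq' q
      have h8 : ((s r : Z) : Z ⧸ P) = r := Quotient.out_eq' r
      rw [h7, h8] at h6
      exact Subtype.ext h6
    have := Nat.card_le_card_of_injective g hg
    rwa [Nat.card_eq_fintype_card, Fintype.card_coe] at this
  omega

theorem ab2 : Ab2S.{u} := by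
  intro Z _ hZ hf
  have tor : ∀ z : Z, IsOfFinOrder z := by
    intro z
    obtain ⟨k, hk⟩ := hZ z
    exact isOfFinOrder_iff_pow_eq_one.2 ⟨2 ^ k, by positivity, hk⟩
  refine pow_fi tor 4 ?_
  have h1 : {z : Z | z ^ 4 = 1} ⊆ ⋃ w ∈ {z : Z | z ^ 2 = 1}, {z : Z | z ^ 2 = w} := by
    intro z hz
    have hz' : z ^ 4 = 1 := hz
    refine Set.mem_biUnion (x := z ^ 2) ?_ rfl
    show (z ^ 2) ^ 2 = 1
    rw [← pow_mul]
    exact hz'
  refine (hf.biUnion fun w _ => ?_).subset h1
  by_cases hne : ∃ z0 : Z, z0 ^ 2 = w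
  · obtain ⟨z0, rfl⟩ := hne
    refine (hf.image (fun x => z0 * x)).subset ?_
    intro z hz
    have hz' : z ^ 2 = z0 ^ 2 := hz
    refine ⟨z0⁻¹ * z, ?_, mul_inv_cancel_left z0 z⟩
    show (z0⁻¹ * z) ^ 2 = 1
    rw [mul_pow, hz', inv_pow, inv_mul_cancel]
  · refine Set.finite_empty.subset fun z hz => (hne ⟨z, hz⟩).elim

end Pool.Agent.FourGp.SR
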