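import Pool.Agent.Lib.MP_fb3619_al.SR.Iface

/-!
# MP_fb3619_al, board SR, row ACT: the centralizer of `B` has finite index
-/

set_option autoImplicit false

universe u

namespace Pool.Agent.FourGp.SR

namespace Act

/-- An element with finitely many conjugates has a centralizer of finite index. -/
theorem fi_cent {G : Type u} [Group G] {x : G} (h : {y : G | ∃ g : G, y = g * x * g⁻¹}.Finite) :
    (Subgroup.centralizer ({x} : Set G)).FiniteIndex := by
  have := h.to_subtype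
  let φ : G ⧸ Subgroup.centralizer ({x} : Set G) → {y : G | ∃ g : G, y = g * x * g⁻¹} :=
    fun q => ⟨q.out * x * q.out⁻¹, ⟨_, rfl⟩⟩
  have hφ : Function.Injective φ := by
    intro q q' hq
    have h1 : q.out * x * q.out⁻¹ = q'.out * x * q'.out⁻¹ := congrArg Subtype.val hq
    rw [← Quotient.out_eq' q, ← Quotient.out_eq' q']
    refine QuotientGroup.eq.2 ?_
    rw [Subgroup.mem_centralizer_singleton_iff]
    have h2 : x * (q.out⁻¹ * q'.out) = q.out⁻¹ * (q.out * x * q.out⁻¹) * q'.out := by group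
    rw [h2, h1]
    group
  have : Finite (G ⧸ Subgroup.centralizer ({x} : Set G)) := Finite.of_injective φ hφ
  exact Subgroup.finiteIndex_of_finite_quotient

/-- The `2 ^ k`-torsion of `B` is finite. -/
theorem tor_fin {G : Type u} [Group G] {B : Subgroup G} (hBc : ∀ x ∈ B, ∀ y ∈ B, x * y = y * x)
    (hB2 : {x : G | x ∈ B ∧ x ^ 2 = 1}.Finite) (k : ℕ) :
    {x : G | x ∈ B ∧ x ^ 2 ^ k = 1}.Finite := by
  induction k with
  | zero =>
    refine (Set.finite_singleton (1 : G)).subset ?_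
    rintro x ⟨_, hx⟩
    simpa using hx
  | succ k ih =>
    refine Set.Finite.of_finite_fibers (fun x : G => x ^ 2) (ih.subset ?_) ?_
    · rintro _ ⟨x, ⟨hxB, hx⟩, rfl⟩
      refine ⟨B.pow_mem hxB 2, ?_⟩
      show (x ^ 2) ^ 2 ^ k = 1
      rw [← pow_mul, ← pow_succ']
      exact hx
    · rintro _ ⟨z, ⟨hzB, hz⟩, rfl⟩
      refine (hB2.image (fun y => z * y)).subset ?_
      rintro x ⟨⟨hxB, hx⟩, hxz⟩
      have hxz' : x ^ 2 = z ^ 2 := hxz
      refine ⟨z⁻¹ * x, ⟨B.mul_mem (B.inv_mem hzB) hxB, ?_⟩, ?_⟩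
      · have hc : Commute z⁻¹ x := hBc _ (B.inv_mem hzB) _ hxB
        rw [hc.mul_pow, hxz', inv_pow, inv_mul_cancel]
      · show z * (z⁻¹ * x) = x
        rw [mul_inv_cancel_left]

/-- `g` acts trivially on the divisible part if `g ^ 2` does. -/
theorem stepD {G : Type u} [Group G] {B : Subgroup G} (hBn : B.Normal)
    (hBc : ∀ x ∈ B, ∀ y ∈ B, x * y = y * x) (e : ℕ)
    (hdiv : ∀ x ∈ B, ∃ y ∈ B, x ^ 2 ^ e = (y ^ 2 ^ e) ^ 2) (g : G)
    (h4 : ∀ x ∈ B, x ^ 4 = 1 → Commute g x)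
    (h2 : ∀ x ∈ B, Commute (g ^ 2) (x ^ 2 ^ e)) (m : ℕ) :
    ∀ x ∈ B, (x ^ 2 ^ e) ^ 2 ^ m = 1 → Commute g (x ^ 2 ^ e) := by
  induction m with
  | zero =>
    intro x _ hx
    rw [pow_zero, pow_one] at hx
    rw [hx]
    exact Commute.one_right g
  | succ m ih =>
    intro x hxB hx
    have hcm : ∀ y ∈ B, g⁻¹ * y * g ∈ B := by
      intro y hy
      have := hBn.conj_mem y hy g⁻¹
      rwa [inv_inv] at this
    -- d = x ^ 2 ^ e, g commutes with d ^ 2
    have hd2 : Commute g ((x ^ 2 ^ e) ^ 2) := by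
      have e1 : (x ^ 2) ^ 2 ^ e = (x ^ 2 ^ e) ^ 2 := by rw [← pow_mul, ← pow_mul, mul_comm]
      have := ih (x ^ 2) (B.pow_mem hxB 2) (by
        rw [e1, ← pow_mul, ← pow_succ']
        exact hx)
      rwa [e1] at this
    obtain ⟨z, hzB, hz⟩ := hdiv x hxB
    set d := x ^ 2 ^ e with hd
    set w := z ^ 2 ^ e with hw
    have hdB : d ∈ B := B.pow_mem hxB _
    have hwB : w ∈ B := B.pow_mem hzB _
    have hw'B : g⁻¹ * w * g ∈ B := hcm w hwB
    have hy2B : w⁻¹ * (g⁻¹ * w * g) ∈ B := B.mul_mem (B.inv_mem hwB) hw'B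
    have hcw : Commute w⁻¹ (g⁻¹ * w * g) := hBc _ (B.inv_mem hwB) _ hw'B
    have hsq : (w⁻¹ * (g⁻¹ * w * g)) ^ 2 = d⁻¹ * (g⁻¹ * d * g) := by
      rw [hcw.mul_pow, hz, inv_pow]
      congr 1
      rw [pow_two, pow_two]
      group
    have hcd : Commute d⁻¹ (g⁻¹ * d * g) := hBc _ (B.inv_mem hdB) _ (hcm d hdB)
    have hy : (d⁻¹ * (g⁻¹ * d * g)) ^ 2 = 1 := by
      rw [hcd.mul_pow]
      have e2 : (g⁻¹ * d * g) ^ 2 = g⁻¹ * d ^ 2 * g := by
        rw [pow_two, pow_two]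
        group
      rw [e2, mul_assoc, ← hd2.eq, inv_mul_cancel_left, inv_pow, inv_mul_cancel]
    have hy4 : (w⁻¹ * (g⁻¹ * w * g)) ^ 4 = 1 := by
      have : (4 : ℕ) = 2 * 2 := rfl
      rw [this, pow_mul, hsq, hy]
    have hg := h4 _ hy2B hy4
    -- w is fixed by g ^ 2
    have hgw : g⁻¹ * (g⁻¹ * w * g) * g = w := by
      have h3 := h2 z hzB
      rw [← hw] at h3
      have e3 : g⁻¹ * (g⁻¹ * w * g) * g = (g ^ 2)⁻¹ * (w * g ^ 2) := by
        rw [pow_two]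
        group
      rw [e3, ← h3.eq, inv_mul_cancel_left]
    have hgy : g⁻¹ * (w⁻¹ * (g⁻¹ * w * g)) * g = w⁻¹ * (g⁻¹ * w * g) := by
      rw [mul_assoc, ← hg.eq, inv_mul_cancel_left]
    have hfin : (w⁻¹ * (g⁻¹ * w * g)) ^ 2 = 1 := by
      have e4 : g⁻¹ * (g⁻¹ * w * g) * g
          = (g⁻¹ * w * g) * (g⁻¹ * (w⁻¹ * (g⁻¹ * w * g)) * g) := by group
      rw [hgy, hgw] at e4
      have e5 : (w⁻¹ * (g⁻¹ * w * g)) ^ 2 = w⁻¹ * ((g⁻¹ * w * g) * (w⁻¹ * (g⁻¹ * w * g))) := by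
        rw [pow_two]
        group
      rw [e5, ← e4, inv_mul_cancel]
    rw [hsq] at hfin
    have h5 : g⁻¹ * d * g = d := by
      have := inv_mul_eq_one.1 hfin
      exact this.symm
    show g * d = d * g
    calc g * d = g * (g⁻¹ * d * g) := by rw [h5]
      _ = d * g := by group

/-- Elements centralizing the 4-torsion act trivially on the divisible part. -/
theorem centD {G : Type u} [Group G] (hG : IsPGroup 2 G) {B : Subgroup G} (hBn : B.Normal)
    (hBc : ∀ x ∈ B, ∀ y ∈ B, x * y = y * x) (e : ℕ)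
    (hdiv : ∀ x ∈ B, ∃ y ∈ B, x ^ 2 ^ e = (y ^ 2 ^ e) ^ 2) (j : ℕ) :
    ∀ g : G, g ^ 2 ^ j = 1 → (∀ x ∈ B, x ^ 4 = 1 → Commute g x) →
      ∀ x ∈ B, Commute g (x ^ 2 ^ e) := by
  induction j with
  | zero =>
    intro g hg _ x _
    rw [pow_zero, pow_one] at hg
    rw [hg]
    exact Commute.one_left _
  | succ j ih =>
    intro g hg h4 x hx
    have h2 : ∀ x ∈ B, Commute (g ^ 2) (x ^ 2 ^ e) := by
      refine ih (g ^ 2) ?_ ?_
      · rw [← pow_mul, ← pow_succ']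
        exact hg
      · intro y hy hy4
        exact (h4 y hy hy4).pow_left 2
    obtain ⟨m, hm⟩ := hG (x ^ 2 ^ e)
    exact stepD hBn hBc e hdiv g h4 h2 m x hx hm

end Act

open Act in
/-- Row ACT. -/
theorem act (dvs : DvsS.{u}) : ActS.{u} := by
  intro G _ hG B hBn hBc hB2
  have hE := tor_fin hBc hB2
  obtain ⟨e, hdiv, F, hFf, hFB, hFD⟩ := dvs G B hBc (fun x _ => hG x) hB2
  -- centralizers of elements with finitely many conjugates
  have hEk : ∀ k : ℕ, (⨅ x : {x : G | x ∈ B ∧ x ^ 2 ^ k = 1},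
      Subgroup.centralizer ({(x : G)} : Set G)).FiniteIndex := by
    intro k
    have := (hE k).to_subtype
    refine Subgroup.finiteIndex_iInf ?_
    rintro ⟨x, hxB, hx⟩
    refine fi_cent ((hE k).subset ?_)
    rintro _ ⟨g, rfl⟩
    refine ⟨hBn.conj_mem x hxB g, ?_⟩
    rw [conj_pow, hx, mul_one, mul_inv_cancel]
  set K : Subgroup G := (⨅ x : {x : G | x ∈ B ∧ x ^ 2 ^ (max 2 e) = 1},
      Subgroup.centralizer ({(x : G)} : Set G)) with hK
  have hKf : K.FiniteIndex := hEk _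
  have hKc : ∀ g ∈ K, ∀ x ∈ B, x ^ 2 ^ (max 2 e) = 1 → Commute g x := by
    intro g hg x hxB hx
    have h1 := (Subgroup.mem_iInf.1 hg) ⟨x, hxB, hx⟩
    rw [Subgroup.mem_centralizer_singleton_iff] at h1
    exact h1
  have hKD : ∀ g ∈ K, ∀ x ∈ B, Commute g (x ^ 2 ^ e) := by
    intro g hg
    obtain ⟨j, hj⟩ := hG g
    refine centD hG hBn hBc e hdiv j g hj ?_
    intro x hxB hx
    refine hKc g hg x hxB ?_
    obtain ⟨c, hc⟩ := Nat.exists_eq_add_of_le (le_max_left 2 e)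
    rw [hc, pow_add]
    have : (2 : ℕ) ^ 2 = 4 := rfl
    rw [this, pow_mul, hx, one_pow]
  -- the elements of F
  have hFc : ∀ f ∈ F, (Subgroup.centralizer ({f} : Set G)).FiniteIndex := by
    intro f hf
    have hfB := hFB hf
    have : Finite (G ⧸ K) := Subgroup.finite_quotient_of_finiteIndex
    refine fi_cent ((Set.finite_iUnion (fun q : G ⧸ K =>
      (hE e).image (fun y => q.out * (f * y) * q.out⁻¹))).subset ?_)
    rintro _ ⟨g, rfl⟩
    set q : G ⧸ K := (g : G ⧸ K) with hq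
    have hk : q.out⁻¹ * g ∈ K := by
      refine QuotientGroup.eq.1 ?_
      rw [← hq]
      exact Quotient.out_eq' q
    refine Set.mem_iUnion.2 ⟨q, f⁻¹ * ((q.out⁻¹ * g) * f * (q.out⁻¹ * g)⁻¹), ⟨?_, ?_⟩, ?_⟩
    · exact B.mul_mem (B.inv_mem hfB) (hBn.conj_mem f hfB _)
    · have hc : Commute f⁻¹ ((q.out⁻¹ * g) * f * (q.out⁻¹ * g)⁻¹) :=
        hBc _ (B.inv_mem hfB) _ (hBn.conj_mem f hfB _)
      rw [hc.mul_pow, conj_pow, (hKD _ hk f hfB).eq, mul_inv_cancel_right, inv_pow,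
        inv_mul_cancel]
    · show q.out * (f * (f⁻¹ * ((q.out⁻¹ * g) * f * (q.out⁻¹ * g)⁻¹))) * q.out⁻¹ = g * f * g⁻¹
      group
  have := hFf.to_subtype
  have hFi : (⨅ f : F, Subgroup.centralizer ({(f : G)} : Set G)).FiniteIndex :=
    Subgroup.finiteIndex_iInf (fun f => hFc f.1 f.2)
  have hle : K ⊓ (⨅ f : F, Subgroup.centralizer ({(f : G)} : Set G))
      ≤ Subgroup.centralizer (B : Set G) := by
    rintro g ⟨hgK, hgF⟩
    rw [Subgroup.mem_centralizer_iff]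
    intro x hx
    obtain ⟨f, hf, y, hy, rfl⟩ := hFD x hx
    have h1 : Commute g f := by
      have h2 := (Subgroup.mem_iInf.1 hgF) ⟨f, hf⟩
      rw [Subgroup.mem_centralizer_singleton_iff] at h2
      exact h2
    exact (h1.mul_right (hKD g hgK y hy)).eq.symm
  exact Subgroup.finiteIndex_of_le hle

end Pool.Agent.FourGp.SR
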