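import Mathlib
import Pool.Agent.Lib.MP_fb3619_al.H99.Loc

/-!
# MP_fb3619_al, board SR: normal series with factors 2'-groups, 2-groups, locally finite groups

Paper: `SR/Paper.md` (finding 4648). Statements of all rows. Every row file `SR/<Row>.lean` proves
`theorem <row> ... : <Row>S`, taking the rows it uses as hypotheses.
-/

set_option autoImplicit false

universe u

namespace Pool.Agent.FourGp.SR

open Pool.Agent.FourGp.H99 (LF)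

/-! ### Definitions -/

/-- `X` has a normal abelian subgroup `A` of finite index with finitely many elements `x`,
`x ^ 2 = 1` (Chernikov type, for 2-groups). -/
def Chs {G : Type u} [Group G] (X : Subgroup G) : Prop :=
  ∃ A : Subgroup G, A ≤ X ∧ (∀ x ∈ X, ∀ y ∈ A, x⁻¹ * y * x ∈ A) ∧ A.relIndex X ≠ 0 ∧
    (∀ x ∈ A, ∀ y ∈ A, x * y = y * x) ∧ {x : G | x ∈ A ∧ x ^ 2 = 1}.Finite

/-- `x` normalizes `P`. -/
def Nm {G : Type u} [Group G] (P : Subgroup G) (x : G) : Prop :=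
  ∀ y : G, y ∈ P ↔ x⁻¹ * y * x ∈ P

/-- The conjugate `P ^ x = x⁻¹ P x`. -/
def cj {G : Type u} [Group G] (P : Subgroup G) (x : G) : Subgroup G :=
  P.comap (MulAut.conj x).toMonoidHom

theorem mem_cj {G : Type u} [Group G] {P : Subgroup G} {x y : G} :
    y ∈ cj P x ↔ x * y * x⁻¹ ∈ P := Iff.rfl

theorem conj_mem_cj {G : Type u} [Group G] {P : Subgroup G} {x y : G} :
    x⁻¹ * y * x ∈ cj P x ↔ y ∈ P := by
  rw [mem_cj]
  have : x * (x⁻¹ * y * x) * x⁻¹ = y := by group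
  rw [this]

theorem cj_cj {G : Type u} [Group G] (P : Subgroup G) (x y : G) : cj (cj P x) y = cj P (x * y) := by
  ext z
  rw [mem_cj, mem_cj, mem_cj]
  have : x * (y * z * y⁻¹) * x⁻¹ = x * y * z * (x * y)⁻¹ := by group
  rw [this]

theorem cj_mono {G : Type u} [Group G] {P Q : Subgroup G} (h : P ≤ Q) (x : G) : cj P x ≤ cj Q x :=
  fun _ hy => h hy

theorem cj_eq_iff {G : Type u} [Group G] {P : Subgroup G} {x : G} : cj P x = P ↔ Nm P x := by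
  constructor
  · intro h y
    rw [← conj_mem_cj (P := P) (x := x), h]
  · intro h
    ext y
    rw [mem_cj, h]
    have : x⁻¹ * (x * y * x⁻¹) * x = y := by group
    rw [this]

/-- The set used in the proof of THEOREM T: subgroups `P` of `T` containing `a` which are
normalized by some element outside `T`. -/
def PP {G : Type u} [Group G] (T : Subgroup G) (a : G) : Set (Subgroup G) :=
  {P | P ≤ T ∧ a ∈ P ∧ ∃ x : G, x ∉ T ∧ Nm P x}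

/-! ### Rows: section 0 -/

/-- SUB (0.1): subgroups. -/
def SubS : Prop := ∀ (G : Type u) [Group G] (X U : Subgroup G), Chs X → U ≤ X → Chs U

/-- OVR (0.1): overgroups of finite index. -/
def OvrS : Prop := ∀ (G : Type u) [Group G] (X L : Subgroup G), Chs X → X ≤ L →
  X.relIndex L ≠ 0 → Chs L

/-- LFC (0.2): local finiteness. -/
def LfcS : Prop := ∀ (G : Type u) [Group G], IsPGroup 2 G → ∀ X : Subgroup G, Chs X →
  ∀ Y : Subgroup G, Y ≤ X → Y.FG → Finite Y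

/-- NRM (0.3): the normalizer condition (with an element whose square is in `P`). -/
def NrmS : Prop := ∀ (G : Type u) [Group G], IsPGroup 2 G → ∀ X P : Subgroup G, Chs X →
  P ≤ X → P ≠ X → ∃ x ∈ X, x ∉ P ∧ x ^ 2 ∈ P ∧ Nm P x

/-- AB2 (0.4): an abelian 2-group with finitely many involutions, modulo fourth powers. -/
def Ab2S : Prop := ∀ (Z : Type u) [CommGroup Z], IsPGroup 2 Z → {z : Z | z ^ 2 = 1}.Finite →
  ((powMonoidHom 4 : Z →* Z).range).FiniteIndex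

/-- PRS (0.5): pairs of commuting elements of square 1 in two cosets of `B`. -/
def PrsS : Prop := ∀ (G : Type u) [Group G] (B : Subgroup G),
  (∀ x ∈ B, ∀ y ∈ B, x * y = y * x) → (∀ x ∈ B, ∃ k : ℕ, x ^ 2 ^ k = 1) →
  {x : G | x ∈ B ∧ x ^ 2 = 1}.Finite →
  ∀ a b : G, (∀ y ∈ B, a⁻¹ * y * a ∈ B) → (∀ y ∈ B, b⁻¹ * y * b ∈ B) →
    a ^ 2 = 1 → b ^ 2 = 1 → a * b = b * a → ∃ F : Set (G × G), F.Finite ∧
    ∀ a' b' : G, a⁻¹ * a' ∈ B → b⁻¹ * b' ∈ B → a' ^ 2 = 1 → b' ^ 2 = 1 → a' * b' = b' * a' →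
      ∃ p ∈ F, ∃ x ∈ B, a' = x⁻¹ * p.1 * x ∧ b' = x⁻¹ * p.2 * x

/-- PRC (0.5, consequence): commuting pairs of elements of square 1 of a group of Chernikov type. -/
def PrcS : Prop := ∀ (G : Type u) [Group G], IsPGroup 2 G → ∀ X : Subgroup G, Chs X →
  ∃ F : Set (G × G), F.Finite ∧ (∀ p ∈ F, p.1 ∈ X ∧ p.2 ∈ X) ∧
    ∀ a' ∈ X, ∀ b' ∈ X, a' ^ 2 = 1 → b' ^ 2 = 1 → a' * b' = b' * a' →
      ∃ p ∈ F, ∃ x ∈ X, a' = x⁻¹ * p.1 * x ∧ b' = x⁻¹ * p.2 * x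

/-- UNI (0.6): a subgroup containing conjugates of cofinally many members of a chain with union
`U`. -/
def UniS : Prop := ∀ (G : Type u) [Group G], IsPGroup 2 G → ∀ U W : Subgroup G, Chs U → W ≤ U →
  ∀ K : Set (Subgroup G), K.Nonempty → IsChain (· ≤ ·) K → (∀ P ∈ K, P ≤ U) →
    (∀ x ∈ U, ∃ P ∈ K, x ∈ P) → (∀ P ∈ K, ∃ Q ∈ K, P ≤ Q ∧ ∃ x ∈ U, cj Q x ≤ W) → W = U

/-! ### Rows: section 1 (THEOREM T) -/

/-- STP (1, (1)): no member of `PP T a` is maximal. -/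
def StpS : Prop := ∀ (G : Type u) [Group G], IsPGroup 2 G → ∀ (T : Subgroup G) (a : G), Chs T →
  (∀ x : G, Nm T x → x ∈ T) → ∀ P ∈ PP T a, ∃ P' ∈ PP T a, P < P'

/-- UPB (1, (2)): chains in `PP T a` have upper bounds. -/
def UpbS : Prop := ∀ (G : Type u) [Group G], IsPGroup 2 G → ∀ (T : Subgroup G) (a : G), Chs T →
  a ^ 2 = 1 → (∀ x : G, x * a = a * x → x ∈ T) → (∀ x : G, Nm T x → x ∈ T) →
  ∀ K ⊆ PP T a, K.Nonempty → IsChain (· ≤ ·) K → ∃ U ∈ PP T a, ∀ P ∈ K, P ≤ U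

/-- TT (THEOREM T). -/
def TtS : Prop := ∀ (G : Type u) [Group G], IsPGroup 2 G → ∀ (T : Subgroup G) (a : G), Chs T →
  a ^ 2 = 1 → (∀ x : G, x * a = a * x → x ∈ T) → (∀ x : G, Nm T x → x ∈ T) → T = ⊤

/-! ### Rows: section 2 (THEOREM R) -/

/-- DVS (2, (be), first half): the divisible part. -/
def DvsS : Prop := ∀ (G : Type u) [Group G] (B : Subgroup G), (∀ x ∈ B, ∀ y ∈ B, x * y = y * x) →
  (∀ x ∈ B, ∃ k : ℕ, x ^ 2 ^ k = 1) → {x : G | x ∈ B ∧ x ^ 2 = 1}.Finite →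
  ∃ e : ℕ, (∀ x ∈ B, ∃ y ∈ B, x ^ 2 ^ e = (y ^ 2 ^ e) ^ 2) ∧
    ∃ F : Set G, F.Finite ∧ F ⊆ B ∧ ∀ x ∈ B, ∃ f ∈ F, ∃ y ∈ B, x = f * y ^ 2 ^ e

/-- ACT (2, (be)): `|T : C_T(B)|` is finite. -/
def ActS : Prop := ∀ (G : Type u) [Group G], IsPGroup 2 G → ∀ B : Subgroup G, B.Normal →
  (∀ x ∈ B, ∀ y ∈ B, x * y = y * x) → {x : G | x ∈ B ∧ x ^ 2 = 1}.Finite →
  (Subgroup.centralizer (B : Set G)).FiniteIndex

/-- OME (2, (al)): `B[2]` is finite. -/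
def OmeS : Prop := ∀ (G : Type u) [Group G] (B : Subgroup G), B.Normal →
  (∀ x ∈ B, ∀ y ∈ B, x * y = y * x) → ∀ a b : G, a ^ 2 = 1 → b ^ 2 = 1 → a * b = b * a →
  {x : G | x * a = a * x ∧ x * b = b * x}.Finite → {x : G | x ∈ B ∧ x ^ 2 = 1}.Finite

/-- YFI (2, (ga)): `|Y : B|` is finite. -/
def YfiS : Prop := ∀ (G : Type u) [Group G], IsPGroup 2 G → ∀ B : Subgroup G, B.Normal →
  (∀ x ∈ B, ∀ y ∈ B, x * y = y * x) → {x : G | x ∈ B ∧ x ^ 2 = 1}.Finite →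
  ∀ a b : G, a ^ 2 = 1 → b ^ 2 = 1 → a * b = b * a →
  {x : G | x * a = a * x ∧ x * b = b * x}.Finite →
  ∃ F : Set G, F.Finite ∧ ∀ g : G, a⁻¹ * (g⁻¹ * a * g) ∈ B → b⁻¹ * (g⁻¹ * b * g) ∈ B →
    ∃ f ∈ F, f⁻¹ * g ∈ B

/-- CMP (2, (de)): compactness. -/
def CmpS : Prop := ∀ (G : Type u) [Group G], IsPGroup 2 G → LF G → ∀ B C : Subgroup G, B.Normal →
  C.Normal → B < C → ∀ V : Subgroup G, Finite V →
  (∃ F : Set G, F.Finite ∧ ∀ g ∈ C, (∀ v ∈ V, v⁻¹ * (g⁻¹ * v * g) ∈ B) → ∃ f ∈ F, f⁻¹ * g ∈ B) →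
  ∃ z ∈ C, z ∉ B ∧ ∀ x : G, x⁻¹ * (z⁻¹ * x * z) ∈ B

/-- RR (THEOREM R). -/
def RrS : Prop := ∀ (G : Type u) [Group G], IsPGroup 2 G → LF G → ∀ a b : G, a ^ 2 = 1 →
  b ^ 2 = 1 → a * b = b * a → {x : G | x * a = a * x ∧ x * b = b * x}.Finite →
  Chs (⊤ : Subgroup G)

/-! ### Rows: sections 3, 4, 5 -/

/-- MLF: every locally finite subgroup `X` of a periodic group is contained in a locally finite
subgroup `T` which contains every element that normalizes it. -/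
def MlfS : Prop := ∀ (G : Type u) [Group G], (∀ g : G, ∃ n : ℕ, 0 < n ∧ g ^ n = 1) →
  ∀ X : Subgroup G, LF X → ∃ T : Subgroup G, X ≤ T ∧ LF T ∧ ∀ x : G, Nm T x → x ∈ T

/-- PT (THEOREM P). -/
def PtS : Prop := ∀ (G : Type u) [Group G], IsPGroup 2 G → ∀ a b : G, a ^ 2 = 1 → b ^ 2 = 1 →
  a * b = b * a → {x : G | x * a = a * x ∧ x * b = b * x}.Finite → Chs (⊤ : Subgroup G)

/-- SYL (4, first half): a countable ascending union of finite groups containing the pairs. -/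
def SylS : Prop := ∀ (G : Type u) [Group G], LF G → ∀ (a b : G), a ^ 2 = 1 → b ^ 2 = 1 →
  a * b = b * a → ∀ p : ℕ → G × G, (∀ n, (p n).1 ^ 2 = 1 ∧ (p n).2 ^ 2 = 1 ∧
    (p n).1 * (p n).2 = (p n).2 * (p n).1) → ∃ S : Subgroup G, (∀ x ∈ S, ∃ k : ℕ, x ^ 2 ^ k = 1) ∧
      a ∈ S ∧ b ∈ S ∧ ∀ n, ∃ h : G, h⁻¹ * (p n).1 * h ∈ S ∧ h⁻¹ * (p n).2 * h ∈ S

/-- FR (THEOREM F, Frattini). -/
def FrS : Prop := ∀ (G : Type u) [Group G] (N : Subgroup G) [N.Normal], LF N → ∀ a b : G,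
  a ^ 2 = 1 → b ^ 2 = 1 → a * b = b * a → {x : G | x * a = a * x ∧ x * b = b * x}.Finite →
  {q : G ⧸ N | q * (a : G ⧸ N) = (a : G ⧸ N) * q ∧ q * (b : G ⧸ N) = (b : G ⧸ N) * q}.Finite

/-- The V-theorem (black box). -/
def VtS : Prop := ∀ (G : Type u) [Group G], (∀ g : G, ∃ n : ℕ, 0 < n ∧ g ^ n = 1) →
  ∀ R : Subgroup G, Nat.card R = 4 → (∀ r ∈ R, r ^ 2 = 1) → ∀ N : Subgroup G, N.Normal →
  (∀ g ∈ N, g ^ 2 = 1 → g = 1) → Finite ↥(N ⊓ Subgroup.centralizer (R : Set G)) →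
  ∀ H ≤ N, H.FG → Finite H

/-- An involution acting on a group without involutions with finite centralizer (black box). -/
def InvS : Prop := ∀ (G : Type u) [Group G], (∀ g : G, ∃ n : ℕ, 0 < n ∧ g ^ n = 1) →
  ∀ t : G, t ^ 2 = 1 → ∀ N : Subgroup G, N.Normal → (∀ g ∈ N, g ^ 2 = 1 → g = 1) →
  {x : G | x ∈ N ∧ x * t = t * x}.Finite → ∀ H ≤ N, H.FG → Finite H

/-- TC (THEOREM C), with the V-theorem as input. -/
def TcS : Prop := ∀ (G : Type u) [Group G], (∀ g : G, ∃ n : ℕ, 0 < n ∧ g ^ n = 1) →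
  ∀ R : Subgroup G, Nat.card R = 4 → (∀ r ∈ R, r ^ 2 = 1) →
  Finite ↥(Subgroup.centralizer (R : Set G)) →
  ∀ C : Set (Subgroup G), (∀ M ∈ C, M.Normal) → ⊥ ∈ C →
  (∀ c ⊆ C, c.Nonempty → IsChain (· ≤ ·) c → sSup c ∈ C) →
  (∀ M ∈ C, M ≠ ⊤ → ∃ N ∈ C, M < N ∧ ((∀ S ≤ N, S.FG → M.relIndex S ≠ 0) ∨
    (∀ n ∈ N, ∃ k : ℕ, n ^ 2 ^ k ∈ M) ∨ (∀ n ∈ N, n ^ 2 ∈ M → n ∈ M))) →
  ∀ H : Subgroup G, H.FG → Finite H

end Pool.Agent.FourGp.SR
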