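import Mathlib
import Pool.Agent.Lib.MP_fb3619_al.SR.Iface

/-!
# MP_fb3619_al, board SR, row CMP: the compactness step of THEOREM R
-/

set_option autoImplicit false

universe u

namespace Pool.Agent.FourGp.SR

open Pool.Agent.FourGp.H99 (LF)

theorem cmp : CmpS.{u} := by
  classical
  intro G _ hG hlf B C hB hC hBC V hV hF
  obtain ⟨F, hFf, hF⟩ := hF
  by_contra hno
  have hno' : ∀ z ∈ C, z ∉ B → ∃ x : G, x⁻¹ * (z⁻¹ * x * z) ∉ B := by
    intro z hz hzB
    by_contra h
    push Not at h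
    exact hno ⟨z, hz, hzB, h⟩
  obtain ⟨w, hwC, hwB⟩ := SetLike.exists_of_lt hBC
  -- witnesses
  have hx : ∀ z : G, ∃ x : G, z ∈ C → z ∉ B → x⁻¹ * (z⁻¹ * x * z) ∉ B := by
    intro z
    by_cases h : z ∈ C ∧ z ∉ B
    · obtain ⟨x, hx⟩ := hno' z h.1 h.2
      exact ⟨x, fun _ _ => hx⟩
    · refine ⟨1, fun h1 h2 => absurd ⟨h1, h2⟩ h⟩
  choose X hX using hx
  -- the finite group P
  let gens : Set G := (V : Set G) ∪ (X '' F ∪ {w})
  have hgens : gens.Finite :=
    (Set.toFinite (V : Set G)).union ((hFf.image X).union (Set.finite_singleton w))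
  let P : Subgroup G := Subgroup.closure gens
  have hPfin : Finite P := hlf P ((Subgroup.fg_iff P).2 ⟨gens, rfl, hgens⟩)
  have hVP : ∀ v ∈ V, v ∈ P := fun v hv => Subgroup.subset_closure (Or.inl hv)
  have hXP : ∀ f ∈ F, X f ∈ P := fun f hf =>
    Subgroup.subset_closure (Or.inr (Or.inl ⟨f, hf, rfl⟩))
  have hwP : w ∈ P := Subgroup.subset_closure (Or.inr (Or.inr rfl))
  -- the image of P ⊓ C
  let M : Subgroup (G ⧸ B) := (P ⊓ C).map (QuotientGroup.mk' B)
  have hPC : Finite ↥(P ⊓ C) :=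
    Finite.of_injective (Subgroup.inclusion (inf_le_left : P ⊓ C ≤ P))
      (Subgroup.inclusion_injective _)
  have hMfin : Finite M := by
    have h1 : ((P ⊓ C : Subgroup G) : Set G).Finite := Set.toFinite _
    have h2 := h1.image (QuotientGroup.mk' B)
    rw [← Subgroup.coe_map] at h2
    exact h2.to_subtype
  have hM2 : IsPGroup 2 M := (hG.to_quotient B).to_subgroup M
  have hwM : QuotientGroup.mk' B w ∈ M := ⟨w, ⟨hwP, hwC⟩, rfl⟩
  have hw1 : QuotientGroup.mk' B w ≠ 1 := by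
    intro h
    exact hwB ((QuotientGroup.eq_one_iff w).1 h)
  have hdvd : 2 ∣ Nat.card M := by
    have : Fact (Nat.Prime 2) := ⟨Nat.prime_two⟩
    obtain ⟨n, hn⟩ := IsPGroup.iff_card.1 hM2
    rcases Nat.eq_zero_or_pos n with h0 | h0
    · exfalso
      rw [h0, pow_zero] at hn
      have h3 := (Nat.card_eq_one_iff_unique.1 hn).1
      have h4 : (⟨QuotientGroup.mk' B w, hwM⟩ : M) = 1 := Subsingleton.elim _ _
      exact hw1 (congrArg Subtype.val h4)
    · rw [hn]
      exact dvd_pow_self 2 (by omega)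
  -- the action of P on M
  have hmem : ∀ (x : P) (m : M),
      QuotientGroup.mk' B x * (m : G ⧸ B) * (QuotientGroup.mk' B x)⁻¹ ∈ M := by
    rintro x ⟨_, y, ⟨hyP, hyC⟩, rfl⟩
    refine ⟨x * y * (x : G)⁻¹, ⟨P.mul_mem (P.mul_mem x.2 hyP) (P.inv_mem x.2),
      hC.conj_mem y hyC x⟩, ?_⟩
    rw [map_mul, map_mul, map_inv]
  let act : MulAction P M :=
    { smul := fun x m => ⟨_, hmem x m⟩
      one_smul := by
        intro m
        apply Subtype.ext
        show QuotientGroup.mk' B ((1 : P) : G) * (m : G ⧸ B) *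
          (QuotientGroup.mk' B ((1 : P) : G))⁻¹ = m
        simp
      mul_smul := by
        intro x y m
        apply Subtype.ext
        show QuotientGroup.mk' B ((x * y : P) : G) * (m : G ⧸ B) *
          (QuotientGroup.mk' B ((x * y : P) : G))⁻¹ =
          QuotientGroup.mk' B x * (QuotientGroup.mk' B y * (m : G ⧸ B) *
            (QuotientGroup.mk' B y)⁻¹) * (QuotientGroup.mk' B x)⁻¹
        rw [Subgroup.coe_mul, map_mul]
        group }
  have hsm : ∀ (x : P) (m : M), ((x • m : M) : G ⧸ B) =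
      QuotientGroup.mk' B x * (m : G ⧸ B) * (QuotientGroup.mk' B x)⁻¹ := fun _ _ => rfl
  have : Fact (Nat.Prime 2) := ⟨Nat.prime_two⟩
  have hP2 : IsPGroup 2 P := hG.to_subgroup P
  obtain ⟨m, hm, hm1⟩ := hP2.exists_fixed_point_of_prime_dvd_card_of_fixed_point M hdvd
    (a := 1) (by
      intro x
      apply Subtype.ext
      rw [hsm]
      simp)
  obtain ⟨z, ⟨hzP, hzC⟩, hzm⟩ := m.2
  have hzB : z ∉ B := by
    intro h
    apply hm1
    apply Subtype.ext
    rw [← hzm]
    exact ((QuotientGroup.eq_one_iff z).2 h).symm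
  have hcomm : ∀ x ∈ P, QuotientGroup.mk' B x * QuotientGroup.mk' B z =
      QuotientGroup.mk' B z * QuotientGroup.mk' B x := by
    intro x hx
    have h1 := congrArg Subtype.val (hm ⟨x, hx⟩)
    rw [hsm, ← hzm] at h1
    have h2 : QuotientGroup.mk' B x * QuotientGroup.mk' B z * (QuotientGroup.mk' B x)⁻¹ =
      QuotientGroup.mk' B z := h1
    exact mul_inv_eq_iff_eq_mul.1 h2
  have hcommB : ∀ (x f : G), QuotientGroup.mk' B x * QuotientGroup.mk' B f =
      QuotientGroup.mk' B f * QuotientGroup.mk' B x → x⁻¹ * (f⁻¹ * x * f) ∈ B := by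
    intro x f h
    rw [← QuotientGroup.eq_one_iff]
    show QuotientGroup.mk' B (x⁻¹ * (f⁻¹ * x * f)) = 1
    rw [map_mul, map_mul, map_mul, map_inv, map_inv, mul_assoc, h]
    group
  obtain ⟨f, hfF, hfz⟩ := hF z hzC fun v hv => hcommB v z (hcomm v (hVP v hv))
  have hfz' : QuotientGroup.mk' B f = QuotientGroup.mk' B z := by
    show (f : G ⧸ B) = (z : G ⧸ B)
    exact QuotientGroup.eq.2 hfz
  have hfC : f ∈ C := by
    have h1 : f⁻¹ * z ∈ C := hBC.le hfz
    have h2 : z * (f⁻¹ * z)⁻¹ ∈ C := C.mul_mem hzC (C.inv_mem h1)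
    have h3 : z * (f⁻¹ * z)⁻¹ = f := by group
    rwa [h3] at h2
  have hfB : f ∉ B := by
    intro h
    have h1 : f * (f⁻¹ * z) ∈ B := B.mul_mem h hfz
    rw [mul_inv_cancel_left] at h1
    exact hzB h1
  refine hX f hfC hfB (hcommB (X f) f ?_)
  rw [hfz']
  exact hcomm (X f) (hXP f hfF)

end Pool.Agent.FourGp.SR
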