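import Mathlib
import Pool.Agent.Lib.MP_fb3619_al.SR.Iface

/-!
# MP_fb3619_al, board SR, row DVS: the divisible part of an abelian 2-group with finite `B[2]`
-/

set_option autoImplicit false

universe u

namespace Pool.Agent.FourGp.SR

namespace DvsH

theorem tors_finite {A : Type u} [CommGroup A] (fin : {x : A | x ^ 2 = 1}.Finite) (k : ℕ) :
    {x : A | x ^ 2 ^ k = 1}.Finite := by
  induction k with
  | zero =>
    refine (Set.finite_singleton (1 : A)).subset ?_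
    intro x hx
    simpa using hx
  | succ k ih =>
    refine Set.Finite.of_finite_fibers (fun x : A => x ^ 2) (ih.subset ?_) ?_
    · rintro _ ⟨x, hx, rfl⟩
      have h1 : x ^ 2 ^ (k + 1) = 1 := hx
      show (x ^ 2) ^ 2 ^ k = 1
      rw [← pow_mul, ← pow_succ']
      exact h1
    · rintro _ ⟨x, hx, rfl⟩
      refine (fin.image (fun t => x * t)).subset ?_
      rintro y ⟨-, hy⟩
      have h1 : y ^ 2 = x ^ 2 := hy
      refine ⟨x⁻¹ * y, ?_, by simp⟩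
      show (x⁻¹ * y) ^ 2 = 1
      rw [mul_pow, h1, inv_pow, inv_mul_cancel]

theorem stab {A : Type u} [CommGroup A] (fin : {x : A | x ^ 2 = 1}.Finite) :
    ∃ e : ℕ, ∀ m, e ≤ m → ∀ t : A, t ^ 2 = 1 → (∃ u : A, u ^ 2 ^ e = t) →
      ∃ u : A, u ^ 2 ^ m = t := by
  classical
  -- the sets D m = {t | t ^ 2 = 1, t a 2^m-th power}
  let D : ℕ → Set A := fun m => {t | t ^ 2 = 1 ∧ ∃ u : A, u ^ 2 ^ m = t}
  have hD : ∀ m, (D m).Finite := fun m => fin.subset fun t ht => ht.1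
  have hanti : ∀ m n, m ≤ n → D n ⊆ D m := by
    rintro m n hmn t ⟨h1, u, hu⟩
    refine ⟨h1, u ^ 2 ^ (n - m), ?_⟩
    rw [← pow_mul, ← pow_add, Nat.sub_add_cancel hmn]
    exact hu
  -- minimal cardinality
  obtain ⟨e, he⟩ : ∃ e, ∀ m, (D e).ncard ≤ (D m).ncard := by
    have hne : (Set.range fun m => (D m).ncard).Nonempty := ⟨_, 0, rfl⟩
    obtain ⟨e, he⟩ := Nat.sInf_mem hne
    refine ⟨e, fun m => ?_⟩
    have h2 : (fun m => (D m).ncard) e = sInf (Set.range fun m => (D m).ncard) := he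
    have h3 : sInf (Set.range fun m => (D m).ncard) ≤ (D m).ncard := Nat.sInf_le ⟨m, rfl⟩
    rw [← h2] at h3
    exact h3
  refine ⟨e, fun m hm t ht hu => ?_⟩
  have h1 : D m = D e := Set.eq_of_subset_of_ncard_le (hanti e m hm) (he m) (hD e)
  have h2 : t ∈ D e := ⟨ht, hu⟩
  rw [← h1] at h2
  exact h2.2

theorem main {A : Type u} [CommGroup A] (tor : ∀ x : A, ∃ k : ℕ, x ^ 2 ^ k = 1)
    (fin : {x : A | x ^ 2 = 1}.Finite) :
    ∃ e : ℕ, (∀ x : A, ∃ y : A, x ^ 2 ^ e = (y ^ 2 ^ e) ^ 2) ∧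
      ∀ x : A, ∃ f : A, f ^ 2 ^ e = 1 ∧ ∃ y : A, x = f * y ^ 2 ^ e := by
  obtain ⟨e, he⟩ := stab fin
  have h1 : ∀ n : ℕ, ∀ x : A, (x ^ 2 ^ e) ^ 2 ^ n = 1 → ∃ y : A, x ^ 2 ^ e = (y ^ 2 ^ e) ^ 2 := by
    intro n
    induction n with
    | zero =>
      intro x hx
      refine ⟨1, ?_⟩
      have : x ^ 2 ^ e = 1 := by simpa using hx
      rw [this]; simp
    | succ n ih =>
      intro x hx
      obtain ⟨v, hv⟩ := he (e + (n + 1)) (by omega) ((x ^ 2 ^ e) ^ 2 ^ n)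
        (by rw [← pow_mul, ← pow_succ]; exact hx)
        ⟨x ^ 2 ^ n, by rw [← pow_mul, ← pow_mul, mul_comm]⟩
      have h2 : (v ^ 2 ^ e) ^ 2 ^ (n + 1) = (x ^ 2 ^ e) ^ 2 ^ n := by
        rw [← pow_mul, ← pow_add]; exact hv
      obtain ⟨z, hz⟩ := ih (x * (v ^ 2)⁻¹) (by
        rw [mul_pow, mul_pow, ← h2, inv_pow, inv_pow, ← pow_mul, ← pow_mul, ← pow_mul]
        have : 2 ^ e * 2 ^ (n + 1) = 2 * (2 ^ e * 2 ^ n) := by ring
        rw [this, mul_inv_cancel])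
      refine ⟨z * v, ?_⟩
      have h3 : x ^ 2 ^ e = (x * (v ^ 2)⁻¹) ^ 2 ^ e * (v ^ 2) ^ 2 ^ e := by
        rw [← mul_pow, inv_mul_cancel_right]
      rw [h3, hz, mul_pow, mul_pow, ← pow_mul v, ← pow_mul v, mul_comm 2 (2 ^ e)]
  have h2 : ∀ x : A, ∃ y : A, x ^ 2 ^ e = (y ^ 2 ^ e) ^ 2 := by
    intro x
    obtain ⟨k, hk⟩ := tor (x ^ 2 ^ e)
    exact h1 k x hk
  refine ⟨e, h2, fun x => ?_⟩
  have h3 : ∀ m : ℕ, ∃ y : A, x ^ 2 ^ e = (y ^ 2 ^ e) ^ 2 ^ m := by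
    intro m
    induction m with
    | zero => exact ⟨x, by simp⟩
    | succ m ih =>
      obtain ⟨y, hy⟩ := ih
      obtain ⟨z, hz⟩ := h2 y
      refine ⟨z, ?_⟩
      rw [hy, hz, ← pow_mul, ← pow_succ']
  obtain ⟨y, hy⟩ := h3 e
  refine ⟨x * (y ^ 2 ^ e)⁻¹, ?_, y, by simp⟩
  rw [mul_pow, inv_pow, hy, mul_inv_cancel]

end DvsH

theorem dvs : DvsS.{u} := by
  intro G _ B hc tor fin
  let _ : CommGroup B := { (inferInstance : Group B) with
    mul_comm := fun x y => Subtype.ext (hc x x.2 y y.2) }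
  have hf : {x : B | x ^ 2 = 1}.Finite := by
    refine Set.Finite.of_finite_image (f := Subtype.val) (fin.subset ?_)
      (Subtype.val_injective.injOn)
    rintro _ ⟨x, hx, rfl⟩
    refine ⟨x.2, ?_⟩
    have : x ^ 2 = 1 := hx
    have h2 := congrArg Subtype.val this
    simpa using h2
  have ht : ∀ x : B, ∃ k : ℕ, x ^ 2 ^ k = 1 := by
    intro x
    obtain ⟨k, hk⟩ := tor x x.2
    exact ⟨k, Subtype.ext (by simpa using hk)⟩
  obtain ⟨e, h1, h2⟩ := DvsH.main ht hf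
  refine ⟨e, ?_, Subtype.val '' {x : B | x ^ 2 ^ e = 1}, (DvsH.tors_finite hf e).image _, ?_, ?_⟩
  · intro x hx
    obtain ⟨y, hy⟩ := h1 ⟨x, hx⟩
    refine ⟨y, y.2, ?_⟩
    have := congrArg Subtype.val hy
    simpa using this
  · rintro _ ⟨x, -, rfl⟩
    exact x.2
  · intro x hx
    obtain ⟨f, hf', y, hy⟩ := h2 ⟨x, hx⟩
    refine ⟨f, ⟨f, hf', rfl⟩, y, y.2, ?_⟩
    have := congrArg Subtype.val hy
    simpa using this

end Pool.Agent.FourGp.SR
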