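import Pool.Agent.Lib.MP_fb3619_al.SR.Iface

/-!
# MP_fb3619_al, board SR, row FR: THEOREM F (Frattini argument)
-/

set_option autoImplicit false

universe u

namespace Pool.Agent.FourGp.SR

open Pool.Agent.FourGp.H99 (LF LF_of_finiteIndex)

open scoped Pointwise

/-- Subgroups of locally finite groups are locally finite. -/
theorem fr_sub {G : Type u} [Group G] (hG : LF G) (S : Subgroup G) : LF S := by
  intro T hT
  have h0 : Group.FG T := (Group.fg_iff_subgroup_fg T).2 hT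
  have h1 : Group.FG (T.map S.subtype) :=
    Group.fg_of_surjective (f := (T.equivMapOfInjective S.subtype S.subtype_injective).toMonoidHom)
      (T.equivMapOfInjective S.subtype S.subtype_injective).surjective
  have h2 : Finite (T.map S.subtype) := hG _ ((Group.fg_iff_subgroup_fg _).1 h1)
  exact Finite.of_equiv _ (T.equivMapOfInjective S.subtype S.subtype_injective).symm.toEquiv

/-- Local finiteness of `N` as a subgroup of `H`. -/
theorem fr_subgroupOf {G : Type u} [Group G] {N H : Subgroup G} (hN : LF N) (hle : N ≤ H) :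
    LF (N.subgroupOf H) := by
  intro T hT
  have h0 : Group.FG T := (Group.fg_iff_subgroup_fg T).2 hT
  set e := Subgroup.subgroupOfEquivOfLe hle with he
  have h1 : Group.FG (T.map e.toMonoidHom) :=
    Group.fg_of_surjective (f := (T.equivMapOfInjective e.toMonoidHom e.injective).toMonoidHom)
      (T.equivMapOfInjective e.toMonoidHom e.injective).surjective
  have h2 : Finite (T.map e.toMonoidHom) := hN _ ((Group.fg_iff_subgroup_fg _).1 h1)
  exact Finite.of_equiv _ (T.equivMapOfInjective e.toMonoidHom e.injective).symm.toEquiv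

/-- The subgroup `{1, a, b, ab}`. -/
def fr4 {G : Type u} [Group G] (a b : G) (ha : a * a = 1) (hb : b * b = 1)
    (hab : a * b = b * a) : Subgroup G where
  carrier := {x | x = 1 ∨ x = a ∨ x = b ∨ x = a * b}
  mul_mem' := by
    have h1 : ∀ x, a * (a * x) = x := fun x => by rw [← mul_assoc, ha, one_mul]
    have h3 : ∀ x, b * (a * x) = a * (b * x) := fun x => by
      rw [← mul_assoc, ← hab, mul_assoc]
    have h4 : b * a = a * b := hab.symm
    intro x y hx hy
    rcases hx with hx | hx | hx | hx <;> rcases hy with hy | hy | hy | hy <;> rw [hx, hy] <;>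
      simp only [Set.mem_ofPred_eq, mul_assoc, ha, hb, h1, h3, h4, one_mul, mul_one, true_or,
        or_true]
  one_mem' := Or.inl rfl
  inv_mem' := by
    intro x hx
    have h1 : a⁻¹ = a := inv_eq_of_mul_eq_one_left ha
    have h2 : b⁻¹ = b := inv_eq_of_mul_eq_one_left hb
    rcases hx with hx | hx | hx | hx <;> rw [hx]
    · exact Or.inl inv_one
    · exact Or.inr (Or.inl h1)
    · exact Or.inr (Or.inr (Or.inl h2))
    · refine Or.inr (Or.inr (Or.inr ?_))
      rw [mul_inv_rev, h1, h2, hab]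

/-- FR. -/
theorem fr (syl : SylS.{u}) (rr : RrS.{u}) (prc : PrcS.{u}) : FrS.{u} := by
  classical
  intro G _ N _ hN a b ha hb hab hfin
  have haa : a * a = 1 := by rw [← pow_two]; exact ha
  have hbb : b * b = 1 := by rw [← pow_two]; exact hb
  set K : Subgroup G := fr4 a b haa hbb hab with hK
  have hKf : (K : Set G).Finite := by
    have h1 : (K : Set G) ⊆ {1, a, b, a * b} := by
      intro x hx
      exact hx
    exact (Set.toFinite _).subset h1
  have haK : a ∈ K := Or.inr (Or.inl rfl)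
  have hbK : b ∈ K := Or.inr (Or.inr (Or.inl rfl))
  set H : Subgroup G := N ⊔ K with hH
  have hNH : N ≤ H := le_sup_left
  have hKH : K ≤ H := le_sup_right
  -- `H` is locally finite
  have hHLF : LF H := by
    have h1 : (N.subgroupOf H).FiniteIndex := by
      refine ⟨?_⟩
      change N.relIndex H ≠ 0
      have : Finite K := hKf
      have h2 : N.relIndex (K ⊔ N) = N.relIndex K := Subgroup.relIndex_sup_right K N
      rw [hH, sup_comm, h2]
      change (N.subgroupOf K).index ≠ 0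
      exact Subgroup.FiniteIndex.index_ne_zero
    exact LF_of_finiteIndex (N.subgroupOf H) (fr_subgroupOf hN hNH)
  by_contra hinf
  have hinf' : {q : G ⧸ N | q * (a : G ⧸ N) = (a : G ⧸ N) * q ∧
    q * (b : G ⧸ N) = (b : G ⧸ N) * q}.Infinite := hinf
  set C : Set G := {x : G | x * a = a * x ∧ x * b = b * x} with hC
  -- the sequence
  obtain ⟨f, hf1, hf2⟩ := exists_seq_of_forall_finset_exists
    (P := fun y : G => ((y : G ⧸ N) * (a : G ⧸ N) = (a : G ⧸ N) * (y : G ⧸ N) ∧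
      (y : G ⧸ N) * (b : G ⧸ N) = (b : G ⧸ N) * (y : G ⧸ N)))
    (r := fun x y : G => ∀ h ∈ H, ¬ (h⁻¹ * (x⁻¹ * a * x) * h = y⁻¹ * a * y ∧
      h⁻¹ * (x⁻¹ * b * x) * h = y⁻¹ * b * y)) (by
    intro s _
    have h1 : ((fun p : G × G × G => ((p.1 * p.2.1 * p.2.2 : G) : G ⧸ N)) ''
        (C ×ˢ ((s : Set G) ×ˢ (K : Set G)))).Finite :=
      (hfin.prod ((Finset.finite_toSet s).prod hKf)).image _
    obtain ⟨q, hq, hq'⟩ := (hinf'.sdiff h1).nonempty
    obtain ⟨y, rfl⟩ := QuotientGroup.mk_surjective q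
    refine ⟨y, hq, ?_⟩
    rintro x hx h hh ⟨e1, e2⟩
    apply hq'
    have h2 : h ∈ (N : Set G) * (K : Set G) := by
      rw [← Subgroup.normal_mul]
      exact hh
    obtain ⟨n, hn, k, hk, rfl⟩ := h2
    refine ⟨(y * (x * (n * k))⁻¹, x, k), ⟨⟨?_, ?_⟩, hx, hk⟩, ?_⟩
    · have e3 : y * (x * (n * k))⁻¹ * a =
        y * ((n * k)⁻¹ * (x⁻¹ * a * x) * (n * k)) * (x * (n * k))⁻¹ := by group
      simp only []
      rw [e3, e1]; group
    · have e3 : y * (x * (n * k))⁻¹ * b =
        y * ((n * k)⁻¹ * (x⁻¹ * b * x) * (n * k)) * (x * (n * k))⁻¹ := by group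
      simp only []
      rw [e3, e2]; group
    · simp only []
      rw [QuotientGroup.eq]
      have e3 : (y * (x * (n * k))⁻¹ * x * k)⁻¹ * y = k⁻¹ * n * k := by group
      rw [e3]
      have := (inferInstance : N.Normal).conj_mem n hn k⁻¹
      rw [inv_inv] at this
      exact this)
  -- the pairs are in `H`
  have hmem : ∀ (y c : G), c ∈ H → (y : G ⧸ N) * (c : G ⧸ N) = (c : G ⧸ N) * (y : G ⧸ N) →
      y⁻¹ * c * y ∈ H := by
    intro y c hc h
    have h1 : ((y * c : G) : G ⧸ N) = ((c * y : G) : G ⧸ N) := h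
    rw [QuotientGroup.eq] at h1
    have h2 : y⁻¹ * c * y = c * ((y * c)⁻¹ * (c * y)) := by group
    rw [h2]
    exact H.mul_mem hc (hNH h1)
  set p : ℕ → H × H := fun n => (⟨(f n)⁻¹ * a * f n, hmem _ _ (hKH haK) (hf1 n).1⟩,
    ⟨(f n)⁻¹ * b * f n, hmem _ _ (hKH hbK) (hf1 n).2⟩) with hp
  have conj2 : ∀ y c : G, c * c = 1 → (y⁻¹ * c * y) ^ 2 = 1 := by
    intro y c hc
    calc (y⁻¹ * c * y) ^ 2 = y⁻¹ * (c * c) * y := by rw [pow_two]; group
      _ = 1 := by rw [hc]; group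
  have conjc : ∀ y : G, (y⁻¹ * a * y) * (y⁻¹ * b * y) = (y⁻¹ * b * y) * (y⁻¹ * a * y) := by
    intro y
    calc (y⁻¹ * a * y) * (y⁻¹ * b * y) = y⁻¹ * (a * b) * y := by group
      _ = y⁻¹ * (b * a) * y := by rw [hab]
      _ = _ := by group
  obtain ⟨S, hS, haS, hbS, hconj⟩ := syl H hHLF ⟨a, hKH haK⟩ ⟨b, hKH hbK⟩
    (Subtype.ext (by simpa using ha)) (Subtype.ext (by simpa using hb)) (Subtype.ext hab) p
    (fun n => ⟨Subtype.ext (by simpa [hp] using conj2 (f n) a haa),
      Subtype.ext (by simpa [hp] using conj2 (f n) b hbb), Subtype.ext (conjc (f n))⟩)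
  have hSp : IsPGroup 2 S := by
    intro x
    obtain ⟨k, hk⟩ := hS x.1 x.2
    exact ⟨k, Subtype.ext (by simpa using hk)⟩
  have hfinS : {x : S | x * ⟨⟨a, hKH haK⟩, haS⟩ = ⟨⟨a, hKH haK⟩, haS⟩ * x ∧
      x * ⟨⟨b, hKH hbK⟩, hbS⟩ = ⟨⟨b, hKH hbK⟩, hbS⟩ * x}.Finite := by
    have h1 : Function.Injective (fun x : S => (x.1.1 : G)) := by
      intro x y hxy
      exact Subtype.ext (Subtype.ext hxy)
    refine (hfin.preimage (f := fun x : S => (x.1.1 : G)) h1.injOn).subset ?_
    rintro x ⟨e1, e2⟩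
    exact ⟨congrArg (fun z : S => (z.1.1 : G)) e1, congrArg (fun z : S => (z.1.1 : G)) e2⟩
  have hchs : Chs (⊤ : Subgroup S) :=
    rr S hSp (fr_sub hHLF S) ⟨⟨a, hKH haK⟩, haS⟩ ⟨⟨b, hKH hbK⟩, hbS⟩
      (Subtype.ext (Subtype.ext (by simpa using ha)))
      (Subtype.ext (Subtype.ext (by simpa using hb)))
      (Subtype.ext (Subtype.ext hab)) hfinS
  obtain ⟨F, hFfin, -, hF⟩ := prc S hSp ⊤ hchs
  -- choose the conjugating elements
  have key : ∀ n : ℕ, ∃ q : S × S, q ∈ F ∧ ∃ h : H,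
      (p n).1 = h⁻¹ * q.1.1 * h ∧ (p n).2 = h⁻¹ * q.2.1 * h := by
    intro n
    obtain ⟨h, h1, h2⟩ := hconj n
    have e0 : (p n).1 * (p n).1 = 1 := by
      have := conj2 (f n) a haa
      rw [pow_two] at this
      exact Subtype.ext this
    have e0' : (p n).2 * (p n).2 = 1 := by
      have := conj2 (f n) b hbb
      rw [pow_two] at this
      exact Subtype.ext this
    have e0'' : (p n).1 * (p n).2 = (p n).2 * (p n).1 := Subtype.ext (conjc (f n))
    obtain ⟨q, hq, x, -, e1, e2⟩ := hF ⟨h⁻¹ * (p n).1 * h, h1⟩ (Subgroup.mem_top _)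
      ⟨h⁻¹ * (p n).2 * h, h2⟩ (Subgroup.mem_top _) (by
        apply Subtype.ext
        change (h⁻¹ * (p n).1 * h) ^ 2 = 1
        calc (h⁻¹ * (p n).1 * h) ^ 2 = h⁻¹ * ((p n).1 * (p n).1) * h := by rw [pow_two]; group
          _ = 1 := by rw [e0]; group) (by
        apply Subtype.ext
        change (h⁻¹ * (p n).2 * h) ^ 2 = 1
        calc (h⁻¹ * (p n).2 * h) ^ 2 = h⁻¹ * ((p n).2 * (p n).2) * h := by rw [pow_two]; group
          _ = 1 := by rw [e0']; group) (by
        apply Subtype.ext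
        change (h⁻¹ * (p n).1 * h) * (h⁻¹ * (p n).2 * h) =
          (h⁻¹ * (p n).2 * h) * (h⁻¹ * (p n).1 * h)
        calc (h⁻¹ * (p n).1 * h) * (h⁻¹ * (p n).2 * h) = h⁻¹ * ((p n).1 * (p n).2) * h := by group
          _ = h⁻¹ * ((p n).2 * (p n).1) * h := by rw [e0'']
          _ = _ := by group)
    have e1' : h⁻¹ * (p n).1 * h = (x.1)⁻¹ * q.1.1 * x.1 := congrArg Subtype.val e1
    have e2' : h⁻¹ * (p n).2 * h = (x.1)⁻¹ * q.2.1 * x.1 := congrArg Subtype.val e2
    refine ⟨q, hq, x.1 * h⁻¹, ?_, ?_⟩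
    · calc (p n).1 = h * (h⁻¹ * (p n).1 * h) * h⁻¹ := by group
        _ = _ := by rw [e1']; group
    · calc (p n).2 = h * (h⁻¹ * (p n).2 * h) * h⁻¹ := by group
        _ = _ := by rw [e2']; group
  choose q hq h hh1 hh2 using key
  obtain ⟨m, n, hmn, e⟩ := hFfin.exists_lt_map_eq_of_forall_mem hq
  refine hf2 m n hmn ((h m)⁻¹ * h n : H) (SetLike.coe_mem _) ⟨?_, ?_⟩
  · have e1 : ((h m)⁻¹ * h n)⁻¹ * (p m).1 * ((h m)⁻¹ * h n) = (p n).1 := by
      rw [hh1 m, hh1 n, e]; group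
    exact congrArg Subtype.val e1
  · have e1 : ((h m)⁻¹ * h n)⁻¹ * (p m).2 * ((h m)⁻¹ * h n) = (p n).2 := by
      rw [hh2 m, hh2 n, e]; group
    exact congrArg Subtype.val e1

end Pool.Agent.FourGp.SR
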