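import Pool.Agent.Lib.MP_fb3619_al.SR.Iface

/-!
# MP_fb3619_al, board SR, row LFC: local finiteness
-/

set_option autoImplicit false

universe u

namespace Pool.Agent.FourGp.SR

open Pool.Agent.FourGp.H99 (LF)

/-- An abelian 2-group is locally finite. -/
theorem lfc_ab {A : Type u} [Group A] (hA : IsPGroup 2 A) (hc : ∀ x y : A, x * y = y * x) :
    LF A := by
  refine H99.LF_of_fc ?_ ?_
  · intro g
    obtain ⟨k, hk⟩ := hA g
    exact ⟨2 ^ k, pow_pos (by norm_num) k, hk⟩
  · intro x
    have h1 : (Subgroup.centralizer {x} : Subgroup A) = ⊤ := by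
      rw [eq_top_iff]
      intro y _
      rw [Subgroup.mem_centralizer_singleton_iff]
      exact hc y x
    rw [h1]
    infer_instance

/-- Row LFC. -/
theorem lfc : LfcS := by
  intro G _ hG X hX Y hY hfg
  obtain ⟨A, _, _, hAi, hAc, _⟩ := hX
  have h1 : A.relIndex Y ≠ 0 := by
    intro h
    exact hAi (Subgroup.relIndex_eq_zero_of_le_right hY h)
  have h2 : (A.subgroupOf Y).FiniteIndex := ⟨h1⟩
  have h3 : Group.FG Y := (Group.fg_iff_subgroup_fg Y).2 hfg
  refine H99.finite_core (A.subgroupOf Y) (A := A) ((Y.subtype.comp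
    (A.subgroupOf Y).subtype).codRestrict A ?_) ?_ (lfc_ab (hG.to_subgroup A) ?_)
  · intro x; exact x.2
  · intro x y hxy
    have := congrArg (fun z : A => (z : G)) hxy
    exact Subtype.ext (Subtype.ext this)
  · intro x y
    exact Subtype.ext (hAc x.1 x.2 y.1 y.2)

end Pool.Agent.FourGp.SR
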