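import Pool.Agent.Lib.MP_fb3619_al.SR.Iface

/-!
# MP_fb3619_al, board SR, row MLF
-/

set_option autoImplicit false

universe u

namespace Pool.Agent.FourGp.SR

open Pool.Agent.FourGp.H99 (LF)

/-- Local finiteness of a subgroup, without subtypes. -/
theorem mlf_iff {G : Type u} [Group G] (X : Subgroup G) :
    LF X ↔ ∀ S ≤ X, S.FG → Finite S := by
  constructor
  · intro h S hS hfg
    have h1 : Group.FG S := (Group.fg_iff_subgroup_fg S).2 hfg
    let e := Subgroup.subgroupOfEquivOfLe hS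
    have h2 : Group.FG (S.subgroupOf X) :=
      Group.fg_of_surjective (f := e.symm.toMonoidHom) e.symm.surjective
    have h3 : Finite (S.subgroupOf X) := h _ ((Group.fg_iff_subgroup_fg _).1 h2)
    exact Finite.of_equiv _ e.toEquiv
  · intro h S hS
    have h1 : Group.FG S := (Group.fg_iff_subgroup_fg S).2 hS
    let e := S.equivMapOfInjective X.subtype X.subtype_injective
    have h2 : Group.FG (S.map X.subtype) :=
      Group.fg_of_surjective (f := e.toMonoidHom) e.surjective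
    have h3 : S.map X.subtype ≤ X := by
      rintro y ⟨z, _, rfl⟩
      exact z.2
    have h4 : Finite (S.map X.subtype) := h _ h3 ((Group.fg_iff_subgroup_fg _).1 h2)
    exact Finite.of_equiv _ e.symm.toEquiv

/-- Extensions, without subtypes. -/
theorem mlf_ext {G : Type u} [Group G] {M N : Subgroup G} (hM : ∀ S ≤ M, S.FG → Finite S)
    (hMN : M.relIndex N ≠ 0) : ∀ S ≤ N, S.FG → Finite S := by
  intro S hS hfg
  have h1 : M.relIndex S ≠ 0 := fun h => hMN (Subgroup.relIndex_eq_zero_of_le_right hS h)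
  have : Group.FG S := (Group.fg_iff_subgroup_fg S).2 hfg
  have : (M.subgroupOf S).FiniteIndex := ⟨h1⟩
  have h2 : Group.FG (M.subgroupOf S) := inferInstance
  let e := (M.subgroupOf S).equivMapOfInjective S.subtype S.subtype_injective
  have h3 : Group.FG ((M.subgroupOf S).map S.subtype) :=
    Group.fg_of_surjective (f := e.toMonoidHom) e.surjective
  have h4 : (M.subgroupOf S).map S.subtype ≤ M := by
    rintro x ⟨y, hy, rfl⟩
    exact Subgroup.mem_subgroupOf.1 hy
  have h5 : Finite ((M.subgroupOf S).map S.subtype) := hM _ h4 ((Group.fg_iff_subgroup_fg _).1 h3)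
  have h6 : Finite (M.subgroupOf S) := Finite.of_equiv _ e.symm.toEquiv
  exact H99.finite_of_index (M.subgroupOf S)

/-- The union of a chain. -/
theorem mlf_sup {G : Type u} [Group G] (c : Set (Subgroup G)) (hc : IsChain (· ≤ ·) c)
    (hne : c.Nonempty) (h : ∀ M ∈ c, ∀ S ≤ M, S.FG → Finite S) :
    ∀ S ≤ sSup c, S.FG → Finite S := by
  classical
  intro S hS hfg
  obtain ⟨s, rfl⟩ := hfg
  have key : ∀ t : Finset G, (∀ x ∈ t, x ∈ sSup c) → ∃ M ∈ c, ∀ x ∈ t, x ∈ M := by
    intro t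
    induction t using Finset.induction_on with
    | empty =>
      intro _
      obtain ⟨M, hM⟩ := hne
      exact ⟨M, hM, by simp⟩
    | insert a t ha ih =>
      intro ht
      obtain ⟨M, hM, h1⟩ := ih (fun x hx => ht x (Finset.mem_insert_of_mem hx))
      obtain ⟨N, hN, h2⟩ := (Subgroup.mem_sSup_of_directedOn hne hc.directedOn).1
        (ht a (Finset.mem_insert_self a t))
      rcases hc.total hM hN with h3 | h3
      · refine ⟨N, hN, fun x hx => ?_⟩
        rcases Finset.mem_insert.1 hx with rfl | hx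
        · exact h2
        · exact h3 (h1 x hx)
      · refine ⟨M, hM, fun x hx => ?_⟩
        rcases Finset.mem_insert.1 hx with rfl | hx
        · exact h3 h2
        · exact h1 x hx
  obtain ⟨M, hM, h1⟩ := key s (fun x hx => hS (Subgroup.subset_closure hx))
  exact h M hM _ ((Subgroup.closure_le _).2 h1) ⟨s, rfl⟩

/-- A subgroup has finite index in the subgroup generated by it and an element of finite order
which normalizes it. -/
theorem mlf_index {G : Type u} [Group G] (T : Subgroup G) (x : G) (hx : Nm T x)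
    (hn : ∃ n : ℕ, 0 < n ∧ x ^ n = 1) :
    ∃ N : Subgroup G, T ≤ N ∧ x ∈ N ∧ T.relIndex N ≠ 0 := by
  have hN : ∀ k : ℤ, ∀ t : G, t ∈ T ↔ (x ^ k)⁻¹ * t * x ^ k ∈ T := by
    intro k
    induction k using Int.induction_on with
    | zero => intro t; simp
    | succ k ih =>
      intro t
      rw [ih t, hx]
      have : x⁻¹ * ((x ^ (k : ℤ))⁻¹ * t * x ^ (k : ℤ)) * x =
          (x ^ ((k : ℤ) + 1))⁻¹ * t * x ^ ((k : ℤ) + 1) := by
        rw [zpow_add_one]; group
      rw [this]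
    | pred k ih =>
      intro t
      rw [ih t, hx ((x ^ (-(k : ℤ) - 1))⁻¹ * t * x ^ (-(k : ℤ) - 1))]
      have : x⁻¹ * ((x ^ (-(k : ℤ) - 1))⁻¹ * t * x ^ (-(k : ℤ) - 1)) * x =
          (x ^ (-(k : ℤ)))⁻¹ * t * x ^ (-(k : ℤ)) := by
        rw [zpow_sub_one]; group
      rw [this]
  let N : Subgroup G :=
    { carrier := {g | ∃ k : ℤ, (x ^ k)⁻¹ * g ∈ T}
      one_mem' := ⟨0, by simp⟩
      mul_mem' := by
        rintro g g' ⟨k, hk⟩ ⟨l, hl⟩
        refine ⟨k + l, ?_⟩
        have h1 := (hN l _).1 hk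
        have h2 := T.mul_mem h1 hl
        have : (x ^ l)⁻¹ * ((x ^ k)⁻¹ * g) * x ^ l * ((x ^ l)⁻¹ * g') =
            (x ^ (k + l))⁻¹ * (g * g') := by
          rw [zpow_add, mul_inv_rev]; group
        rwa [this] at h2
      inv_mem' := by
        rintro g ⟨k, hk⟩
        refine ⟨-k, ?_⟩
        have h1 := (hN (-k) _).1 (T.inv_mem hk)
        have : (x ^ (-k))⁻¹ * ((x ^ k)⁻¹ * g)⁻¹ * x ^ (-k) = (x ^ (-k))⁻¹ * g⁻¹ := by
          rw [mul_inv_rev, inv_inv, zpow_neg]; group
        rwa [this] at h1 }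
  refine ⟨N, fun t ht => ⟨0, by simpa using ht⟩, ⟨1, by simp⟩, ?_⟩
  obtain ⟨n, hn0, hn1⟩ := hn
  have hxN : ∀ k : ℕ, x ^ k ∈ N := fun k => ⟨k, by simp⟩
  have hfin : Finite (N ⧸ T.subgroupOf N) := by
    refine Finite.of_surjective
      (fun k : Fin n => (QuotientGroup.mk (⟨x ^ (k : ℕ), hxN k⟩ : N) : N ⧸ T.subgroupOf N)) ?_
    intro q
    obtain ⟨g, rfl⟩ := QuotientGroup.mk_surjective q
    obtain ⟨k, hk⟩ := g.2
    have h0 : 0 ≤ k % (n : ℤ) := Int.emod_nonneg _ (by omega)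
    have h1 : k % (n : ℤ) < n := Int.emod_lt_of_pos _ (by omega)
    refine ⟨⟨(k % (n : ℤ)).toNat, by omega⟩, ?_⟩
    rw [QuotientGroup.eq]
    rw [Subgroup.mem_subgroupOf]
    have h2 : x ^ ((k % (n : ℤ)).toNat) = x ^ k := by
      have h3 : x ^ (((k % (n : ℤ)).toNat : ℕ) : ℤ) = x ^ k := by
        rw [Int.toNat_of_nonneg h0]
        conv_rhs => rw [← Int.emod_add_mul_ediv k n]
        rw [zpow_add, zpow_mul, zpow_natCast x n, hn1, one_zpow, mul_one]
      rwa [zpow_natCast] at h3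
    have h4 : ((((⟨x ^ (k % (n : ℤ)).toNat, hxN _⟩ : N))⁻¹ * g : N) : G) = (x ^ k)⁻¹ * g.1 := by
      change (x ^ (k % (n : ℤ)).toNat)⁻¹ * g.1 = _
      rw [h2]
    exact h4 ▸ hk
  exact Subgroup.index_ne_zero_of_finite

theorem mlf : MlfS.{u} := by
  intro G _ hG X hX
  obtain ⟨T, hXT, hT⟩ := zorn_le_nonempty₀ {M : Subgroup G | ∀ S ≤ M, S.FG → Finite S}
    (fun c hc hch y hy => ⟨sSup c, mlf_sup c hch ⟨y, hy⟩ (fun M hM => hc hM),
      fun z hz => le_sSup hz⟩) X ((mlf_iff X).1 hX)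
  refine ⟨T, hXT, (mlf_iff T).2 hT.prop, ?_⟩
  intro x hx
  obtain ⟨N, hTN, hxN, hi⟩ := mlf_index T x hx (hG x)
  exact hT.le_of_ge (mlf_ext hT.prop hi) hTN hxN

end Pool.Agent.FourGp.SR
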