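import Pool.Agent.Lib.MP_fb3619_al.SR.Iface

/-!
# MP_fb3619_al, board SR, row NRM: the normalizer condition
-/

set_option autoImplicit false

universe u

namespace Pool.Agent.FourGp.SR

open MulAction

theorem nm_iff_cj {G : Type u} [Group G] {P : Subgroup G} {x y : G} (hx : Nm P x) (hy : Nm P y) :
    Nm P (x * y) := by
  rw [← cj_eq_iff] at hx hy ⊢
  rw [← cj_cj, hx, hy]

theorem nm_one {G : Type u} [Group G] {P : Subgroup G} : Nm P 1 := by
  intro y
  have : (1 : G)⁻¹ * y * 1 = y := by group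
  rw [this]

theorem nm_pow {G : Type u} [Group G] {P : Subgroup G} {x : G} (hx : Nm P x) (n : ℕ) :
    Nm P (x ^ n) := by
  induction n with
  | zero => rw [pow_zero]; exact nm_one
  | succ n ih => rw [pow_succ]; exact nm_iff_cj ih hx

/-- An element of finite order which conjugates `P` into itself normalizes `P`. -/
theorem nm_of_le {G : Type u} [Group G] {P : Subgroup G} {x : G} {n : ℕ} (hn : 0 < n)
    (hxn : x ^ n = 1) (h : ∀ y ∈ P, x⁻¹ * y * x ∈ P) : Nm P x := by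
  have h1 : ∀ j : ℕ, ∀ y ∈ P, (x ^ j)⁻¹ * y * x ^ j ∈ P := by
    intro j
    induction j with
    | zero => intro y hy; simpa using hy
    | succ j ih =>
      intro y hy
      have e : (x ^ (j + 1))⁻¹ * y * x ^ (j + 1) = x⁻¹ * ((x ^ j)⁻¹ * y * x ^ j) * x := by
        rw [pow_succ]; group
      rw [e]
      exact h _ (ih y hy)
  intro y
  refine ⟨h y, fun hy => ?_⟩
  have h2 := h1 (n - 1) _ hy
  have e1 : x ^ (n - 1) = x⁻¹ := by
    have e2 : x ^ (n - 1) * x = 1 := by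
      rw [← pow_succ, Nat.sub_add_cancel hn, hxn]
    exact eq_inv_of_mul_eq_one_left e2
  rw [e1] at h2
  have e3 : x⁻¹⁻¹ * (x⁻¹ * y * x) * x⁻¹ = y := by group
  rw [e3] at h2
  exact h2

/-- The fixed point argument. -/
theorem nrm_core {G : Type u} [Group G] (hG : IsPGroup 2 G) (P B : Subgroup G)
    (hB : ∀ p ∈ P, ∀ b ∈ B, p * b * p⁻¹ ∈ B) (hf : (orbit B ((1 : G) : G ⧸ P)).Finite)
    (hne : ¬ B ≤ P) : ∃ b ∈ B, b ∉ P ∧ ∀ p ∈ P, b⁻¹ * p * b ∈ P := by
  classical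
  have hfact : Fact (Nat.Prime 2) := ⟨Nat.prime_two⟩
  set O : Set (G ⧸ P) := orbit B ((1 : G) : G ⧸ P) with hO
  have hmem : ∀ q : G ⧸ P, q ∈ O ↔ ∃ b ∈ B, q = ((b : G) : G ⧸ P) := by
    intro q
    constructor
    · rintro ⟨b, rfl⟩
      refine ⟨b.1, b.2, ?_⟩
      show ((b.1 * 1 : G) : G ⧸ P) = _
      rw [mul_one]
    · rintro ⟨b, hb, rfl⟩
      refine ⟨⟨b, hb⟩, ?_⟩
      show ((b * 1 : G) : G ⧸ P) = _
      rw [mul_one]
  have hst : ∀ (p : P) (q : G ⧸ P), q ∈ O → (p : G) • q ∈ O := by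
    intro p q hq
    obtain ⟨b, hb, rfl⟩ := (hmem q).1 hq
    rw [hmem]
    refine ⟨p.1 * b * p.1⁻¹, hB _ p.2 b hb, ?_⟩
    show ((p.1 * b : G) : G ⧸ P) = _
    rw [QuotientGroup.eq]
    have e : (p.1 * b)⁻¹ * (p.1 * b * p.1⁻¹) = p.1⁻¹ := by group
    rw [e]
    exact P.inv_mem p.2
  let inst : MulAction P O :=
    { smul := fun p q => ⟨(p : G) • q.1, hst p q.1 q.2⟩
      one_smul := by
        intro q
        apply Subtype.ext
        show (1 : G) • q.1 = q.1
        exact one_smul _ _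
      mul_smul := by
        intro p p' q
        apply Subtype.ext
        show ((p : G) * (p' : G)) • q.1 = (p : G) • ((p' : G) • q.1)
        exact mul_smul _ _ _ }
  have hfin : Finite O := hf
  have hPp : IsPGroup 2 P := hG.to_subgroup P
  have hBp : IsPGroup 2 B := hG.to_subgroup B
  obtain ⟨b0, hb0, hb0P⟩ : ∃ b ∈ B, b ∉ P := by
    by_contra hc
    push Not at hc
    exact hne hc
  have h1O : ((1 : G) : G ⧸ P) ∈ O := (hmem _).2 ⟨1, B.one_mem, rfl⟩
  have hb0O : ((b0 : G) : G ⧸ P) ∈ O := (hmem _).2 ⟨b0, hb0, rfl⟩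
  have hdvd : 2 ∣ Nat.card O := by
    obtain ⟨n, hn⟩ := hBp.card_orbit ((1 : G) : G ⧸ P)
    have hn' : Nat.card O = 2 ^ n := hn
    rw [hn']
    rcases Nat.eq_zero_or_pos n with h0 | h0
    · exfalso
      rw [h0, pow_zero] at hn'
      have hs : Subsingleton O := (Nat.card_eq_one_iff_unique.1 hn').1
      have h2 := hs.elim ⟨_, h1O⟩ ⟨_, hb0O⟩
      have h3 : ((1 : G) : G ⧸ P) = ((b0 : G) : G ⧸ P) := congrArg Subtype.val h2
      rw [QuotientGroup.eq, inv_one, one_mul] at h3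
      exact hb0P h3
    · exact dvd_pow_self 2 h0.ne'
  have h1fix : (⟨_, h1O⟩ : O) ∈ fixedPoints P O := by
    intro p
    apply Subtype.ext
    show ((p.1 * 1 : G) : G ⧸ P) = ((1 : G) : G ⧸ P)
    rw [QuotientGroup.eq]
    have e : (p.1 * 1)⁻¹ * 1 = p.1⁻¹ := by group
    rw [e]
    exact P.inv_mem p.2
  obtain ⟨q, hq, hne'⟩ := hPp.exists_fixed_point_of_prime_dvd_card_of_fixed_point O hdvd h1fix
  obtain ⟨b, hb, hqb⟩ := (hmem q.1).1 q.2
  refine ⟨b, hb, ?_, ?_⟩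
  · intro hbP
    apply hne'
    apply Subtype.ext
    show ((1 : G) : G ⧸ P) = q.1
    rw [hqb, QuotientGroup.eq, inv_one, one_mul]
    exact hbP
  · intro p hp
    have h4 : (⟨p, hp⟩ : P) • q = q := hq ⟨p, hp⟩
    have h5 : p • q.1 = q.1 := congrArg Subtype.val h4
    rw [hqb] at h5
    have h6 : ((p * b : G) : G ⧸ P) = ((b : G) : G ⧸ P) := h5
    have h7 := QuotientGroup.eq.1 h6.symm
    rw [← mul_assoc] at h7
    exact h7

/-- The elements of `A` of order dividing `2 ^ k` are finite in number. -/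
theorem nrm_fin {G : Type u} [Group G] {A : Subgroup G} (hc : ∀ x ∈ A, ∀ y ∈ A, x * y = y * x)
    (hA : {x : G | x ∈ A ∧ x ^ 2 = 1}.Finite) (k : ℕ) :
    {x : G | x ∈ A ∧ x ^ 2 ^ k = 1}.Finite := by
  induction k with
  | zero =>
    refine (Set.finite_singleton (1 : G)).subset ?_
    rintro x ⟨-, hx⟩
    rw [pow_zero, pow_one] at hx
    exact hx
  | succ k ih =>
    refine Set.Finite.of_finite_fibers (fun x => x ^ 2) (ih.subset ?_) ?_
    · rintro _ ⟨x, ⟨hx, hxk⟩, rfl⟩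
      refine ⟨A.pow_mem hx 2, ?_⟩
      show (x ^ 2) ^ 2 ^ k = 1
      rw [← pow_mul, ← pow_succ']
      exact hxk
    · rintro _ ⟨x0, ⟨hx0, -⟩, rfl⟩
      refine (hA.image fun e => x0 * e).subset ?_
      rintro x ⟨⟨hx, -⟩, hxx⟩
      have hxx' : x ^ 2 = x0 ^ 2 := hxx
      refine ⟨x0⁻¹ * x, ⟨A.mul_mem (A.inv_mem hx0) hx, ?_⟩, by group⟩
      have hcm : Commute x0⁻¹ x := hc _ (A.inv_mem hx0) _ hx
      rw [hcm.mul_pow, hxx', inv_pow, inv_mul_cancel]

/-- Row NRM. -/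
theorem nrm : NrmS.{u} := by
  classical
  intro G _ hG X P hX hPX hne
  obtain ⟨A, hAX, hAn, hAi, hAc, hA2⟩ := hX
  -- an element outside `P` which normalizes `P`
  have key : ∃ x ∈ X, x ∉ P ∧ Nm P x := by
    have fin : ∀ B : Subgroup G, B ≤ X → (∀ p ∈ P, ∀ b ∈ B, p * b * p⁻¹ ∈ B) →
        (orbit B ((1 : G) : G ⧸ P)).Finite → ¬ B ≤ P → ∃ x ∈ X, x ∉ P ∧ Nm P x := by
      intro B hBX h1 h2 h3
      obtain ⟨b, hb, hbP, h4⟩ := nrm_core hG P B h1 h2 h3
      obtain ⟨k, hk⟩ := hG b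
      exact ⟨b, hBX hb, hbP, nm_of_le (pow_pos (by norm_num) k) hk h4⟩
    by_cases hAP : A ≤ P
    · refine fin X le_rfl (fun p hp b hb => X.mul_mem (X.mul_mem (hPX hp) hb)
        (X.inv_mem (hPX hp))) ?_ (fun h => hne (le_antisymm hPX h))
      have h1 : P.relIndex X ≠ 0 := fun h0 => by
        have := Subgroup.relIndex_dvd_of_le_left X hAP
        rw [h0, zero_dvd_iff] at this
        exact hAi this
      have h2 : stabilizer X ((1 : G) : G ⧸ P) = P.subgroupOf X := by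
        ext x
        rw [mem_stabilizer_iff, Subgroup.mem_subgroupOf]
        have e : (x • ((1 : G) : G ⧸ P)) = (((x : G) * 1 : G) : G ⧸ P) := rfl
        rw [e, mul_one, eq_comm, QuotientGroup.eq, inv_one, one_mul]
      have h3 : (P.subgroupOf X).FiniteIndex := ⟨h1⟩
      rw [← h2] at h3
      have h4 : Finite (X ⧸ stabilizer X ((1 : G) : G ⧸ P)) := inferInstance
      exact Set.finite_coe_iff.1 (Finite.of_equiv _ (orbitEquivQuotientStabilizer X
        ((1 : G) : G ⧸ P)).symm)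
    · obtain ⟨y, hyA, hyP⟩ : ∃ y ∈ A, y ∉ P := by
        by_contra hc
        push Not at hc
        exact hAP hc
      obtain ⟨k, hk⟩ := hG y
      let Ak : Subgroup G :=
        { carrier := {x : G | x ∈ A ∧ x ^ 2 ^ k = 1}
          mul_mem' := by
            rintro a b ⟨ha, ha'⟩ ⟨hb, hb'⟩
            refine ⟨A.mul_mem ha hb, ?_⟩
            have hcm : Commute a b := hAc a ha b hb
            rw [hcm.mul_pow, ha', hb', one_mul]
          one_mem' := ⟨A.one_mem, one_pow _⟩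
          inv_mem' := by
            rintro a ⟨ha, ha'⟩
            exact ⟨A.inv_mem ha, by rw [inv_pow, ha', inv_one]⟩ }
      have hAkf : Finite Ak := (nrm_fin hAc hA2 k)
      refine fin Ak (fun x hx => hAX hx.1) ?_ ?_ (fun h => hyP (h ⟨hyA, hk⟩))
      · rintro p hp b ⟨hb, hb'⟩
        refine ⟨?_, ?_⟩
        · have := hAn p⁻¹ (X.inv_mem (hPX hp)) b hb
          rw [inv_inv] at this
          exact this
        · rw [conj_pow, hb', mul_one, mul_inv_cancel]
      · exact Set.finite_range _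
  obtain ⟨x, hxX, hxP, hxN⟩ := key
  obtain ⟨k, hk⟩ := hG x
  have hex : ∃ j : ℕ, x ^ 2 ^ j ∈ P := ⟨k, by rw [hk]; exact P.one_mem⟩
  have hj := Nat.find_spec hex
  have hm : Nat.find hex ≠ 0 := by
    intro h0
    rw [h0, pow_zero, pow_one] at hj
    exact hxP hj
  obtain ⟨j, hj'⟩ := Nat.exists_eq_succ_of_ne_zero hm
  refine ⟨x ^ 2 ^ j, X.pow_mem hxX _, ?_, ?_, nm_pow hxN _⟩
  · exact Nat.find_min hex (by omega)
  · rw [hj'] at hj
    rw [← pow_mul, ← pow_succ]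
    exact hj

end Pool.Agent.FourGp.SR
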