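import Pool.Agent.Lib.MP_fb3619_al.SR.Iface

/-!
# MP_fb3619_al, board SR: row OME (`B[2]` is finite)
-/

set_option autoImplicit false

universe u

namespace Pool.Agent.FourGp.SR

namespace Ome

/-- An abelian set of exponent 2, normalized by an element `c` of square 1, with finitely many
elements commuting with `c`, is finite. -/
theorem fin_step {G : Type u} [Group G] (E : Set G) (c : G) (hc : c * c = 1)
    (hmul : ∀ x ∈ E, ∀ y ∈ E, x * y ∈ E) (hcomm : ∀ x ∈ E, ∀ y ∈ E, x * y = y * x)
    (hsq : ∀ x ∈ E, x * x = 1) (hcj : ∀ x ∈ E, c * x * c ∈ E)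
    (h : {x : G | x ∈ E ∧ x * c = c * x}.Finite) : E.Finite := by
  have hfib : ∀ y : G, {e : G | e ∈ E ∧ e * (c * e * c) = y}.Finite := by
    intro y
    by_cases hne : ∃ e' : G, e' ∈ E ∧ e' * (c * e' * c) = y
    · obtain ⟨e', he', hy'⟩ := hne
      refine (h.image (fun d => e' * d)).subset ?_
      rintro e ⟨he, hy⟩
      refine ⟨e' * e, ⟨hmul _ he' _ he, ?_⟩, ?_⟩
      · have hd : e' * e ∈ E := hmul _ he' _ he
        have hf : e * (c * e * c) ∈ E := hmul _ he _ (hcj _ he)
        have h1 : (e' * e) * (c * (e' * e) * c) = 1 := by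
          have e1 : (e' * e) * (c * (e' * e) * c) = e' * (e * (c * e' * c)) * (c * e * c) := by
            have : c * (e' * e) * c = c * e' * (c * c) * e * c := by rw [hc]; group
            rw [this]
            group
          rw [e1, hcomm e he _ (hcj _ he')]
          have e2 : e' * (c * e' * c * e) * (c * e * c) =
              (e' * (c * e' * c)) * (e * (c * e * c)) := by group
          rw [e2, hy', ← hy]
          exact hsq _ hf
        have h2 : c * (e' * e) * c = e' * e := by
          have h3 : (e' * e) * ((e' * e) * (c * (e' * e) * c)) = (e' * e) * 1 := by rw [h1]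
          rw [← mul_assoc, hsq _ hd, one_mul, mul_one] at h3
          exact h3
        calc e' * e * c = c * (e' * e) * c * c := by rw [h2]
          _ = c * (e' * e) * (c * c) := by group
          _ = c * (e' * e) := by rw [hc, mul_one]
      · change e' * (e' * e) = e
        rw [← mul_assoc, hsq _ he', one_mul]
    · refine Set.Finite.subset Set.finite_empty ?_
      rintro e ⟨he, hy⟩
      exact hne ⟨e, he, hy⟩
  refine (h.biUnion (fun y _ => hfib y)).subset ?_
  intro e he
  have hf : e * (c * e * c) ∈ E := hmul _ he _ (hcj _ he)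
  refine Set.mem_biUnion (show e * (c * e * c) ∈ {x : G | x ∈ E ∧ x * c = c * x} from ⟨hf, ?_⟩)
    ⟨he, rfl⟩
  calc e * (c * e * c) * c = e * c * e * (c * c) := by group
    _ = e * c * e := by rw [hc, mul_one]
    _ = (c * c) * e * c * e := by rw [hc, one_mul]
    _ = c * ((c * e * c) * e) := by group
    _ = c * (e * (c * e * c)) := by rw [hcomm e he _ (hcj _ he)]

end Ome

/-- Row OME. -/
theorem ome : OmeS.{u} := by
  intro G _ B hB hBc a b ha hb hab hfin
  have ha' : a * a = 1 := by rw [← pow_two]; exact ha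
  have hb' : b * b = 1 := by rw [← pow_two]; exact hb
  have hai : a⁻¹ = a := inv_eq_of_mul_eq_one_right ha'
  have hbi : b⁻¹ = b := inv_eq_of_mul_eq_one_right hb'
  have hcja : ∀ x ∈ B, a * x * a ∈ B := by
    intro x hx
    have h := hB.conj_mem x hx a
    rwa [hai] at h
  have hcjb : ∀ x ∈ B, b * x * b ∈ B := by
    intro x hx
    have h := hB.conj_mem x hx b
    rwa [hbi] at h
  have hsq : ∀ c x : G, c * c = 1 → x ^ 2 = 1 → (c * x * c) ^ 2 = 1 := by
    intro c x hc hx
    have : (c * x * c) ^ 2 = c * x * (c * c) * x * c := by rw [pow_two]; group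
    rw [this, hc, mul_one]
    have : c * x * x * c = c * x ^ 2 * c := by rw [pow_two]; group
    rw [this, hx, mul_one, hc]
  -- the elements commuting with `a`
  have h1 : {x : G | (x ∈ B ∧ x ^ 2 = 1) ∧ x * a = a * x}.Finite := by
    refine Ome.fin_step _ b hb' ?_ ?_ ?_ ?_ ?_
    · rintro x ⟨⟨hx, hx2⟩, hxa⟩ y ⟨⟨hy, hy2⟩, hya⟩
      refine ⟨⟨B.mul_mem hx hy, ?_⟩, ?_⟩
      · rw [(show Commute x y from hBc x hx y hy).mul_pow, hx2, hy2, mul_one]
      · rw [mul_assoc, hya, ← mul_assoc, hxa, mul_assoc]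
    · rintro x ⟨⟨hx, _⟩, _⟩ y ⟨⟨hy, _⟩, _⟩
      exact hBc x hx y hy
    · rintro x ⟨⟨_, hx2⟩, _⟩
      rw [← pow_two]
      exact hx2
    · rintro x ⟨⟨hx, hx2⟩, hxa⟩
      refine ⟨⟨hcjb x hx, hsq b x hb' hx2⟩, ?_⟩
      calc b * x * b * a = b * x * (a * b) := by rw [mul_assoc (b * x), ← hab]
        _ = b * (x * a) * b := by group
        _ = b * (a * x) * b := by rw [hxa]
        _ = (b * a) * x * b := by group
        _ = (a * b) * x * b := by rw [hab]
        _ = a * (b * x * b) := by group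
    · refine hfin.subset ?_
      rintro x ⟨⟨_, hxa⟩, hxb⟩
      exact ⟨hxa, hxb⟩
  refine Ome.fin_step _ a ha' ?_ ?_ ?_ ?_ ?_
  · rintro x ⟨hx, hx2⟩ y ⟨hy, hy2⟩
    refine ⟨B.mul_mem hx hy, ?_⟩
    rw [(show Commute x y from hBc x hx y hy).mul_pow, hx2, hy2, mul_one]
  · rintro x ⟨hx, _⟩ y ⟨hy, _⟩
    exact hBc x hx y hy
  · rintro x ⟨_, hx2⟩
    rw [← pow_two]
    exact hx2
  · rintro x ⟨hx, hx2⟩
    exact ⟨hcja x hx, hsq a x ha' hx2⟩
  · exact h1

end Pool.Agent.FourGp.SR
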