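import Pool.Agent.Lib.MP_fb3619_al.SR.Iface

/-!
# MP_fb3619_al, board SR: row PRS

Paper `SR/Paper.md` (0.5). `B` an abelian 2-group with finitely many elements of square one, `a`, `b`
commuting elements of square one normalizing `B`: the pairs `(a', b')` in `aB x bB` of commuting
elements of square one fall into finitely many `B`-classes.
-/

set_option autoImplicit false

universe u

namespace Pool.Agent.FourGp.SR

/-- The group of pairs `(x, y)` such that `(a x, b y)` is again a pair of commuting elements of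
square one. -/
def pairZ {B : Type u} [CommGroup B] (α β : B →* B) : Subgroup (B × B) where
  carrier := {z | α z.1 * z.1 = 1 ∧ β z.2 * z.2 = 1 ∧ β z.1 * z.2 = α z.2 * z.1}
  mul_mem' := by
    rintro ⟨x, y⟩ ⟨x', y'⟩ ⟨h1, h2, h3⟩ ⟨h1', h2', h3'⟩
    simp only [Set.mem_setOf_eq, Prod.fst_mul, Prod.snd_mul, map_mul] at *
    refine ⟨?_, ?_, ?_⟩
    · rw [mul_mul_mul_comm, h1, h1', mul_one]
    · rw [mul_mul_mul_comm, h2, h2', mul_one]
    · rw [mul_mul_mul_comm, h3, h3', mul_mul_mul_comm]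
  one_mem' := by simp
  inv_mem' := by
    rintro ⟨x, y⟩ ⟨h1, h2, h3⟩
    simp only [Set.mem_setOf_eq, Prod.fst_inv, Prod.snd_inv, map_inv] at *
    refine ⟨?_, ?_, ?_⟩
    · rw [← mul_inv, h1, inv_one]
    · rw [← mul_inv, h2, inv_one]
    · rw [← mul_inv, h3, mul_inv]

theorem mem_pairZ {B : Type u} [CommGroup B] {α β : B →* B} {z : B × B} :
    z ∈ pairZ α β ↔ α z.1 * z.1 = 1 ∧ β z.2 * z.2 = 1 ∧ β z.1 * z.2 = α z.2 * z.1 := Iff.rfl

/-- Fourth powers of members of `pairZ` are given by a conjugation. -/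
theorem pairZ_pow_four {B : Type u} [CommGroup B] {α β : B →* B}
    (hβ : ∀ x, β (β x) = x) (hαβ : ∀ x, α (β x) = β (α x))
    {z : B × B} (hz : z ∈ pairZ α β) :
    ∃ w : B, z.1 ^ 4 = (α w)⁻¹ * w ∧ z.2 ^ 4 = (β w)⁻¹ * w := by
  obtain ⟨x, y⟩ := z
  obtain ⟨h1, h2, h3⟩ := hz
  simp only at h1 h2 h3 ⊢
  have hx : α x = x⁻¹ := eq_inv_of_mul_eq_one_left h1
  have hy : β y = y⁻¹ := eq_inv_of_mul_eq_one_left h2
  have hay : α y = β x * y * x⁻¹ := by
    rw [h3]; simp
  refine ⟨x * y ^ 2 * β x, ?_, ?_⟩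
  · simp only [map_mul, map_pow, hαβ, hx, hay, map_inv]
    generalize β x = t
    simp only [mul_pow, inv_pow, mul_inv, inv_inv]
    have key : x ^ 4 = (x * ((t ^ 2)⁻¹ * (y ^ 2)⁻¹ * x ^ 2) * t) * (x * y ^ 2 * t) := by
      have h : (x * ((t ^ 2)⁻¹ * (y ^ 2)⁻¹ * x ^ 2) * t) * (x * y ^ 2 * t)
          = x ^ 4 * ((t ^ 2)⁻¹ * t ^ 2) * ((y ^ 2)⁻¹ * y ^ 2) := by
        simp only [pow_succ, pow_zero, one_mul]
        ac_rfl
      rw [h, inv_mul_cancel, inv_mul_cancel, mul_one, mul_one]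
    exact key
  · simp only [map_mul, map_pow, hβ, hy]
    generalize β x = t
    simp only [inv_pow, mul_inv, inv_inv]
    have h : t⁻¹ * y ^ 2 * x⁻¹ * (x * y ^ 2 * t) = y ^ 4 * (t⁻¹ * t) * (x⁻¹ * x) := by
      simp only [pow_succ, pow_zero, one_mul]
      ac_rfl
    rw [h, inv_mul_cancel, inv_mul_cancel, mul_one, mul_one]

/-- The statement for an abstract abelian group. -/
theorem pairZ_reps (ab2 : Ab2S.{u}) {B : Type u} [CommGroup B] (h2 : IsPGroup 2 B)
    (hfin : {z : B | z ^ 2 = 1}.Finite) (α β : B →* B)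
    (hβ : ∀ x, β (β x) = x) (hαβ : ∀ x, α (β x) = β (α x)) :
    ∃ F : Set (B × B), F.Finite ∧ ∀ z ∈ pairZ α β, ∃ p ∈ F, ∃ w : B,
      z.1 = p.1 * ((α w)⁻¹ * w) ∧ z.2 = p.2 * ((β w)⁻¹ * w) := by
  have hZ2 : IsPGroup 2 (pairZ α β) := by
    rintro ⟨⟨x, y⟩, hz⟩
    obtain ⟨k, hk⟩ := h2 x
    obtain ⟨l, hl⟩ := h2 y
    refine ⟨k + l, ?_⟩
    apply Subtype.ext
    apply Prod.ext
    · change x ^ 2 ^ (k + l) = 1
      rw [pow_add, pow_mul, hk, one_pow]
    · change y ^ 2 ^ (k + l) = 1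
      rw [pow_add, mul_comm (2 ^ k), pow_mul, hl, one_pow]
  have hZf : {z : pairZ α β | z ^ 2 = 1}.Finite := by
    apply Set.Finite.of_finite_image (f := fun z : pairZ α β => (z : B × B))
    · apply (hfin.prod hfin).subset
      rintro _ ⟨z, hz, rfl⟩
      have hz' : (z : B × B) ^ 2 = 1 := by
        have : z ^ 2 = 1 := hz
        rw [← Subgroup.coe_pow, this, Subgroup.coe_one]
      exact ⟨congrArg Prod.fst hz', congrArg Prod.snd hz'⟩
    · exact Set.injOn_of_injective Subtype.val_injective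
  have hfi := ab2 (pairZ α β) hZ2 hZf
  set R := (powMonoidHom 4 : pairZ α β →* pairZ α β).range with hR
  haveI : R.FiniteIndex := hfi
  haveI : Finite (pairZ α β ⧸ R) := Subgroup.finite_quotient_of_finiteIndex
  refine ⟨Set.range fun q : pairZ α β ⧸ R => ((Quotient.out q : pairZ α β) : B × B),
    Set.finite_range _, ?_⟩
  intro z hz
  obtain ⟨⟨h, hh⟩, hout⟩ := QuotientGroup.mk_out_eq_mul R (⟨z, hz⟩ : pairZ α β)
  obtain ⟨c, rfl⟩ : ∃ c : pairZ α β, c ^ 4 = h := by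
    obtain ⟨c, hc⟩ := hh
    exact ⟨c, hc⟩
  obtain ⟨w, hw1, hw2⟩ := pairZ_pow_four hβ hαβ (c⁻¹).2
  have hv : ((Quotient.out ((⟨z, hz⟩ : pairZ α β) : pairZ α β ⧸ R) : pairZ α β) : B × B)
      = z * (c : B × B) ^ 4 := by
    rw [hout]
    rfl
  have hi : ((c⁻¹ : pairZ α β) : B × B) = (c : B × B)⁻¹ := rfl
  refine ⟨_, ⟨((⟨z, hz⟩ : pairZ α β) : pairZ α β ⧸ R), rfl⟩, w, ?_, ?_⟩
  · change z.1 = ((Quotient.out ((⟨z, hz⟩ : pairZ α β) : pairZ α β ⧸ R) : pairZ α β) : B × B).1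
      * ((α w)⁻¹ * w)
    rw [← hw1, hv, hi, Prod.fst_mul, Prod.pow_fst, Prod.fst_inv, inv_pow, mul_inv_cancel_right]
  · change z.2 = ((Quotient.out ((⟨z, hz⟩ : pairZ α β) : pairZ α β ⧸ R) : pairZ α β) : B × B).2
      * ((β w)⁻¹ * w)
    rw [← hw2, hv, hi, Prod.snd_mul, Prod.pow_snd, Prod.snd_inv, inv_pow, mul_inv_cancel_right]

/-- PRS (0.5). -/
theorem prs (ab2 : Ab2S.{u}) : PrsS.{u} := by
  intro G _ B hcomm h2 hfin a b ha hb ha2 hb2 hab
  letI : CommGroup B := { (inferInstance : Group B) with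
    mul_comm := fun x y => Subtype.ext (hcomm x x.2 y y.2) }
  have ha' : a⁻¹ = a := inv_eq_of_mul_eq_one_left (by rw [← sq, ha2])
  have hb' : b⁻¹ = b := inv_eq_of_mul_eq_one_left (by rw [← sq, hb2])
  let α : B →* B :=
    { toFun := fun y => ⟨a⁻¹ * y * a, ha y y.2⟩
      map_one' := by apply Subtype.ext; simp
      map_mul' := by
        intro x y
        apply Subtype.ext
        simp only [Subgroup.coe_mul]
        group }
  let β : B →* B :=
    { toFun := fun y => ⟨b⁻¹ * y * b, hb y y.2⟩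
      map_one' := by apply Subtype.ext; simp
      map_mul' := by
        intro x y
        apply Subtype.ext
        simp only [Subgroup.coe_mul]
        group }
  have hα1 : ∀ y : B, ((α y : B) : G) = a⁻¹ * y * a := fun y => rfl
  have hβ1 : ∀ y : B, ((β y : B) : G) = b⁻¹ * y * b := fun y => rfl
  have hβ : ∀ x, β (β x) = x := by
    intro x
    apply Subtype.ext
    rw [hβ1, hβ1, hb']
    have : b * (b * (x : G) * b) * b = b ^ 2 * x * b ^ 2 := by simp only [sq, mul_assoc]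
    rw [this, hb2, one_mul, mul_one]
  have hαβ : ∀ x, α (β x) = β (α x) := by
    intro x
    apply Subtype.ext
    rw [hα1, hβ1, hβ1, hα1, ha', hb']
    calc a * (b * (x : G) * b) * a = (a * b) * x * (b * a) := by simp only [mul_assoc]
      _ = (b * a) * x * (a * b) := by rw [hab]
      _ = b * (a * (x : G) * a) * b := by simp only [mul_assoc]
  have h2' : IsPGroup 2 B := by
    intro x
    obtain ⟨k, hk⟩ := h2 x x.2
    exact ⟨k, Subtype.ext (by rw [Subgroup.coe_pow, hk, Subgroup.coe_one])⟩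
  have hfin' : {z : B | z ^ 2 = 1}.Finite := by
    apply Set.Finite.of_finite_image (f := fun z : B => (z : G))
    · apply hfin.subset
      rintro _ ⟨z, hz, rfl⟩
      refine ⟨z.2, ?_⟩
      have : z ^ 2 = 1 := hz
      rw [← Subgroup.coe_pow, this, Subgroup.coe_one]
    · exact Set.injOn_of_injective Subtype.val_injective
  obtain ⟨F, hF, hFz⟩ := pairZ_reps ab2 h2' hfin' α β hβ hαβ
  refine ⟨(fun p : B × B => (a * (p.1 : G), b * (p.2 : G))) '' F, hF.image _, ?_⟩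
  intro a' b' haa hbb ha2' hb2' hab'
  set x : B := ⟨a⁻¹ * a', haa⟩ with hx
  set y : B := ⟨b⁻¹ * b', hbb⟩ with hy
  have hxa : a' = a * x := by rw [hx]; simp
  have hyb : b' = b * y := by rw [hy]; simp
  have hz : ((x, y) : B × B) ∈ pairZ α β := by
    rw [mem_pairZ]
    refine ⟨?_, ?_, ?_⟩
    · apply Subtype.ext
      rw [Subgroup.coe_mul, hα1, Subgroup.coe_one, ha']
      have : a * (x : G) * a * x = (a * x) ^ 2 := by simp only [sq, mul_assoc]
      change a * (x : G) * a * x = 1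
      rw [this, ← hxa, ha2']
    · apply Subtype.ext
      rw [Subgroup.coe_mul, hβ1, Subgroup.coe_one, hb']
      have : b * (y : G) * b * y = (b * y) ^ 2 := by simp only [sq, mul_assoc]
      change b * (y : G) * b * y = 1
      rw [this, ← hyb, hb2']
    · apply Subtype.ext
      rw [Subgroup.coe_mul, Subgroup.coe_mul, hβ1, hα1, ha', hb']
      change b * (x : G) * b * y = a * (y : G) * a * x
      have h1 : b * (x : G) * b * y = (b * a) * (a' * b') := by
        rw [hxa, hyb]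
        have : b * a * (a * ↑x * (b * ↑y)) = b * a ^ 2 * (x : G) * b * y := by
          simp only [sq, mul_assoc]
        rw [this, ha2, mul_one]
      have h2 : a * (y : G) * a * x = (a * b) * (b' * a') := by
        rw [hxa, hyb]
        have : a * b * (b * ↑y * (a * ↑x)) = a * b ^ 2 * (y : G) * a * x := by
          simp only [sq, mul_assoc]
        rw [this, hb2, mul_one]
      rw [h1, h2, hab', hab]
  obtain ⟨p, hp, w, hw1, hw2⟩ := hFz _ hz
  refine ⟨_, ⟨p, hp, rfl⟩, w, w.2, ?_, ?_⟩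
  · have h1 : (x : G) = p.1 * ((a⁻¹ * w * a)⁻¹ * w) := congrArg Subtype.val hw1
    have hc : (p.1 : G) * (a⁻¹ * w * a)⁻¹ = (a⁻¹ * w * a)⁻¹ * p.1 :=
      hcomm _ p.1.2 _ (B.inv_mem (ha w w.2))
    rw [hxa, h1, ← mul_assoc (p.1 : G), hc]
    group
  · have h1 : (y : G) = p.2 * ((b⁻¹ * w * b)⁻¹ * w) := congrArg Subtype.val hw2
    have hc : (p.2 : G) * (b⁻¹ * w * b)⁻¹ = (b⁻¹ * w * b)⁻¹ * p.2 :=
      hcomm _ p.2.2 _ (B.inv_mem (hb w w.2))
    rw [hyb, h1, ← mul_assoc (p.2 : G), hc]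
    group

end Pool.Agent.FourGp.SR
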