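import Pool.Agent.Lib.MP_fb3619_al.SR.Iface

/-!
# MP_fb3619_al, board SR, row PT (THEOREM P)

A periodic 2-group with two commuting elements of square 1 with finite common centralizer has
Chernikov type. Paper: `SR/Paper.md`, section 3.
-/

set_option autoImplicit false

universe u

namespace Pool.Agent.FourGp.SR

open Pool.Agent.FourGp.H99 (LF)

/-- Chernikov type passes from the type `↥T` to the subgroup `T`. -/
theorem pt_chs_map {G : Type u} [Group G] {T : Subgroup G} (h : Chs (⊤ : Subgroup ↥T)) :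
    Chs T := by
  obtain ⟨A, -, hn, hi, hc, hf⟩ := h
  refine ⟨A.map T.subtype, ?_, ?_, ?_, ?_, ?_⟩
  · rintro _ ⟨y, -, rfl⟩
    exact y.2
  · rintro x hx _ ⟨y, hy, rfl⟩
    exact ⟨_, hn ⟨x, hx⟩ (Subgroup.mem_top _) y hy, rfl⟩
  · have h1 : (A.map T.subtype).subgroupOf T = A := by
      ext z
      rw [Subgroup.mem_subgroupOf]
      constructor
      · rintro ⟨w, hw, hwz⟩
        have : w = z := Subtype.ext hwz
        exact this ▸ hw
      · intro hz
        exact ⟨z, hz, rfl⟩
    have h2 : (A.map T.subtype).relIndex T = A.relIndex ⊤ := by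
      rw [Subgroup.relIndex, h1, Subgroup.relIndex_top_right]
    rw [h2]
    exact hi
  · rintro _ ⟨x, hx, rfl⟩ _ ⟨y, hy, rfl⟩
    exact congrArg (fun z : ↥T => (z : G)) (hc x hx y hy)
  · refine (hf.image (fun z : ↥T => (z : G))).subset ?_
    rintro _ ⟨⟨y, hy, rfl⟩, h2⟩
    refine ⟨y, ⟨hy, ?_⟩, rfl⟩
    exact Subtype.ext h2

/-- One step: a 2-group with a pair of finite centralizer and a locally finite subgroup containing
the centralizer of the first element has Chernikov type. -/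
theorem pt_step (mlf : MlfS.{u}) (rr : RrS.{u}) (tt : TtS.{u}) {G : Type u} [Group G]
    (hG : IsPGroup 2 G) (a b : G) (ha : a ^ 2 = 1) (hb : b ^ 2 = 1) (hab : a * b = b * a)
    (hfin : {x : G | x * a = a * x ∧ x * b = b * x}.Finite) (X : Subgroup G) (hX : LF X)
    (hC : ∀ x : G, x * a = a * x → x ∈ X) : Chs (⊤ : Subgroup G) := by
  have hper : ∀ g : G, ∃ n : ℕ, 0 < n ∧ g ^ n = 1 := by
    intro g
    obtain ⟨k, hk⟩ := hG g
    exact ⟨2 ^ k, by positivity, hk⟩
  obtain ⟨T, hXT, hT, hN⟩ := mlf G hper X hX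
  have haT : a ∈ T := hXT (hC a rfl)
  have hbT : b ∈ T := hXT (hC b hab.symm)
  have h1 : Chs (⊤ : Subgroup ↥T) := by
    refine rr ↥T (hG.to_subgroup T) hT ⟨a, haT⟩ ⟨b, hbT⟩ (Subtype.ext ha) (Subtype.ext hb)
      (Subtype.ext hab) ?_
    refine (hfin.preimage (Subtype.val_injective.injOn)).subset ?_
    rintro x ⟨h2, h3⟩
    exact ⟨congrArg (fun z : ↥T => (z : G)) h2, congrArg (fun z : ↥T => (z : G)) h3⟩
  have h2 : Chs T := pt_chs_map h1
  have h3 : T = ⊤ := tt G hG T a h2 ha (fun x hx => hXT (hC x hx)) hN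
  rw [← h3]
  exact h2

/-- PT (THEOREM P). -/
theorem pt (mlf : MlfS.{u}) (rr : RrS.{u}) (tt : TtS.{u}) (lfc : LfcS.{u}) : PtS.{u} := by
  intro G _ hG a b ha hb hab hfin
  have hbD : b ∈ Subgroup.centralizer ({a} : Set G) := by
    rw [Subgroup.mem_centralizer_singleton_iff]
    exact hab.symm
  set D : Subgroup G := Subgroup.centralizer ({a} : Set G) with hD
  have hmem : ∀ x : G, x ∈ D ↔ x * a = a * x := by
    intro x
    rw [hD, Subgroup.mem_centralizer_singleton_iff]
  -- the centralizer of `b` in `D` is finite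
  have hfinD : {x : ↥D | x * (⟨b, hbD⟩ : ↥D) = ⟨b, hbD⟩ * x}.Finite := by
    refine (hfin.preimage (Subtype.val_injective.injOn)).subset ?_
    intro x h2
    exact ⟨(hmem _).1 x.2, congrArg (fun z : ↥D => (z : G)) h2⟩
  have hE : Finite ↥(Subgroup.centralizer ({(⟨b, hbD⟩ : ↥D)} : Set ↥D)) := by
    have h3 : ((Subgroup.centralizer ({(⟨b, hbD⟩ : ↥D)} : Set ↥D) : Subgroup ↥D) : Set ↥D).Finite := by
      refine hfinD.subset ?_
      intro x hx
      exact Subgroup.mem_centralizer_singleton_iff.1 hx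
    exact h3.to_subtype
  have hD1 : Chs (⊤ : Subgroup ↥D) := by
    refine pt_step mlf rr tt (hG.to_subgroup D) ⟨b, hbD⟩ ⟨b, hbD⟩ (Subtype.ext hb) (Subtype.ext hb)
      rfl ?_ (Subgroup.centralizer ({(⟨b, hbD⟩ : ↥D)} : Set ↥D)) ?_ ?_
    · exact hfinD.subset (fun x hx => hx.1)
    · intro S _
      exact inferInstance
    · intro x hx
      exact Subgroup.mem_centralizer_singleton_iff.2 hx
  have hD2 : Chs D := pt_chs_map hD1
  refine pt_step mlf rr tt hG a b ha hb hab hfin D ?_ (fun x hx => (hmem x).2 hx)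
  intro S hS
  have h4 : Finite ↥(S.map D.subtype) := by
    refine lfc G hG D hD2 (S.map D.subtype) ?_ ?_
    · rintro _ ⟨y, -, rfl⟩
      exact y.2
    · obtain ⟨F, hF⟩ := hS
      rw [← hF, MonoidHom.map_closure]
      classical
      exact ⟨F.image D.subtype, by rw [Finset.coe_image]⟩
  exact Finite.of_injective (fun z : ↥S => (⟨D.subtype z.1, z.1, z.2, rfl⟩ : ↥(S.map D.subtype)))
    (fun x y hxy => Subtype.ext (Subtype.ext (congrArg (fun z : ↥(S.map D.subtype) => (z : G)) hxy)))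

end Pool.Agent.FourGp.SR
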