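import Pool.Agent.Lib.MP_fb3619_al.SR.Iface

/-!
# MP_fb3619_al, board SR, row RR: THEOREM R (helper60)
-/

set_option autoImplicit false

universe u

namespace Pool.Agent.FourGp.SR

open Pool.Agent.FourGp.H99 (LF)

namespace Rrr

variable {G : Type u} [Group G]

/-- normal abelian subgroups -/
def NA (G : Type u) [Group G] : Set (Subgroup G) :=
  {B | B.Normal ∧ ∀ x ∈ B, ∀ y ∈ B, x * y = y * x}

theorem exists_max : ∃ B : Subgroup G, B ∈ NA G ∧ ∀ B' ∈ NA G, B ≤ B' → B' ≤ B := by
  obtain ⟨B, hB⟩ := zorn_le_nonempty₀ (NA G) (by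
    intro c hc hch y hy
    have hne : c.Nonempty := ⟨y, hy⟩
    have hdir : DirectedOn (· ≤ ·) c := hch.directedOn
    refine ⟨sSup c, ⟨⟨?_⟩, ?_⟩, fun z hz => le_sSup hz⟩
    · intro x hx g
      rw [Subgroup.mem_sSup_of_directedOn hne hdir] at hx ⊢
      obtain ⟨s, hs, hxs⟩ := hx
      exact ⟨s, hs, (hc hs).1.conj_mem x hxs g⟩
    · intro x hx z hz
      rw [Subgroup.mem_sSup_of_directedOn hne hdir] at hx hz
      obtain ⟨s, hs, hxs⟩ := hx
      obtain ⟨t, ht, hzt⟩ := hz
      obtain ⟨u, hu, hsu, htu⟩ := hdir s hs t ht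
      exact (hc hu).2 x (hsu hxs) z (htu hzt)) ⊥ ⟨inferInstance, by
        intro x hx y hy
        rw [Subgroup.mem_bot] at hx hy
        rw [hx, hy]⟩
  exact ⟨B, hB.2.prop, fun B' h1 h2 => hB.2.le_of_ge h1 h2⟩

theorem ext_mem {B : Subgroup G} (hB : B ∈ NA G) {z : G} (hz : ∀ y ∈ B, z * y = y * z)
    (hc : ∀ x : G, x⁻¹ * (z⁻¹ * x * z) ∈ B) : Subgroup.closure ((B : Set G) ∪ {z}) ∈ NA G := by
  have hBn := hB.1
  refine ⟨⟨?_⟩, ?_⟩
  · intro x hx g
    have hle : Subgroup.closure ((B : Set G) ∪ {z}) ≤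
        (Subgroup.closure ((B : Set G) ∪ {z})).comap (MulAut.conj g).toMonoidHom := by
      rw [Subgroup.closure_le]
      rintro y (hy | hy)
      · exact Subgroup.subset_closure (Or.inl (hBn.conj_mem y hy g))
      · rw [Set.mem_singleton_iff] at hy
        subst hy
        have h1 := hc g⁻¹
        have h2 : (g⁻¹⁻¹ * (y⁻¹ * g⁻¹ * y))⁻¹ = y⁻¹ * (g * y * g⁻¹) := by group
        have h3 : y⁻¹ * (g * y * g⁻¹) ∈ B := by rw [← h2]; exact B.inv_mem h1
        have h4 : g * y * g⁻¹ = y * (y⁻¹ * (g * y * g⁻¹)) := by group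
        show g * y * g⁻¹ ∈ Subgroup.closure ((B : Set G) ∪ {y})
        rw [h4]
        exact Subgroup.mul_mem _ (Subgroup.subset_closure (Or.inr rfl))
          (Subgroup.subset_closure (Or.inl h3))
    exact hle hx
  · have hcm : ∀ s ∈ (B : Set G) ∪ {z}, ∀ t ∈ (B : Set G) ∪ {z}, s * t = t * s := by
      rintro s (hs | hs) t (ht | ht)
      · exact hB.2 s hs t ht
      · rw [Set.mem_singleton_iff.1 ht]; exact (hz s hs).symm
      · rw [Set.mem_singleton_iff.1 hs]; exact hz t ht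
      · rw [Set.mem_singleton_iff.1 hs, Set.mem_singleton_iff.1 ht]
    have h1 : ∀ s ∈ (B : Set G) ∪ {z}, ∀ y ∈ Subgroup.closure ((B : Set G) ∪ {z}),
        s * y = y * s := by
      intro s hs
      have hle : Subgroup.closure ((B : Set G) ∪ {z}) ≤ Subgroup.centralizer {s} := by
        rw [Subgroup.closure_le]
        intro t ht
        rw [SetLike.mem_coe, Subgroup.mem_centralizer_singleton_iff]
        exact hcm t ht s hs
      intro y hy
      exact (Subgroup.mem_centralizer_singleton_iff.1 (hle hy)).symm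
    intro x hx y hy
    have hle : Subgroup.closure ((B : Set G) ∪ {z}) ≤ Subgroup.centralizer {y} := by
      rw [Subgroup.closure_le]
      intro t ht
      rw [SetLike.mem_coe, Subgroup.mem_centralizer_singleton_iff]
      exact h1 t ht y hy
    exact Subgroup.mem_centralizer_singleton_iff.1 (hle hx)

end Rrr

open Rrr

/-- Row RR (THEOREM R). -/
theorem rr (ome : OmeS.{u}) (act : ActS.{u}) (yfi : YfiS.{u}) (cmp : CmpS.{u}) : RrS.{u} := by
  intro G _ hG hLF a b ha hb hab hfin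
  obtain ⟨B, hB, hmax⟩ := exists_max (G := G)
  have hBn := hB.1
  have h2 := ome G B hB.1 hB.2 a b ha hb hab hfin
  have h3 := act G hG B hB.1 hB.2 h2
  obtain ⟨F, hF, hF'⟩ := yfi G hG B hB.1 hB.2 h2 a b ha hb hab hfin
  have hle : B ≤ Subgroup.centralizer (B : Set G) := by
    intro x hx
    rw [Subgroup.mem_centralizer_iff]
    intro y hy
    exact hB.2 y hy x hx
  have heq : B = Subgroup.centralizer (B : Set G) := by
    by_contra hne
    have hlt : B < Subgroup.centralizer (B : Set G) := lt_of_le_of_ne hle hne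
    have hV : Finite (Subgroup.closure ({a, b} : Set G)) :=
      hLF _ ((Subgroup.fg_iff _).2 ⟨{a, b}, rfl, Set.toFinite _⟩)
    obtain ⟨z, hz, hzB, hzc⟩ := cmp G hG hLF B (Subgroup.centralizer (B : Set G)) hBn
      inferInstance hlt (Subgroup.closure ({a, b} : Set G)) hV
      ⟨F, hF, fun g _ hg => hF' g (hg a (Subgroup.subset_closure (Or.inl rfl)))
        (hg b (Subgroup.subset_closure (Or.inr rfl)))⟩
    have h4 := ext_mem hB (fun y hy => ((Subgroup.mem_centralizer_iff.1 hz) y hy).symm) hzc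
    exact hzB (hmax _ h4 (fun x hx => Subgroup.subset_closure (Or.inl hx))
      (Subgroup.subset_closure (Or.inr rfl)))
  refine ⟨B, le_top, ?_, ?_, hB.2, h2⟩
  · intro x _ y hy
    have h5 := hBn.conj_mem y hy x⁻¹
    rwa [inv_inv] at h5
  · rw [Subgroup.relIndex_top_right, heq]
    exact h3.index_ne_zero

end Pool.Agent.FourGp.SR
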