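import Pool.Agent.Lib.MP_fb3619_al.SR.Tc
import Pool.Agent.Lib.MP_fb3619_al.SR.Mlf

/-!
# MP_fb3619_al, board SR: Shunkov's theorem for arbitrary periodic groups

`shk`: a periodic group with an element `t`, `t ^ 2 = 1`, with finite centralizer is locally finite.
-/

set_option autoImplicit false

universe u

namespace Pool.Agent.FourGp.SR

open scoped Pointwise

open Pool.Agent.FourGp.H99 (LF Odd' Delta LF_Delta shunkov dih odd_conj mul_inv_self conj_inv_pow
  inv_of_sq)

/-- Many elements in different cosets of finitely many subgroups of infinite index. -/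
theorem many {G : Type u} [Group G] {Z : Set G} (hZ : Z.Finite) (hZn : Z.Nonempty)
    (hinf : ∀ z ∈ Z, ¬ (Subgroup.centralizer {z} : Subgroup G).FiniteIndex) (k : ℕ) :
    ∃ X : Finset G, X.card = k ∧
      ∀ x ∈ X, ∀ y ∈ X, x ≠ y → ∀ z ∈ Z, (x⁻¹ * y) * z ≠ z * (x⁻¹ * y) := by
  classical
  induction k with
  | zero => exact ⟨∅, rfl, by simp⟩
  | succ k ih =>
      obtain ⟨X, hX, hX2⟩ := ih
      have h1 : ∃ y : G, ∀ x ∈ X, ∀ z ∈ Z, (x⁻¹ * y) * z ≠ z * (x⁻¹ * y) := by
        by_contra hcon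
        push Not at hcon
        have hcov : ⋃ p ∈ X ×ˢ hZ.toFinset, (p.1 : G) •
            ((Subgroup.centralizer {p.2} : Subgroup G) : Set G) = Set.univ := by
          rw [Set.eq_univ_iff_forall]
          intro y
          obtain ⟨x, hx, z, hz, e⟩ := hcon y
          rw [Set.mem_iUnion₂]
          refine ⟨(x, z), Finset.mem_product.2 ⟨hx, hZ.mem_toFinset.2 hz⟩, ?_⟩
          rw [Set.mem_smul_set_iff_inv_smul_mem, smul_eq_mul, SetLike.mem_coe,
            Subgroup.mem_centralizer_singleton_iff]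
          exact e
        obtain ⟨p, hp, hfi⟩ := Subgroup.exists_finiteIndex_of_leftCoset_cover hcov
        exact hinf p.2 (hZ.mem_toFinset.1 (Finset.mem_product.1 hp).2) hfi
      obtain ⟨y, hy⟩ := h1
      obtain ⟨z0, hz0⟩ := hZn
      have hyX : y ∉ X := by
        intro h
        have := hy y h z0 hz0
        rw [inv_mul_cancel, one_mul, mul_one] at this
        exact this rfl
      refine ⟨insert y X, by rw [Finset.card_insert_of_notMem hyX, hX], ?_⟩
      intro x hx w hw hxw z hz
      rcases Finset.mem_insert.1 hx with hxy | hx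
      · rcases Finset.mem_insert.1 hw with hwy | hw
        · exact absurd (hxy.trans hwy.symm) hxw
        · intro e
          apply hy w hw z hz
          rw [← hxy]
          have e2 : (w⁻¹ * x) = (x⁻¹ * w)⁻¹ := by group
          rw [e2]
          have : Commute (x⁻¹ * w) z := e
          exact this.inv_left
      · rcases Finset.mem_insert.1 hw with hw | hw
        · rw [hw]
          exact hy x hx z hz
        · exact hX2 x hx w hw hxw z hz

/-- Finitely many translates of the complement of the set of all `g` with `g z g⁻¹ ∈ Z` for some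
`z ∈ Z` cover the group. -/
theorem cover {G : Type u} [Group G] {Z : Set G} (hZ : Z.Finite)
    (hinf : ∀ z ∈ Z, ¬ (Subgroup.centralizer {z} : Subgroup G).FiniteIndex) :
    ∃ X : Finset G, ∀ g : G, ∃ x ∈ X, ∀ z ∈ Z, (x⁻¹ * g) * z * (x⁻¹ * g)⁻¹ ∉ Z := by
  classical
  rcases Set.eq_empty_or_nonempty Z with rfl | hZn
  · exact ⟨{1}, fun g => ⟨1, Finset.mem_singleton_self _, fun z hz => absurd hz (by simp)⟩⟩
  obtain ⟨X, hX, hX2⟩ := many hZ hZn hinf ((hZ.toFinset ×ˢ hZ.toFinset).card + 1)
  refine ⟨X, fun g => ?_⟩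
  by_contra hcon
  push Not at hcon
  choose! f hf1 hf2 using hcon
  obtain ⟨x, hx, y, hy, hxy, he⟩ := Finset.exists_ne_map_eq_of_card_lt_of_maps_to
    (s := X) (t := hZ.toFinset ×ˢ hZ.toFinset) (by rw [hX]; omega)
    (f := fun x => (f x, (x⁻¹ * g) * f x * (x⁻¹ * g)⁻¹)) (by
      intro x hx
      exact Finset.mem_coe.2 (Finset.mem_product.2 ⟨hZ.mem_toFinset.2 (hf1 x hx),
        hZ.mem_toFinset.2 (hf2 x hx)⟩))
  have e1 : f x = f y := congrArg Prod.fst he
  have e2 : (x⁻¹ * g) * f x * (x⁻¹ * g)⁻¹ = (y⁻¹ * g) * f y * (y⁻¹ * g)⁻¹ := congrArg Prod.snd he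
  rw [← e1] at e2
  apply hX2 x hx y hy hxy _ (hf2 x hx)
  have e3 : (x⁻¹ * y) * ((y⁻¹ * g) * f x * (y⁻¹ * g)⁻¹) = ((x⁻¹ * g) * f x * (x⁻¹ * g)⁻¹) *
      (x⁻¹ * y) := by group
  rw [← e3, ← e2]

/-- The case without elements with finitely many conjugates. -/
theorem shk0 {G : Type u} [Group G] (tor : ∀ g : G, ∃ n : ℕ, 0 < n ∧ g ^ n = 1)
    (hD : ∀ x ∈ Delta G, x = 1) (t : G) (ht : t ^ 2 = 1) (hfin : {x : G | x * t = t * x}.Finite) :
    LF G := by
  have htt : t * t = 1 := by rw [← pow_two]; exact ht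
  set Z : Set G := {z | z * t = t * z ∧ z * z = 1 ∧ z ≠ 1} with hZd
  have hZ : Z.Finite := hfin.subset fun z hz => hz.1
  obtain ⟨X, hX⟩ := cover hZ (fun z hz hfi => hz.2.2 (hD z hfi))
  set σ : G →* G := (MulAut.conj t).toMonoidHom with hσ
  have hσv : ∀ d : G, σ d = t * d * t := fun d => by
    show t * d * t⁻¹ = t * d * t
    rw [inv_of_sq htt]
  refine shunkov tor σ ((fun p : G × G => p.1 * p.2) '' ((X : Set G) ×ˢ {x : G | x * t = t * x}))
    ((X.finite_toSet.prod hfin).image _) {v | σ v = v⁻¹} (fun v hv => hv) ?_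
  intro g
  obtain ⟨x, hx, hg⟩ := hX g
  set h := x⁻¹ * g with hh
  set s := h⁻¹ * t * h with hs
  have hss : s * s = 1 := by
    rw [hs]
    calc h⁻¹ * t * h * (h⁻¹ * t * h) = h⁻¹ * (t * t) * h := by group
      _ = 1 := by rw [htt]; group
  have hodd : Odd' (t * s) := by
    rcases dih tor htt hss with h1 | ⟨k, h1, h2, -⟩
    · exact h1
    · exfalso
      set z := (t * s) ^ k with hz
      have hinv : t * z * t = z⁻¹ := conj_inv_pow htt (mul_inv_self htt hss) k
      have hzz : z⁻¹ = z := inv_of_sq h1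
      rw [hzz] at hinv
      have hzt : z * t = t * z := by
        calc z * t = (t * z * t) * t := by rw [hinv]
          _ = t * z * (t * t) := by group
          _ = t * z := by rw [htt, mul_one]
      have hcz : z * (t * s) = (t * s) * z := by rw [hz, ← pow_succ, pow_succ']
      have hzs : z * s = s * z := by
        have e1 : t * (z * s) = t * (s * z) := by
          calc t * (z * s) = (t * z) * s := by group
            _ = (z * t) * s := by rw [hzt]
            _ = z * (t * s) := by group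
            _ = (t * s) * z := hcz
            _ = t * (s * z) := by group
        exact mul_left_cancel e1
      refine hg z ⟨hzt, h1, h2⟩ ⟨?_, ?_, ?_⟩
      · have e2 : h * (z * s) * h⁻¹ = h * (s * z) * h⁻¹ := by rw [hzs]
        calc h * z * h⁻¹ * t = h * (z * (h⁻¹ * t * h)) * h⁻¹ := by group
          _ = h * (s * z) * h⁻¹ := e2
          _ = t * (h * z * h⁻¹) := by rw [hs]; group
      · calc h * z * h⁻¹ * (h * z * h⁻¹) = h * (z * z) * h⁻¹ := by group
          _ = 1 := by rw [h1]; group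
      · intro e
        apply h2
        calc z = h⁻¹ * (h * z * h⁻¹) * h := by group
          _ = 1 := by rw [e]; group
  obtain ⟨k, hk⟩ := odd_conj htt hss hodd
  set y := (t * s) ^ k with hy
  have hyi : t * y * t = y⁻¹ := conj_inv_pow htt (mul_inv_self htt hss) k
  refine ⟨x * (h * y⁻¹), ⟨(x, h * y⁻¹), ⟨hx, ?_⟩, rfl⟩, y, ?_, ?_⟩
  · show h * y⁻¹ * t = t * (h * y⁻¹)
    calc h * y⁻¹ * t = h * (y⁻¹ * t * y) * y⁻¹ := by group
      _ = h * s * y⁻¹ := by rw [hk]
      _ = t * (h * y⁻¹) := by rw [hs]; group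
  · show σ y = y⁻¹
    rw [hσv, hyi]
  · rw [hh]; group

theorem delta_normal (G : Type u) [Group G] : (Delta G).Normal := by
  refine ⟨fun x hx g => ?_⟩
  have hx' : (Subgroup.centralizer {x} : Subgroup G).FiniteIndex := hx
  have h1 : ((Subgroup.centralizer {x} : Subgroup G).comap
      (MulAut.conj g⁻¹).toMonoidHom).FiniteIndex := by
    refine ⟨?_⟩
    rw [Subgroup.index_comap_of_surjective _ (MulAut.conj g⁻¹).surjective]
    exact hx'.index_ne_zero
  show (Subgroup.centralizer {g * x * g⁻¹} : Subgroup G).FiniteIndex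
  refine Subgroup.finiteIndex_of_le (H := (Subgroup.centralizer {x} : Subgroup G).comap
      (MulAut.conj g⁻¹).toMonoidHom) ?_
  intro y hy
  have hy' : g⁻¹ * y * g⁻¹⁻¹ ∈ (Subgroup.centralizer {x} : Subgroup G) := hy
  rw [Subgroup.mem_centralizer_singleton_iff] at hy' ⊢
  rw [inv_inv] at hy'
  calc y * (g * x * g⁻¹) = g * ((g⁻¹ * y * g) * x) * g⁻¹ := by group
    _ = g * (x * (g⁻¹ * y * g)) * g⁻¹ := by rw [hy']
    _ = g * x * g⁻¹ * y := by group

/-- Shunkov's theorem. -/
theorem shk (fr : FrS.{u}) : ∀ (G : Type u) [Group G], (∀ g : G, ∃ n : ℕ, 0 < n ∧ g ^ n = 1) →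
    ∀ t : G, t ^ 2 = 1 → {x : G | x * t = t * x}.Finite → LF G := by
  intro G _ tor t ht hfin
  refine lf_series {M : Subgroup G | M.Normal} (inferInstanceAs (⊥ : Subgroup G).Normal) ?_ ?_
  · intro c hc hne hch
    have hdir : DirectedOn (· ≤ ·) c := hch.directedOn
    refine ⟨fun n hn g => ?_⟩
    rw [Subgroup.mem_sSup_of_directedOn hne hdir] at hn ⊢
    obtain ⟨M, hM, hnM⟩ := hn
    exact ⟨M, hM, (hc hM).conj_mem n hnM g⟩
  · intro M hM hMt hMlf
    haveI : M.Normal := hM
    have hMLF : LF M := (mlf_iff M).2 hMlf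
    have hfinQ := fr G M hMLF t t ht ht rfl (by
      refine hfin.subset ?_
      rintro x ⟨h1, -⟩
      exact h1)
    have hGq := tor_quot tor M
    have htq : ((t : G ⧸ M)) ^ 2 = 1 := by
      rw [← QuotientGroup.mk_pow, ht, QuotientGroup.mk_one]
    by_cases hD : ∀ x ∈ Delta (G ⧸ M), x = 1
    · have h1 := shk0 hGq hD (t : G ⧸ M) htq (by
        refine hfinQ.subset ?_
        intro x hx
        exact ⟨hx, hx⟩)
      refine ⟨⊤, inferInstanceAs (⊤ : Subgroup G).Normal, lt_top_iff_ne_top.2 hMt,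
        fun S _ hfg => ?_⟩
      exact relIndex_of_map M S (h1 _ (fg_map hfg _))
    · push Not at hD
      obtain ⟨q, hq, hq1⟩ := hD
      obtain ⟨g, rfl⟩ := QuotientGroup.mk_surjective q
      let π := QuotientGroup.mk' M
      have hDn := delta_normal (G ⧸ M)
      have hN : ((Delta (G ⧸ M)).comap π).Normal := inferInstance
      refine ⟨(Delta (G ⧸ M)).comap π, hN, ?_, ?_⟩
      · refine lt_of_le_of_ne ?_ ?_
        · intro m hm
          show (π m) ∈ Delta (G ⧸ M)
          rw [show π m = 1 from (QuotientGroup.eq_one_iff m).2 hm]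
          exact Subgroup.one_mem _
        · intro e
          have : g ∈ (Delta (G ⧸ M)).comap π := hq
          rw [← e] at this
          exact hq1 ((QuotientGroup.eq_one_iff g).2 this)
      · intro S hS hfg
        refine relIndex_of_map M S ?_
        refine (mlf_iff (Delta (G ⧸ M))).1 (LF_Delta hGq) _ ?_ (fg_map hfg _)
        rintro _ ⟨x, hx, rfl⟩
        exact hS hx

end Pool.Agent.FourGp.SR
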