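import Pool.Agent.Lib.MP_fb3619_al.SR.Ex

/-!
# MP_fb3619_al, board SR: row STP
-/

set_option autoImplicit false

universe u

namespace Pool.Agent.FourGp.SR

/-- STP -/
theorem stp (hs : SubS.{u}) (ho : OvrS.{u}) (hn : NrmS.{u}) : StpS.{u} := by
  intro G _ hG T a hT hN P hP
  obtain ⟨hPT, haP, x, hxT, hxP⟩ := hP
  have hne : P ≠ T := by
    rintro rfl
    exact hxT (hN x hxP)
  by_cases hA : ∃ t : G, t ∉ T ∧ Nm P t ∧ t ^ 2 ∈ P
  · obtain ⟨t2, h2T, h2P, h2s⟩ := hA
    obtain ⟨t1, h1T, h1P, h1s, h1n⟩ := hn G hG T P hT hPT hne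
    obtain ⟨L, hPL, h1L, h2L, hri⟩ := dih h1n h2P h1s h2s (fo hG _) (fo hG _)
    have hL : Chs L := ho G P L (hs G T P hT hPT) hPL hri
    have hne2 : L ⊓ T ≠ L := by
      intro h
      have : t2 ∈ L ⊓ T := by rw [h]; exact h2L
      exact h2T this.2
    obtain ⟨y, hyL, hyP, -, hyn⟩ := hn G hG L (L ⊓ T) hL inf_le_left hne2
    refine ⟨L ⊓ T, ⟨inf_le_right, ⟨hPL haP, hPT haP⟩, y, ?_, hyn⟩, ?_⟩
    · intro hyT
      exact hyP ⟨hyL, hyT⟩
    · refine lt_of_le_of_ne (le_inf hPL hPT) ?_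
      intro h
      have : t1 ∈ L ⊓ T := ⟨h1L, h1T⟩
      rw [← h] at this
      exact h1P this
  · push Not at hA
    have hx' : x ∉ P := fun h => hxT (hPT h)
    obtain ⟨j, hj1, hj2⟩ := last_pow hG hx'
    set u := x ^ 2 ^ j with hu
    have hun : Nm P u := hxP.pow _
    have huT : u ∈ T := by
      by_contra h
      exact hA u h hun hj2
    refine ⟨ex P u hun, ⟨?_, le_ex hun haP, x, hxT, ?_⟩, ?_⟩
    · rintro y ⟨i, hi⟩
      have h1 := T.mul_mem (T.inv_mem (T.zpow_mem huT i)) (hPT hi)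
      rwa [inv_mul_cancel_left] at h1
    · have hc : ∀ i : ℤ, x⁻¹ * u ^ i = u ^ i * x⁻¹ := by
        intro i
        have : Commute x⁻¹ (u ^ i) := by
          rw [hu]
          exact ((Commute.refl x).inv_left.pow_right _).zpow_right i
        exact this
      intro y
      constructor
      · rintro ⟨i, hi⟩
        refine ⟨i, ?_⟩
        have h1 := hxP.l hi
        have e : x⁻¹ * (u ^ i * y) * x = u ^ i * (x⁻¹ * y * x) := by
          rw [← mul_assoc, hc]; group
        rwa [e] at h1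
      · rintro ⟨i, hi⟩
        refine ⟨i, ?_⟩
        have e : x⁻¹ * (u ^ i * y) * x = u ^ i * (x⁻¹ * y * x) := by
          rw [← mul_assoc, hc]; group
        rw [← e] at hi
        exact (hxP _).2 hi
    · refine lt_of_le_of_ne (le_ex hun) ?_
      intro h
      have := x_ex hun
      rw [← h] at this
      exact hj1 this

end Pool.Agent.FourGp.SR
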