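import Pool.Agent.Lib.MP_fb3619_al.SR.Iface

/-!
# MP_fb3619_al, board SR: rows SUB, OVR
-/

set_option autoImplicit false

universe u

namespace Pool.Agent.FourGp.SR

theorem sub : SubS.{u} := by
  rintro G _ X U ⟨A, hAX, hN, hi, hc, hf⟩ hU
  refine ⟨A ⊓ U, inf_le_right, ?_, ?_, ?_, ?_⟩
  · rintro x hx y ⟨hy1, hy2⟩
    exact ⟨hN x (hU hx) y hy1, U.mul_mem (U.mul_mem (U.inv_mem hx) hy2) hx⟩
  · rw [Subgroup.inf_relIndex_right]
    exact fun h => hi (Subgroup.relIndex_eq_zero_of_le_right hU h)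
  · rintro x ⟨hx, -⟩ y ⟨hy, -⟩
    exact hc x hx y hy
  · exact hf.subset fun x hx => ⟨hx.1.1, hx.2⟩

theorem ovr : OvrS.{u} := by
  rintro G _ X L ⟨A, hAX, hN, hi, hc, hf⟩ hXL hXi
  have hAL : A ≤ L := hAX.trans hXL
  have h1 : A.relIndex L ≠ 0 := by
    rw [← Subgroup.relIndex_mul_relIndex A X L hAX hXL]
    exact mul_ne_zero hi hXi
  haveI : (A.subgroupOf L).FiniteIndex := ⟨h1⟩
  have hle : ((A.subgroupOf L).normalCore).map L.subtype ≤ A := by
    rintro _ ⟨y, hy, rfl⟩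
    exact (Subgroup.mem_subgroupOf.1 (Subgroup.normalCore_le _ hy))
  refine ⟨((A.subgroupOf L).normalCore).map L.subtype, hle.trans hAL, ?_, ?_, ?_, ?_⟩
  · rintro x hx _ ⟨y, hy, rfl⟩
    refine ⟨(⟨x, hx⟩ : L)⁻¹ * y * ⟨x, hx⟩, ?_, rfl⟩
    have := (Subgroup.normalCore_normal (A.subgroupOf L)).conj_mem y hy (⟨x, hx⟩ : L)⁻¹
    rwa [inv_inv] at this
  · have h2 : ((A.subgroupOf L).normalCore).FiniteIndex := inferInstance
    intro h3
    apply h2.index_ne_zero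
    rw [Subgroup.relIndex, Subgroup.subgroupOf,
      Subgroup.comap_map_eq_self_of_injective L.subtype_injective] at h3
    exact h3
  · exact fun x hx y hy => hc x (hle hx) y (hle hy)
  · exact hf.subset fun x hx => ⟨hle hx.1, hx.2⟩

end Pool.Agent.FourGp.SR
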