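import Mathlib
import Pool.Agent.Lib.MP_fb3619_al.SR.Iface

/-!
# MP_fb3619_al, board SR, row SYL: a countable ascending union of Sylow 2-subgroups
-/

set_option autoImplicit false

universe u

namespace Pool.Agent.FourGp.SR

open Pool.Agent.FourGp.H99 (LF)
open scoped Pointwise

namespace SylH

theorem four {G : Type u} [Group G] {x y : G} (hx : x ^ 2 = 1) (hy : y ^ 2 = 1)
    (h : x * y = y * x) : ∀ z ∈ Subgroup.closure ({x, y} : Set G), z = 1 ∨ z = x ∨ z = y ∨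
      z = x * y := by
  have h1 : x * x = 1 := by rw [← pow_two]; exact hx
  have h2 : y * y = 1 := by rw [← pow_two]; exact hy
  have h3 : ∀ z : G, x * (x * z) = z := by intro z; rw [← mul_assoc, h1, one_mul]
  have h5 : y * x = x * y := h.symm
  have h6 : ∀ z : G, y * (x * z) = x * (y * z) := by
    intro z; rw [← mul_assoc, h5, mul_assoc]
  have hix : x⁻¹ = x := inv_eq_of_mul_eq_one_left h1
  have hiy : y⁻¹ = y := inv_eq_of_mul_eq_one_left h2
  intro z hz
  refine Subgroup.closure_induction (p := fun z _ => z = 1 ∨ z = x ∨ z = y ∨ z = x * y)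
    ?_ ?_ ?_ ?_ hz
  · rintro z (rfl | hz)
    · exact Or.inr (Or.inl rfl)
    · rw [Set.mem_singleton_iff] at hz
      exact Or.inr (Or.inr (Or.inl hz))
  · exact Or.inl rfl
  · intro u v _ _ hu hv
    rcases hu with rfl | rfl | rfl | rfl <;> rcases hv with rfl | rfl | rfl | rfl <;>
      simp [mul_assoc, h1, h2, h3, h5, h6]
  · intro u _ hu
    rcases hu with rfl | rfl | rfl | rfl
    · simp
    · simp [hix]
    · simp [hiy]
    · simp [hix, hiy, h5]

theorem four_two {G : Type u} [Group G] {x y : G} (hx : x ^ 2 = 1) (hy : y ^ 2 = 1)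
    (h : x * y = y * x) : IsPGroup 2 (Subgroup.closure ({x, y} : Set G)) := by
  rintro ⟨z, hz⟩
  refine ⟨1, Subtype.ext ?_⟩
  show z ^ 2 ^ 1 = 1
  rw [pow_one]
  rcases four hx hy h z hz with rfl | rfl | rfl | rfl
  · exact one_pow 2
  · exact hx
  · exact hy
  · rw [(show Commute x y from h).mul_pow, hx, hy, one_mul]

/-- Sylow's theorem for subgroups of a finite subgroup `H`. -/
theorem sylow {G : Type u} [Group G] (H : Subgroup G) [Finite H] (P : Subgroup G) (hPH : P ≤ H)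
    (hP : IsPGroup 2 P) : ∃ Q : Subgroup G, P ≤ Q ∧ Q ≤ H ∧ IsPGroup 2 Q ∧
      ∀ R : Subgroup G, R ≤ H → IsPGroup 2 R → ∃ h : G, ∀ x ∈ R, h⁻¹ * x * h ∈ Q := by
  have : Fact (Nat.Prime 2) := ⟨Nat.prime_two⟩
  have hP' : IsPGroup 2 (P.subgroupOf H) := hP.comap_of_injective H.subtype H.subtype_injective
  obtain ⟨Q, hQ⟩ := hP'.exists_le_sylow
  refine ⟨(Q : Subgroup H).map H.subtype, ?_, Subgroup.map_subtype_le _, Q.2.map H.subtype, ?_⟩
  · intro x hx
    exact ⟨⟨x, hPH hx⟩, hQ (by rw [Subgroup.mem_subgroupOf]; exact hx), rfl⟩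
  · intro R hR hR2
    have hR' : IsPGroup 2 (R.subgroupOf H) := hR2.comap_of_injective H.subtype H.subtype_injective
    obtain ⟨S, hS⟩ := hR'.exists_le_sylow
    obtain ⟨g, hg⟩ := MulAction.exists_smul_eq H S Q
    refine ⟨(g : G)⁻¹, ?_⟩
    intro x hx
    have h1 : (⟨x, hR hx⟩ : H) ∈ (S : Subgroup H) := hS (by rw [Subgroup.mem_subgroupOf]; exact hx)
    have h2 : g * ⟨x, hR hx⟩ * g⁻¹ ∈ (Q : Subgroup H) := by
      rw [← hg]
      rw [Sylow.coe_subgroup_smul]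
      exact Subgroup.smul_mem_pointwise_smul _ (MulAut.conj g) _ h1
    refine ⟨g * ⟨x, hR hx⟩ * g⁻¹, h2, ?_⟩
    simp

end SylH

theorem syl : SylS.{u} := by
  classical
  intro G _ hlf a b ha hb hab p hp
  -- the finite groups H n
  let gens : ℕ → Set G := fun n => {a, b} ∪ ((fun i => (p i).1) '' {i | i < n} ∪
    (fun i => (p i).2) '' {i | i < n})
  have hgens : ∀ n, (gens n).Finite := fun n =>
    (Set.toFinite _).union (((Set.finite_lt_nat n).image _).union ((Set.finite_lt_nat n).image _))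
  let H : ℕ → Subgroup G := fun n => Subgroup.closure (gens n)
  have hH : ∀ n, Finite (H n) := fun n => hlf (H n) ((Subgroup.fg_iff _).2 ⟨gens n, rfl, hgens n⟩)
  have hHm : ∀ n, H n ≤ H (n + 1) := by
    intro n
    refine Subgroup.closure_mono ?_
    refine Set.union_subset_union_right _ (Set.union_subset_union (Set.image_mono ?_)
      (Set.image_mono ?_))
    · intro i hi; exact Nat.lt_succ_of_lt hi
    · intro i hi; exact Nat.lt_succ_of_lt hi
  have hR0 : Subgroup.closure ({a, b} : Set G) ≤ H 0 :=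
    Subgroup.closure_mono Set.subset_union_left
  have hRn : ∀ n, Subgroup.closure ({(p n).1, (p n).2} : Set G) ≤ H (n + 1) := by
    intro n
    refine Subgroup.closure_mono ?_
    rintro x (rfl | hx)
    · exact Or.inr (Or.inl ⟨n, Nat.lt_succ_self n, rfl⟩)
    · rw [Set.mem_singleton_iff] at hx
      exact Or.inr (Or.inr ⟨n, Nat.lt_succ_self n, hx.symm⟩)
  -- the chain
  let Good : ℕ → Subgroup G → Prop := fun n Q => Q ≤ H n ∧ IsPGroup 2 Q ∧
    ∀ R : Subgroup G, R ≤ H n → IsPGroup 2 R → ∃ h : G, ∀ x ∈ R, h⁻¹ * x * h ∈ Q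
  obtain ⟨Q0, h0a, h0b, h0c, h0d⟩ := SylH.sylow (H 0) (Subgroup.closure ({a, b} : Set G)) hR0
    (SylH.four_two ha hb hab)
  have step : ∀ n (Q : {Q : Subgroup G // Good n Q}),
      ∃ Q' : {Q : Subgroup G // Good (n + 1) Q}, Q.1 ≤ Q'.1 := by
    rintro n ⟨Q, hQ1, hQ2, -⟩
    obtain ⟨Q', h1, h2, h3, h4⟩ := SylH.sylow (H (n + 1)) Q (hQ1.trans (hHm n)) hQ2
    exact ⟨⟨Q', h2, h3, h4⟩, h1⟩
  choose next hnext using step
  let S : ∀ n, {Q : Subgroup G // Good n Q} := fun n => Nat.rec ⟨Q0, h0b, h0c, h0d⟩ next n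
  have hS : ∀ n, (S n).1 ≤ (S (n + 1)).1 := fun n => hnext n (S n)
  have hSm : Monotone fun n => (S n).1 := monotone_nat_of_le_succ hS
  have hmem : ∀ x : G, x ∈ (⨆ n, (S n).1 : Subgroup G) ↔ ∃ n, x ∈ (S n).1 := fun x =>
    Subgroup.mem_iSup_of_directed hSm.directed_le
  refine ⟨⨆ n, (S n).1, ?_, ?_, ?_, ?_⟩
  · intro x hx
    obtain ⟨n, hn⟩ := (hmem x).1 hx
    obtain ⟨k, hk⟩ := (S n).2.2.1 ⟨x, hn⟩
    exact ⟨k, congrArg Subtype.val hk⟩
  · exact (hmem a).2 ⟨0, h0a (Subgroup.subset_closure (Or.inl rfl))⟩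
  · exact (hmem b).2 ⟨0, h0a (Subgroup.subset_closure (Or.inr rfl))⟩
  · intro n
    obtain ⟨h1, h2, h3⟩ := hp n
    obtain ⟨h, hh⟩ := (S (n + 1)).2.2.2 _ (hRn n) (SylH.four_two h1 h2 h3)
    exact ⟨h, (hmem _).2 ⟨n + 1, hh _ (Subgroup.subset_closure (Or.inl rfl))⟩,
      (hmem _).2 ⟨n + 1, hh _ (Subgroup.subset_closure (Or.inr rfl))⟩⟩

end Pool.Agent.FourGp.SR
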