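import Pool.Agent.Lib.MP_fb3619_al.SR.Ex

/-!
# MP_fb3619_al, board SR: row TT (THEOREM T)
-/

set_option autoImplicit false

universe u

namespace Pool.Agent.FourGp.SR

theorem chs_fin {G : Type u} [Group G] (X : Subgroup G) [Finite X] : Chs X := by
  refine ⟨⊥, bot_le, ?_, ?_, ?_, ?_⟩
  · intro x _ y hy
    rw [Subgroup.mem_bot] at hy ⊢
    rw [hy]; group
  · rw [Subgroup.relIndex_bot_left]
    exact Nat.card_pos.ne'
  · intro x hx y hy
    rw [Subgroup.mem_bot] at hx hy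
    rw [hx, hy]
  · refine (Set.finite_singleton (1 : G)).subset ?_
    rintro x ⟨hx, -⟩
    exact Subgroup.mem_bot.1 hx

/-- TT -/
theorem tt (hl : LfcS.{u}) (hn : NrmS.{u}) (h1 : StpS.{u}) (h2 : UpbS.{u}) : TtS.{u} := by
  intro G _ hG T a hT ha hCa hN
  have hPP : ∀ P, P ∉ PP T a := by
    intro P hP
    obtain ⟨M, -, hM⟩ := zorn_le_nonempty₀ (PP T a) (by
      intro c hc hch y hy
      obtain ⟨U, hU, hUb⟩ := h2 G hG T a hT ha hCa hN c hc ⟨y, hy⟩ hch
      exact ⟨U, hU, hUb⟩) P hP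
    obtain ⟨P', hP', hlt⟩ := h1 G hG T a hT hN M hM.prop
    exact absurd (hM.le_of_ge hP' hlt.le) (not_le_of_gt hlt)
  have haT : a ∈ T := hCa a rfl
  have hfin : ∀ Q : Subgroup G, Finite Q → a ∈ Q → Q ≤ T := by
    intro Q hQ haQ
    by_contra hcon
    have hne : Q ⊓ T ≠ Q := by
      intro h
      exact hcon (by rw [← h]; exact inf_le_right)
    obtain ⟨x, hx, hxn, -, hxN⟩ := hn G hG Q (Q ⊓ T) (chs_fin Q) inf_le_left hne
    exact hPP (Q ⊓ T) ⟨inf_le_right, ⟨haQ, haT⟩, x, fun h => hxn ⟨hx, h⟩, hxN⟩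
  have hconj : ∀ g : G, g⁻¹ * a * g ∈ T := by
    intro g
    have h3 : (g⁻¹ * a * g) ^ 2 = 1 := by
      have := conj_pow (i := 2) (a := g⁻¹) (b := a)
      rw [inv_inv] at this
      rw [this, ha, mul_one, inv_mul_cancel]
    obtain ⟨L, hL, haL, hgL⟩ := dih_fin ha h3 (fo hG _)
    exact hfin L hL haL hgL
  have hle : ∀ g : G, ∀ x ∈ T, g * x * g⁻¹ ∈ T := by
    intro g x hx
    set Y := Subgroup.closure ({x, g⁻¹ * a * g} : Set G) with hY
    have hYT : Y ≤ T := by
      rw [hY, Subgroup.closure_le]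
      rintro z (rfl | hz)
      · exact hx
      · rw [Set.mem_singleton_iff.1 hz]
        exact hconj g
    have hYf : Finite Y := hl G hG T hT Y hYT
      ((Subgroup.fg_iff Y).2 ⟨{x, g⁻¹ * a * g}, rfl, (Set.finite_singleton _).insert x⟩)
    have hf : Finite (cj Y g⁻¹) := by
      have hsub : ((cj Y g⁻¹ : Subgroup G) : Set G).Finite := by
        refine ((Set.toFinite (Y : Set G)).image (fun z => g * z * g⁻¹)).subset ?_
        intro z hz
        have hz' : g⁻¹ * z * g⁻¹⁻¹ ∈ Y := hz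
        refine ⟨g⁻¹ * z * g⁻¹⁻¹, hz', by group⟩
      exact hsub.to_subtype
    have h4 : cj Y g⁻¹ ≤ T := by
      refine hfin _ hf ?_
      rw [mem_cj, inv_inv]
      exact Subgroup.subset_closure (Set.mem_insert_of_mem _ rfl)
    refine h4 ?_
    rw [mem_cj, inv_inv]
    have e : g⁻¹ * (g * x * g⁻¹) * g = x := by group
    rw [e]
    exact Subgroup.subset_closure (Set.mem_insert _ _)
  rw [Subgroup.eq_top_iff']
  intro g
  refine hN g (nm_of ?_ (hle g))
  intro y hy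
  have := hle g⁻¹ y hy
  rwa [inv_inv] at this

end Pool.Agent.FourGp.SR
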