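import Pool.Agent.Lib.MP_fb3619_al.SR.Ex

/-!
# MP_fb3619_al, board SR: row UNI
-/

set_option autoImplicit false

universe u

namespace Pool.Agent.FourGp.SR

/-- elements of bounded order in an abelian group with few elements of order two -/
theorem ak_fin {G : Type u} [Group G] {A : Subgroup G} (hc : ∀ x ∈ A, ∀ y ∈ A, x * y = y * x)
    (h2 : {x : G | x ∈ A ∧ x ^ 2 = 1}.Finite) (k : ℕ) : {x : G | x ∈ A ∧ x ^ 2 ^ k = 1}.Finite := by
  induction k with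
  | zero =>
      refine (Set.finite_singleton (1 : G)).subset ?_
      rintro x ⟨-, hx⟩
      rw [pow_zero, pow_one] at hx
      exact hx
  | succ k ih =>
      have h3 : ∀ y : G, {x : G | x ∈ A ∧ x ^ 2 = y}.Finite := by
        intro y
        rcases Set.eq_empty_or_nonempty {x : G | x ∈ A ∧ x ^ 2 = y} with h | ⟨x0, hx0, hx0'⟩
        · rw [h]; exact Set.finite_empty
        · refine (h2.image (fun z => x0 * z)).subset ?_
          rintro x ⟨hx, hx'⟩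
          refine ⟨x0⁻¹ * x, ⟨A.mul_mem (A.inv_mem hx0) hx, ?_⟩, by simp⟩
          have hcm : Commute x0⁻¹ x := (show Commute x0 x from hc x0 hx0 x hx).inv_left
          rw [hcm.mul_pow, inv_pow, hx0', hx', inv_mul_cancel]
      refine (ih.biUnion fun y _ => h3 y).subset ?_
      rintro x ⟨hx, hx'⟩
      rw [Set.mem_iUnion₂]
      refine ⟨x ^ 2, ⟨A.pow_mem hx 2, ?_⟩, hx, rfl⟩
      rw [← pow_mul, ← pow_succ']
      exact hx'

/-- a finite subset of the union of a chain -/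
theorem chain_fin {G : Type u} [Group G] {K : Set (Subgroup G)} (hK : K.Nonempty)
    (hc : IsChain (· ≤ ·) K) {F : Set G} (hF : F.Finite) (h : ∀ x ∈ F, ∃ P ∈ K, x ∈ P) :
    ∃ P ∈ K, F ⊆ P := by
  induction F, hF using Set.Finite.induction_on with
  | empty =>
      obtain ⟨P, hP⟩ := hK
      exact ⟨P, hP, Set.empty_subset _⟩
  | insert _ _ ih =>
      obtain ⟨P, hP, hPs⟩ := ih fun x hx => h x (Set.mem_insert_of_mem _ hx)
      obtain ⟨Q, hQ, hQs⟩ := h _ (Set.mem_insert _ _)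
      rcases hc.total hP hQ with hPQ | hQP
      · exact ⟨Q, hQ, Set.insert_subset hQs (hPs.trans hPQ)⟩
      · exact ⟨P, hP, Set.insert_subset (hQP hQs) hPs⟩

/-- representatives of the cosets of a subgroup of finite index -/
theorem reps {G : Type u} [Group G] {A X : Subgroup G} (h : A.relIndex X ≠ 0) :
    ∃ F : Set G, F.Finite ∧ F ⊆ X ∧ ∀ x ∈ X, ∃ f ∈ F, f⁻¹ * x ∈ A := by
  have hfi : (A.subgroupOf X).FiniteIndex := ⟨h⟩
  haveI := (A.subgroupOf X).finite_quotient_of_finiteIndex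
  refine ⟨Set.range fun q : X ⧸ A.subgroupOf X => (q.out : G), Set.finite_range _, ?_, ?_⟩
  · rintro _ ⟨q, rfl⟩
    exact q.out.2
  · intro x hx
    refine ⟨_, ⟨((⟨x, hx⟩ : X) : X ⧸ A.subgroupOf X), rfl⟩, ?_⟩
    have h1 := QuotientGroup.eq.1 (QuotientGroup.out_eq' ((⟨x, hx⟩ : X) : X ⧸ A.subgroupOf X))
    exact Subgroup.mem_subgroupOf.1 h1

/-- UNI -/
theorem uni : UniS.{u} := by
  intro G _ hG U W hU hWU K hKn hKc hKU hcov hcof
  obtain ⟨A, hAU, hAn, hAi, hAc, hA2⟩ := hU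
  refine le_antisymm hWU ?_
  have hAW : A ≤ W := by
    intro x hx
    obtain ⟨k, hk⟩ := hG x
    obtain ⟨P, hP, hPs⟩ := chain_fin hKn hKc (ak_fin hAc hA2 k) fun y hy => hcov y (hAU hy.1)
    obtain ⟨Q, hQ, hPQ, u, hu, hcW⟩ := hcof P hP
    refine hcW ?_
    rw [mem_cj]
    refine hPQ (hPs ⟨?_, ?_⟩)
    · have := hAn u⁻¹ (U.inv_mem hu) x hx
      rwa [inv_inv] at this
    · rw [conj_pow, hk, mul_one, mul_inv_cancel]
  obtain ⟨F, hF, hFU, hFr⟩ := reps hAi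
  obtain ⟨P, hP, hPs⟩ := chain_fin hKn hKc hF fun y hy => hcov y (hFU hy)
  obtain ⟨Q, hQ, hPQ, u, hu, hcW⟩ := hcof P hP
  intro x hx
  obtain ⟨f, hf, hfx⟩ := hFr (u * x * u⁻¹) (U.mul_mem (U.mul_mem hu hx) (U.inv_mem hu))
  have h1 : u⁻¹ * f * u ∈ W := hcW (conj_mem_cj.2 (hPQ (hPs hf)))
  have h2 : u⁻¹ * (f⁻¹ * (u * x * u⁻¹)) * u ∈ W := hAW (hAn u hu _ hfx)
  have e : x = (u⁻¹ * f * u) * (u⁻¹ * (f⁻¹ * (u * x * u⁻¹)) * u) := by group
  rw [e]
  exact W.mul_mem h1 h2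

end Pool.Agent.FourGp.SR
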