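import Pool.Agent.Lib.MP_fb3619_al.SR.Ex
import Mathlib.Order.Directed

/-!
# MP_fb3619_al, board SR: row UPB
-/

set_option autoImplicit false

universe u

namespace Pool.Agent.FourGp.SR

variable {G : Type u} [Group G]

/-- a colour which occurs cofinally -/
theorem cofinal_colour {α : Type u} {K : Set (Subgroup G)} (hK : K.Nonempty)
    (hc : IsChain (· ≤ ·) K) {F : Set α} (hF : F.Finite) (f : Subgroup G → α)
    (hf : ∀ P ∈ K, f P ∈ F) : ∃ p ∈ F, ∀ P ∈ K, ∃ Q ∈ K, P ≤ Q ∧ f Q = p := by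
  by_contra hcon
  push Not at hcon
  choose! g hg1 hg2 using hcon
  have key : ∀ F' : Set α, F'.Finite → F' ⊆ F → ∃ P ∈ K, ∀ p ∈ F', g p ≤ P := by
    intro F' hF'
    induction F', hF' using Set.Finite.induction_on with
    | empty =>
        intro _
        obtain ⟨P, hP⟩ := hK
        exact ⟨P, hP, fun p hp => absurd hp (Set.notMem_empty p)⟩
    | @insert p s _ _ ih =>
        intro hs
        obtain ⟨P, hP, hPs⟩ := ih ((Set.subset_insert _ _).trans hs)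
        have hpF : p ∈ F := hs (Set.mem_insert _ _)
        rcases hc.total hP (hg1 p hpF) with h | h
        · refine ⟨g p, hg1 p hpF, ?_⟩
          intro q hq
          rcases Set.mem_insert_iff.1 hq with rfl | hq
          · exact le_rfl
          · exact (hPs q hq).trans h
        · refine ⟨P, hP, ?_⟩
          intro q hq
          rcases Set.mem_insert_iff.1 hq with rfl | hq
          · exact h
          · exact hPs q hq
  obtain ⟨P, hP, hPs⟩ := key F hF subset_rfl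
  exact hg2 (f P) (hf P hP) P hP (hPs _ (hf P hP)) rfl

theorem cj_fin {T : Subgroup G} {y : G} (hy : IsOfFinOrder y) (h : cj T y ≤ T) : Nm T y := by
  have h1 : ∀ n : ℕ, cj T (y ^ n) ≤ T := by
    intro n
    induction n with
    | zero =>
        intro z hz
        rw [mem_cj] at hz
        simpa using hz
    | succ n ih =>
        rw [pow_succ', ← cj_cj]
        exact (cj_mono h _).trans ih
  obtain ⟨n, hn, hyn⟩ := isOfFinOrder_iff_pow_eq_one.1 hy
  refine cj_eq_iff.1 (le_antisymm h ?_)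
  intro z hz
  obtain ⟨m, rfl⟩ := Nat.exists_eq_succ_of_ne_zero hn.ne'
  have h2 : z ∈ cj T (y ^ (m + 1)) := by
    rw [mem_cj, hyn]; simpa using hz
  rw [pow_succ, ← cj_cj] at h2
  exact cj_mono (h1 m) _ h2

theorem chs_cj {X : Subgroup G} (h : Chs X) (y : G) : Chs (cj X y) := by
  obtain ⟨A, hAX, hAn, hAi, hAc, hA2⟩ := h
  refine ⟨cj A y, cj_mono hAX y, ?_, ?_, ?_, ?_⟩
  · intro x hx z hz
    rw [mem_cj] at hx hz ⊢
    have := hAn _ hx _ hz
    rwa [show (y * x * y⁻¹)⁻¹ * (y * z * y⁻¹) * (y * x * y⁻¹) = y * (x⁻¹ * z * x) * y⁻¹ by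
      group] at this
  · have e : (cj A y).relIndex (cj X y) = A.relIndex X := by
      unfold cj
      rw [Subgroup.relIndex_comap, Subgroup.map_comap_eq_self_of_surjective]
      exact (MulAut.conj y).surjective
    rw [e]
    exact hAi
  · intro x hx z hz
    rw [mem_cj] at hx hz
    have := hAc _ hx _ hz
    have e : y * (x * z) * y⁻¹ = y * (z * x) * y⁻¹ := by
      calc y * (x * z) * y⁻¹ = (y * x * y⁻¹) * (y * z * y⁻¹) := by group
        _ = (y * z * y⁻¹) * (y * x * y⁻¹) := this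
        _ = y * (z * x) * y⁻¹ := by group
    exact mul_left_cancel (mul_right_cancel e)
  · refine (hA2.image (fun z => y⁻¹ * z * y)).subset ?_
    rintro x ⟨hx, hx2⟩
    refine ⟨y * x * y⁻¹, ⟨hx, ?_⟩, by group⟩
    rw [conj_pow, hx2, mul_one, mul_inv_cancel]

/-- UPB -/
theorem upb (hs : SubS.{u}) (hn : NrmS.{u}) (hp : PrcS.{u}) (hu : UniS.{u}) : UpbS.{u} := by
  intro G _ hG T a hT ha hCa hN K hK hKn hKc
  set U := sSup K with hU
  have hdir : DirectedOn (· ≤ ·) K := hKc.directedOn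
  have hmem : ∀ x, x ∈ U ↔ ∃ P ∈ K, x ∈ P := fun x => by
    rw [hU, Subgroup.mem_sSup_of_directedOn hKn hdir]
  have hUT : U ≤ T := sSup_le fun P hP => (hK hP).1
  have hUc : Chs U := hs G T U hT hUT
  obtain ⟨F, hF, hFU, hFc⟩ := hp G hG U hUc
  have hex : ∀ P ∈ K, ∃ t : G, t ∉ T ∧ Nm P t ∧ ∃ p ∈ F, ∃ u ∈ U, t⁻¹ * a * t = u⁻¹ * p.1 * u := by
    intro P hP
    obtain ⟨hPT, haP, t, htT, htn⟩ := hK hP
    have h1 : t⁻¹ * a * t ∈ P := htn.l haP
    have h2 : (t⁻¹ * a * t) ^ 2 = 1 := by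
      have := conj_pow (i := 2) (a := t⁻¹) (b := a)
      rw [inv_inv] at this
      rw [this, ha, mul_one, inv_mul_cancel]
    obtain ⟨p, hpF, u, hu, h3, -⟩ := hFc _ ((hmem _).2 ⟨P, hP, h1⟩) 1 U.one_mem h2 (one_pow 2)
      (by rw [mul_one, one_mul])
    exact ⟨t, htT, htn, p, hpF, u, hu, h3⟩
  choose! t htT htn p hpF u hu1 hu2 using hex
  obtain ⟨q, hqF, hq⟩ := cofinal_colour hKn hKc hF p hpF
  obtain ⟨P0, hP0⟩ := hKn
  obtain ⟨P1, hP1, -, hP1q⟩ := hq P0 hP0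
  set y := t P1 * (u P1)⁻¹ with hy
  have hya : y⁻¹ * a * y = q.1 := by
    rw [hy]
    calc (t P1 * (u P1)⁻¹)⁻¹ * a * (t P1 * (u P1)⁻¹)
        = u P1 * ((t P1)⁻¹ * a * t P1) * (u P1)⁻¹ := by group
      _ = u P1 * ((u P1)⁻¹ * (p P1).1 * u P1) * (u P1)⁻¹ := by rw [hu2 P1 hP1]
      _ = (p P1).1 := by group
      _ = q.1 := by rw [hP1q]
  have hdec : ∀ Q ∈ K, p Q = q → t Q * (u Q)⁻¹ * y⁻¹ ∈ T := by
    intro Q hQ hQq
    refine hCa _ ?_
    have h1 : (t Q)⁻¹ * a * t Q = (u Q)⁻¹ * (y⁻¹ * a * y) * u Q := by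
      rw [hu2 Q hQ, hQq, hya]
    calc t Q * (u Q)⁻¹ * y⁻¹ * a
        = t Q * ((u Q)⁻¹ * (y⁻¹ * a * y) * u Q) * (u Q)⁻¹ * y⁻¹ := by group
      _ = t Q * ((t Q)⁻¹ * a * t Q) * (u Q)⁻¹ * y⁻¹ := by rw [h1]
      _ = a * (t Q * (u Q)⁻¹ * y⁻¹) := by group
  have hyT : y ∉ T := by
    intro h
    have h1 := hdec P1 hP1 hP1q
    have h2 := T.mul_mem (T.mul_mem h1 h) (hUT (hu1 P1 hP1))
    have e : t P1 * (u P1)⁻¹ * y⁻¹ * y * u P1 = t P1 := by group
    rw [e] at h2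
    exact htT P1 hP1 h2
  have hW : U ⊓ cj T y = U := by
    refine hu G hG U (U ⊓ cj T y) hUc inf_le_left K ⟨P0, hP0⟩ hKc (fun P hP => le_sSup hP)
      (fun x hx => (hmem x).1 hx) ?_
    intro P hP
    obtain ⟨Q, hQ, hPQ, hQq⟩ := hq P hP
    refine ⟨Q, hQ, hPQ, (u Q)⁻¹, U.inv_mem (hu1 Q hQ), le_inf ?_ ?_⟩
    · intro z hz
      rw [mem_cj, inv_inv] at hz
      have h1 : (u Q)⁻¹ * z * u Q ∈ U := le_sSup hQ hz
      have h2 := U.mul_mem (U.mul_mem (hu1 Q hQ) h1) (U.inv_mem (hu1 Q hQ))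
      rwa [show u Q * ((u Q)⁻¹ * z * u Q) * (u Q)⁻¹ = z by group] at h2
    · set c := t Q * (u Q)⁻¹ * y⁻¹ with hc
      have hcT : c ∈ T := hdec Q hQ hQq
      have e1 : cj Q (c * y * u Q) = Q := by
        rw [show c * y * u Q = t Q by rw [hc]; group]
        exact cj_eq_iff.2 (htn Q hQ)
      have e2 : cj Q (u Q)⁻¹ = cj (cj Q c) y := by
        calc cj Q (u Q)⁻¹ = cj (cj Q (c * y * u Q)) (u Q)⁻¹ := by rw [e1]
          _ = cj Q (c * y) := by rw [cj_cj]; congr 1; group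
          _ = cj (cj Q c) y := by rw [cj_cj]
      rw [e2]
      refine cj_mono ?_ y
      calc cj Q c ≤ cj T c := cj_mono (hK hQ).1 c
        _ = T := cj_eq_iff.2 (Nm.of_mem hcT)
        _ ≤ T := le_rfl
  have hne : T ⊓ cj T y ≠ cj T y := by
    intro h
    have h1 : cj T y ≤ T := by rw [← h]; exact inf_le_left
    exact hyT (hN y (cj_fin (fo hG y) h1))
  obtain ⟨x, hx, hxn, -, hxN⟩ := hn G hG (cj T y) (T ⊓ cj T y) (chs_cj hT y) inf_le_right hne
  have hUle : U ≤ T ⊓ cj T y := le_inf hUT (by rw [← hW]; exact inf_le_right)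
  refine ⟨T ⊓ cj T y, ⟨inf_le_left, hUle ((hmem a).2 ⟨P0, hP0, (hK hP0).2.1⟩), x, ?_, hxN⟩, ?_⟩
  · intro hxT
    exact hxn ⟨hxT, hx⟩
  · intro P hP
    exact (le_sSup hP).trans hUle

end Pool.Agent.FourGp.SR
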