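import Pool.Agent.Lib.MP_fb3619_al.SR.Tcp
import Pool.Agent.Lib.MP_fb3619_al.SR.Ab2
import Pool.Agent.Lib.MP_fb3619_al.SR.Act
import Pool.Agent.Lib.MP_fb3619_al.SR.Cmp
import Pool.Agent.Lib.MP_fb3619_al.SR.Dvs
import Pool.Agent.Lib.MP_fb3619_al.SR.Fr
import Pool.Agent.Lib.MP_fb3619_al.SR.Lfc
import Pool.Agent.Lib.MP_fb3619_al.SR.Mlf
import Pool.Agent.Lib.MP_fb3619_al.SR.Nrm
import Pool.Agent.Lib.MP_fb3619_al.SR.Ome
import Pool.Agent.Lib.MP_fb3619_al.SR.Prc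
import Pool.Agent.Lib.MP_fb3619_al.SR.Prs
import Pool.Agent.Lib.MP_fb3619_al.SR.Pt
import Pool.Agent.Lib.MP_fb3619_al.SR.Rr
import Pool.Agent.Lib.MP_fb3619_al.SR.Shk
import Pool.Agent.Lib.MP_fb3619_al.SR.Stp
import Pool.Agent.Lib.MP_fb3619_al.SR.Sub
import Pool.Agent.Lib.MP_fb3619_al.SR.Syl
import Pool.Agent.Lib.MP_fb3619_al.SR.Tt
import Pool.Agent.Lib.MP_fb3619_al.SR.Uni
import Pool.Agent.Lib.MP_fb3619_al.SR.Upb
import Pool.Agent.Lib.MP_fb3619_al.SR.Yfi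
import Pool.Agent.Lib.MP_fb3619_al.H99.TheoC

/-!
# Board SR: assembly of THEOREM C+ (the V-theorem is the hypothesis `vt`)
-/

set_option autoImplicit false

universe u

namespace Pool.Agent.FourGp.SR

/-- THEOREM C+ from the V-theorem. -/
theorem tcpAll (vt : VtS.{u}) : TcpS.{u} := by
  have hprs : PrsS.{u} := prs ab2
  have hprc : PrcS.{u} := prc hprs
  have hrr : RrS.{u} := rr ome (act dvs) (yfi hprs) cmp
  have htt : TtS.{u} := tt lfc nrm (stp sub ovr nrm) (upb sub nrm hprc uni)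
  have hpt : PtS.{u} := pt mlf hrr htt lfc
  have hfr : FrS.{u} := fr syl hrr hprc
  exact tcp hfr hpt lfc (shk hfr) vt Pool.Agent.FourGp.H99.part4_theoC

end Pool.Agent.FourGp.SR
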