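import Pool.Agent.Lib.MP_fb3619_al.SR.Iface

/-!
# MP_fb3619_al, board SR: extension of a subgroup by an element which normalizes it
-/

set_option autoImplicit false

universe u

namespace Pool.Agent.FourGp.SR

variable {G : Type u} [Group G]

theorem Nm.l {P : Subgroup G} {x y : G} (h : Nm P x) (hy : y ∈ P) : x⁻¹ * y * x ∈ P := (h y).1 hy

theorem Nm.r {P : Subgroup G} {x y : G} (h : Nm P x) (hy : y ∈ P) : x * y * x⁻¹ ∈ P := by
  refine (h _).2 ?_
  have : x⁻¹ * (x * y * x⁻¹) * x = y := by group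
  rwa [this]

theorem nm_of {P : Subgroup G} {x : G} (h1 : ∀ y ∈ P, x⁻¹ * y * x ∈ P)
    (h2 : ∀ y ∈ P, x * y * x⁻¹ ∈ P) : Nm P x := by
  intro y
  constructor
  · exact h1 y
  · intro h
    have := h2 _ h
    have e : x * (x⁻¹ * y * x) * x⁻¹ = y := by group
    rwa [e] at this

theorem Nm.one (P : Subgroup G) : Nm P 1 := nm_of (fun y hy => by simpa using hy)
  fun y hy => by simpa using hy

theorem Nm.mul {P : Subgroup G} {x y : G} (hx : Nm P x) (hy : Nm P y) : Nm P (x * y) := by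
  refine nm_of (fun z hz => ?_) fun z hz => ?_
  · have := hy.l (hx.l hz)
    rwa [show y⁻¹ * (x⁻¹ * z * x) * y = (x * y)⁻¹ * z * (x * y) by group] at this
  · have := hx.r (hy.r hz)
    rwa [show x * (y * z * y⁻¹) * x⁻¹ = (x * y) * z * (x * y)⁻¹ by group] at this

theorem Nm.inv {P : Subgroup G} {x : G} (hx : Nm P x) : Nm P x⁻¹ := by
  refine nm_of (fun z hz => ?_) fun z hz => ?_
  · rw [inv_inv]; exact hx.r hz
  · rw [inv_inv]; exact hx.l hz

theorem Nm.pow {P : Subgroup G} {x : G} (hx : Nm P x) (n : ℕ) : Nm P (x ^ n) := by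
  induction n with
  | zero => rw [pow_zero]; exact Nm.one P
  | succ n ih => rw [pow_succ]; exact ih.mul hx

theorem Nm.zpow {P : Subgroup G} {x : G} (hx : Nm P x) (n : ℤ) : Nm P (x ^ n) := by
  cases n with
  | ofNat n => rw [Int.ofNat_eq_natCast, zpow_natCast]; exact hx.pow n
  | negSucc n => rw [zpow_negSucc]; exact (hx.pow _).inv

theorem Nm.of_mem {P : Subgroup G} {x : G} (hx : x ∈ P) : Nm P x :=
  nm_of (fun _ hy => P.mul_mem (P.mul_mem (P.inv_mem hx) hy) hx)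
    fun _ hy => P.mul_mem (P.mul_mem hx hy) (P.inv_mem hx)

/-- `P` extended by `x` -/
def ex (P : Subgroup G) (x : G) (h : Nm P x) : Subgroup G where
  carrier := {y | ∃ i : ℤ, x ^ i * y ∈ P}
  one_mem' := ⟨0, by simp⟩
  mul_mem' := by
    rintro y z ⟨i, hi⟩ ⟨j, hj⟩
    refine ⟨j + i, ?_⟩
    have h1 := P.mul_mem ((h.zpow j).r hi) hj
    have e : x ^ j * (x ^ i * y) * (x ^ j)⁻¹ * (x ^ j * z) = x ^ (j + i) * (y * z) := by
      rw [zpow_add]; group
    rwa [e] at h1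
  inv_mem' := by
    rintro y ⟨i, hi⟩
    refine ⟨-i, ?_⟩
    have h1 := (h.zpow i).l (P.inv_mem hi)
    have e : (x ^ i)⁻¹ * (x ^ i * y)⁻¹ * x ^ i = x ^ (-i) * y⁻¹ := by
      rw [zpow_neg]; group
    rwa [e] at h1

theorem mem_ex {P : Subgroup G} {x y : G} {h : Nm P x} :
    y ∈ ex P x h ↔ ∃ i : ℤ, x ^ i * y ∈ P := Iff.rfl

theorem le_ex {P : Subgroup G} {x : G} (h : Nm P x) : P ≤ ex P x h :=
  fun y hy => ⟨0, by simpa using hy⟩

theorem x_ex {P : Subgroup G} {x : G} (h : Nm P x) : x ∈ ex P x h :=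
  ⟨-1, by simp⟩

/-- finite index from a finite set of representatives -/
theorem ri_ne {K L : Subgroup G} {F : Set G} (hF : F.Finite) (h : ∀ l ∈ L, ∃ f ∈ F, f⁻¹ * l ∈ K) :
    K.relIndex L ≠ 0 := by
  haveI := hF.to_subtype
  choose f hf1 hf2 using h
  have : Finite (L ⧸ K.subgroupOf L) := by
    refine Finite.of_injective
      (fun q : L ⧸ K.subgroupOf L => (⟨f q.out q.out.2, hf1 _ _⟩ : F)) ?_
    intro p q hpq
    have h1 : f p.out p.out.2 = f q.out q.out.2 := congrArg Subtype.val hpq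
    have h2 := hf2 p.out p.out.2
    have h3 := hf2 q.out q.out.2
    rw [← h1] at h3
    have h4 := K.mul_mem (K.inv_mem h2) h3
    have h5 : (p.out : L)⁻¹ * q.out ∈ K.subgroupOf L := by
      rw [Subgroup.mem_subgroupOf]
      have e : ((f p.out p.out.2)⁻¹ * (p.out : G))⁻¹ * ((f p.out p.out.2)⁻¹ * (q.out : G)) =
          ((p.out : L)⁻¹ * q.out : L) := by
        push_cast
        group
      rwa [e] at h4
    have h6 : ((p.out : L) : L ⧸ K.subgroupOf L) = (q.out : L) := QuotientGroup.eq.2 h5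
    rwa [QuotientGroup.out_eq', QuotientGroup.out_eq'] at h6
  rw [Subgroup.relIndex]
  exact Subgroup.index_ne_zero_of_finite

theorem ri_ex {P : Subgroup G} {x : G} (h : Nm P x) (hx : IsOfFinOrder x) :
    P.relIndex (ex P x h) ≠ 0 := by
  have hfin : (Subgroup.zpowers x : Set G).Finite := by
    rw [finite_zpowers]; exact hx
  refine ri_ne (F := (Subgroup.zpowers x : Set G)) hfin ?_
  rintro l ⟨i, hi⟩
  refine ⟨x ^ (-i), ⟨-i, rfl⟩, ?_⟩
  rwa [zpow_neg, inv_inv]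

/-- two elements whose squares are in `P` -/
theorem dih {P : Subgroup G} {s t : G} (hs : Nm P s) (ht : Nm P t) (hs2 : s ^ 2 ∈ P)
    (ht2 : t ^ 2 ∈ P) (h1 : IsOfFinOrder (s * t)) (h2 : IsOfFinOrder s) :
    ∃ L : Subgroup G, P ≤ L ∧ s ∈ L ∧ t ∈ L ∧ P.relIndex L ≠ 0 := by
  have hn : Nm P (s * t) := hs.mul ht
  set K := ex P (s * t) hn with hK
  have hPK : P ≤ K := le_ex hn
  have hxK : s * t ∈ K := x_ex hn
  have hts : t * s ∈ K := by
    have e : t * s = (t * s ^ 2 * t⁻¹) * t ^ 2 * (s * t)⁻¹ := by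
      rw [pow_two, pow_two]; group
    rw [e]
    exact K.mul_mem (K.mul_mem (hPK (ht.r hs2)) (hPK ht2)) (K.inv_mem hxK)
  have e1 : s⁻¹ * (s * t) * s = t * s := by group
  have e2 : s * (s * t) * s⁻¹ = s ^ 2 * (t * s) * (s ^ 2)⁻¹ := by rw [pow_two]; group
  have hsK : Nm K s := by
    have key : ∀ w : G, Nm P w → w⁻¹ * (s * t) * w ∈ K → ∀ y ∈ K, w⁻¹ * y * w ∈ K := by
      intro w hw hw2 y hy
      obtain ⟨i, hi⟩ := hy
      have h3 : w⁻¹ * ((s * t) ^ i * y) * w ∈ K := hPK (hw.l hi)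
      have h4 : (w⁻¹ * (s * t) * w) ^ i ∈ K := K.zpow_mem hw2 i
      have e3 : (w⁻¹ * (s * t) * w) ^ i = w⁻¹ * (s * t) ^ i * w := by
        have := conj_zpow (a := w⁻¹) (b := s * t) (i := i)
        rwa [inv_inv] at this
      rw [e3] at h4
      have h5 := K.mul_mem (K.inv_mem h4) h3
      have e4 : (w⁻¹ * (s * t) ^ i * w)⁻¹ * (w⁻¹ * ((s * t) ^ i * y) * w) = w⁻¹ * y * w := by
        group
      rwa [e4] at h5
    refine nm_of (key s hs (by rw [e1]; exact hts)) ?_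
    intro y hy
    have := key s⁻¹ hs.inv (by
      rw [inv_inv, e2]
      exact K.mul_mem (K.mul_mem (hPK hs2) hts) (K.inv_mem (hPK hs2))) y hy
    rwa [inv_inv] at this
  refine ⟨ex K s hsK, hPK.trans (le_ex hsK), x_ex hsK, ?_, ?_⟩
  · have e : t = s⁻¹ * (s * t) := by group
    rw [e]
    exact Subgroup.mul_mem _ (Subgroup.inv_mem _ (x_ex hsK)) (le_ex hsK hxK)
  · rw [← Subgroup.relIndex_mul_relIndex P K (ex K s hsK) hPK (le_ex hsK)]
    exact mul_ne_zero (ri_ex hn h1) (ri_ex hsK h2)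

/-- a two-generated group of this kind is finite -/
theorem dih_fin {s t : G} (hs2 : s ^ 2 = 1) (ht2 : t ^ 2 = 1) (h1 : IsOfFinOrder (s * t)) :
    ∃ L : Subgroup G, Finite L ∧ s ∈ L ∧ t ∈ L := by
  have hb : ∀ x : G, Nm (⊥ : Subgroup G) x := by
    intro x y
    rw [Subgroup.mem_bot, Subgroup.mem_bot]
    constructor
    · intro h; rw [h]; group
    · intro h
      have : y = x * (x⁻¹ * y * x) * x⁻¹ := by group
      rw [this, h]; group
  obtain ⟨L, -, h2, h3, h4⟩ := dih (P := ⊥) (hb s) (hb t) (by rw [hs2]; exact Subgroup.one_mem _)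
    (by rw [ht2]; exact Subgroup.one_mem _) h1 (isOfFinOrder_iff_pow_eq_one.2 ⟨2, by norm_num, hs2⟩)
  rw [Subgroup.relIndex_bot_left] at h4
  exact ⟨L, Nat.finite_of_card_ne_zero h4, h2, h3⟩

theorem fo (hG : IsPGroup 2 G) (x : G) : IsOfFinOrder x := by
  obtain ⟨k, hk⟩ := hG x
  exact isOfFinOrder_iff_pow_eq_one.2 ⟨2 ^ k, by positivity, hk⟩

/-- the last power outside a subgroup -/
theorem last_pow (hG : IsPGroup 2 G) {P : Subgroup G} {x : G} (hx : x ∉ P) :
    ∃ j : ℕ, x ^ 2 ^ j ∉ P ∧ (x ^ 2 ^ j) ^ 2 ∈ P := by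
  classical
  have h : ∃ k : ℕ, x ^ 2 ^ k ∈ P := by
    obtain ⟨k, hk⟩ := hG x
    exact ⟨k, by rw [hk]; exact P.one_mem⟩
  have h0 : Nat.find h ≠ 0 := by
    intro h0
    have := Nat.find_spec h
    rw [h0, pow_zero, pow_one] at this
    exact hx this
  obtain ⟨j, hj⟩ := Nat.exists_eq_succ_of_ne_zero h0
  refine ⟨j, Nat.find_min h (by omega), ?_⟩
  have := Nat.find_spec h
  rw [hj] at this
  rwa [← pow_mul, ← pow_succ]

end Pool.Agent.FourGp.SR
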