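import Pool.Agent.Lib.MP_fb3619_al.V.All
import Pool.Agent.Lib.MP_fb3619_al.SR.All

/-!
# Board SR: THEOREM C+ (no hypotheses left)
-/

set_option autoImplicit false

universe u

namespace Pool.Agent.FourGp.SR

/-- The V-theorem. -/
theorem vt : VtS.{u} := by
  intro G _ hG R hR4 hR2 N hN hN2 hfin H hH hfg
  have hT : Monoid.IsTorsion G := fun g => by
    obtain ⟨n, hn, h⟩ := hG g
    exact isOfFinOrder_iff_pow_eq_one.2 ⟨n, hn, h⟩
  exact (FF.Vt.resV FF.Vt.vthm' G hT R hR4 hR2 N hN2 hfin).1 H hH hfg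

/-- THEOREM C+. -/
theorem tcp' : TcpS.{u} := tcpAll vt

end Pool.Agent.FourGp.SR
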