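import Pool.Agent.Lib.MP_fb3619_al.SR.Iface

/-!
# MP_fb3619_al, board SR: row PRC

Paper `SR/Paper.md` (0.5), consequence: in a 2-group of Chernikov type the pairs of commuting
elements of square one fall into finitely many classes.
-/

set_option autoImplicit false

universe u

namespace Pool.Agent.FourGp.SR

/-- PRC (0.5, consequence). -/
theorem prc (prs : PrsS.{u}) : PrcS.{u} := by
  classical
  intro G _ hG X hX
  obtain ⟨A, hAX, hnorm, hidx, hcomm, hfin⟩ := hX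
  haveI : (A.subgroupOf X).FiniteIndex := ⟨hidx⟩
  haveI : Finite (X ⧸ A.subgroupOf X) := Subgroup.finite_quotient_of_finiteIndex
  have h2 : ∀ x ∈ A, ∃ k : ℕ, x ^ 2 ^ k = 1 := fun x _ => hG x
  have key : ∀ q : (X ⧸ A.subgroupOf X) × (X ⧸ A.subgroupOf X), ∃ F : Set (G × G), F.Finite ∧
      ∀ a' b' : X, (a' : X ⧸ A.subgroupOf X) = q.1 → (b' : X ⧸ A.subgroupOf X) = q.2 →
        (a' : G) ^ 2 = 1 → (b' : G) ^ 2 = 1 → (a' : G) * b' = b' * a' →
        ∃ p ∈ F, ∃ x ∈ A, (a' : G) = x⁻¹ * p.1 * x ∧ (b' : G) = x⁻¹ * p.2 * x := by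
    intro q
    by_cases hq : ∃ a b : X, (a : X ⧸ A.subgroupOf X) = q.1 ∧ (b : X ⧸ A.subgroupOf X) = q.2 ∧
        (a : G) ^ 2 = 1 ∧ (b : G) ^ 2 = 1 ∧ (a : G) * b = b * a
    · obtain ⟨a, b, haq, hbq, ha2, hb2, hab⟩ := hq
      obtain ⟨F, hF, hFp⟩ := prs G A hcomm h2 hfin a b (hnorm a a.2) (hnorm b b.2) ha2 hb2 hab
      refine ⟨F, hF, ?_⟩
      intro a' b' haq' hbq' ha2' hb2' hab'
      apply hFp a' b' _ _ ha2' hb2' hab'
      · have := QuotientGroup.eq.mp (haq.trans haq'.symm)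
        rw [Subgroup.mem_subgroupOf] at this
        exact this
      · have := QuotientGroup.eq.mp (hbq.trans hbq'.symm)
        rw [Subgroup.mem_subgroupOf] at this
        exact this
    · refine ⟨∅, Set.finite_empty, ?_⟩
      intro a' b' haq' hbq' ha2' hb2' hab'
      exact absurd ⟨a', b', haq', hbq', ha2', hb2', hab'⟩ hq
  choose F hF hFp using key
  refine ⟨{p | p ∈ (⋃ q, F q) ∧ p.1 ∈ X ∧ p.2 ∈ X},
    (Set.finite_iUnion hF).subset fun p hp => hp.1, fun p hp => hp.2, ?_⟩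
  intro a' ha' b' hb' ha2 hb2 hab
  obtain ⟨p, hp, x, hx, h1, h2'⟩ := hFp (((⟨a', ha'⟩ : X) : X ⧸ A.subgroupOf X),
    ((⟨b', hb'⟩ : X) : X ⧸ A.subgroupOf X)) ⟨a', ha'⟩ ⟨b', hb'⟩ rfl rfl ha2 hb2 hab
  have h1' : a' = x⁻¹ * p.1 * x := h1
  have h2'' : b' = x⁻¹ * p.2 * x := h2'
  have hxX : x ∈ X := hAX hx
  refine ⟨p, ⟨Set.mem_iUnion.mpr ⟨_, hp⟩, ?_, ?_⟩, x, hxX, h1', h2''⟩
  · have : p.1 = x * a' * x⁻¹ := by rw [h1']; group
    rw [this]
    exact X.mul_mem (X.mul_mem hxX ha') (X.inv_mem hxX)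
  · have : p.2 = x * b' * x⁻¹ := by rw [h2'']; group
    rw [this]
    exact X.mul_mem (X.mul_mem hxX hb') (X.inv_mem hxX)

end Pool.Agent.FourGp.SR
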