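import Pool.Agent.Lib.MP_fb3619_al.SR.Iface
import Pool.Agent.Lib.MP_fb3619_al.H78.Hyper
import Pool.Agent.Lib.MP_fb3619_al.H99.TheoD

/-!
# Board SR, row TC: THEOREM C (assembly)
-/

set_option autoImplicit false

universe u

namespace Pool.Agent.FourGp.SR

open Pool.Agent.FourGp.H99 (LF)

/-- Ascending normal series, with the local finiteness of the smaller group available. -/
theorem lf_series {G : Type u} [Group G] (C : Set (Subgroup G)) (h0 : ⊥ ∈ C)
    (hs : ∀ c ⊆ C, c.Nonempty → IsChain (· ≤ ·) c → sSup c ∈ C)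
    (h : ∀ M ∈ C, M ≠ ⊤ → (∀ S ≤ M, S.FG → Finite S) →
      ∃ N ∈ C, M < N ∧ ∀ S ≤ N, S.FG → M.relIndex S ≠ 0) :
    ∀ S : Subgroup G, S.FG → Finite S := by
  let P : Set (Subgroup G) := {M | M ∈ C ∧ ∀ S ≤ M, S.FG → Finite S}
  have hP : ∀ c ⊆ P, IsChain (· ≤ ·) c → ∃ ub ∈ P, ∀ z ∈ c, z ≤ ub := by
    intro c hcP hc
    rcases c.eq_empty_or_nonempty with rfl | hne
    · refine ⟨⊥, ⟨h0, fun S hS _ => ?_⟩, by simp⟩
      rw [le_bot_iff] at hS
      subst hS
      infer_instance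
    · exact ⟨sSup c, ⟨hs c (fun M hM => (hcP hM).1) hne hc,
        lf_sup c hc hne (fun M hM => (hcP hM).2)⟩, fun z hz => le_sSup hz⟩
  obtain ⟨M, hM⟩ := zorn_le₀ P hP
  have hMt : M = ⊤ := by
    by_contra hne
    obtain ⟨N, hN, hlt, h1⟩ := h M hM.prop.1 hne hM.prop.2
    have h2 : N ∈ P := ⟨hN, lf_ext hM.prop.2 h1⟩
    exact hlt.not_ge (hM.le_of_ge h2 hlt.le)
  intro S hS
  exact hM.prop.2 S (hMt ▸ le_top) hS

/-- From local finiteness of the image in the quotient to finite indices. -/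
theorem relIndex_of_map {G : Type u} [Group G] (M : Subgroup G) [M.Normal] (S : Subgroup G)
    (h : Finite (S.map (QuotientGroup.mk' M))) : M.relIndex S ≠ 0 := by
  let f : S →* S.map (QuotientGroup.mk' M) := (QuotientGroup.mk' M).subgroupMap S
  have h4 : f.ker = M.subgroupOf S := by
    ext x
    rw [MonoidHom.mem_ker, Subgroup.mem_subgroupOf]
    constructor
    · intro h
      have : (QuotientGroup.mk' M) (x : G) = 1 := congrArg Subtype.val h
      exact (QuotientGroup.eq_one_iff (x : G)).1 this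
    · intro h
      apply Subtype.ext
      exact (QuotientGroup.eq_one_iff (x : G)).2 h
  show (M.subgroupOf S).index ≠ 0
  rw [← h4, Subgroup.index_ker]
  exact Nat.card_pos.ne'

/-- Generators of a group of exponent two and order four. -/
theorem four_gen {G : Type u} [Group G] (R : Subgroup G) (hR4 : Nat.card R = 4)
    (hR : ∀ r ∈ R, r ^ 2 = 1) : ∃ a ∈ R, ∃ b ∈ R, a * b = b * a ∧
      ∀ r ∈ R, r = 1 ∨ r = a * b ∨ r = a ∨ r = b := by
  classical
  have hfin : Finite R := Nat.finite_of_card_ne_zero (by rw [hR4]; norm_num)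
  have hRR : ∀ r ∈ R, r * r = 1 := fun r hr => by rw [← pow_two]; exact hR r hr
  have hbig : ∀ t : G, ∃ r ∈ R, r ≠ 1 ∧ r ≠ t := by
    intro t
    by_contra hne
    push Not at hne
    have hsub : (R : Set G) ⊆ (({1, t} : Finset G) : Set G) := by
      intro x hx
      by_cases hx1 : x = 1
      · simp [hx1]
      · simp [hne x hx hx1]
    have h1 := Set.ncard_le_ncard hsub (Finset.finite_toSet _)
    rw [Set.ncard_coe_finset] at h1
    have h2 : (R : Set G).ncard = Nat.card R := rfl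
    rw [h2, hR4] at h1
    have h3 := Finset.card_le_two (a := (1 : G)) (b := t)
    omega
  obtain ⟨a, ha, ha1, -⟩ := hbig 1
  obtain ⟨b, hb, hb1, hba⟩ := hbig a
  obtain ⟨h1, -, h2⟩ := Pool.Agent.FourGp.H99.fourR R hR4 hRR ha hb ha1 hb1 (Ne.symm hba)
  exact ⟨a, ha, b, hb, h1, h2⟩

section

variable {G : Type u} [Group G]

theorem tor_quot (hG : ∀ g : G, ∃ n : ℕ, 0 < n ∧ g ^ n = 1) (M : Subgroup G) [M.Normal] :
    ∀ q : G ⧸ M, ∃ n : ℕ, 0 < n ∧ q ^ n = 1 := by
  intro q
  obtain ⟨g, rfl⟩ := QuotientGroup.mk_surjective q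
  obtain ⟨n, hn, h⟩ := hG g
  exact ⟨n, hn, by rw [← QuotientGroup.mk_pow, h, QuotientGroup.mk_one]⟩

/-- The 2-group case. -/
theorem two_case (pt : PtS.{u}) (lfc : LfcS.{u}) (a b : G) (ha : a ^ 2 = 1) (hb : b ^ 2 = 1)
    (hab : a * b = b * a) (hfin : {x : G | x * a = a * x ∧ x * b = b * x}.Finite)
    (N : Subgroup G) [N.Normal] (hN : ∀ n ∈ N, ∃ k : ℕ, n ^ 2 ^ k = 1) :
    ∀ H ≤ N, H.FG → Finite H := by
  -- the group `N <a, b>`
  let V : Subgroup G := Subgroup.closure {a, b}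
  have hV : ∀ v ∈ V, v ^ 2 = 1 ∧ v * a = a * v ∧ v * b = b * v := by
    intro v hv
    induction hv using Subgroup.closure_induction with
    | mem x hx =>
      rcases hx with rfl | hx
      · exact ⟨ha, rfl, hab⟩
      · rw [Set.mem_singleton_iff] at hx
        subst hx
        exact ⟨hb, hab.symm, rfl⟩
    | one => exact ⟨one_pow 2, by rw [one_mul, mul_one], by rw [one_mul, mul_one]⟩
    | mul x y hx hy h1 h2 =>
      have hxy : x * y = y * x := by
        have hcl : ∀ z ∈ Subgroup.closure ({a, b} : Set G), x * z = z * x := by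
          intro z hz
          induction hz using Subgroup.closure_induction with
          | mem w hw =>
            rcases hw with rfl | hw
            · exact h1.2.1
            · rw [Set.mem_singleton_iff] at hw
              subst hw
              exact h1.2.2
          | one => rw [one_mul, mul_one]
          | mul u w hu hw e1 e2 =>
            rw [← mul_assoc, e1, mul_assoc, e2, mul_assoc]
          | inv u hu e1 =>
            calc x * u⁻¹ = u⁻¹ * (u * x) * u⁻¹ := by group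
              _ = u⁻¹ * (x * u) * u⁻¹ := by rw [e1]
              _ = u⁻¹ * x := by group
        exact hcl y hy
      refine ⟨?_, ?_, ?_⟩
      · rw [(Commute.mul_pow (show Commute x y from hxy) 2), h1.1, h2.1, one_mul]
      · rw [mul_assoc, h2.2.1, ← mul_assoc, h1.2.1, mul_assoc]
      · rw [mul_assoc, h2.2.2, ← mul_assoc, h1.2.2, mul_assoc]
    | inv x hx h1 =>
      refine ⟨by rw [inv_pow, h1.1, inv_one], ?_, ?_⟩
      · calc x⁻¹ * a = x⁻¹ * (a * x) * x⁻¹ := by group
          _ = x⁻¹ * (x * a) * x⁻¹ := by rw [h1.2.1]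
          _ = a * x⁻¹ := by group
      · calc x⁻¹ * b = x⁻¹ * (b * x) * x⁻¹ := by group
          _ = x⁻¹ * (x * b) * x⁻¹ := by rw [h1.2.2]
          _ = b * x⁻¹ := by group
  let X : Subgroup G := N ⊔ V
  have haX : a ∈ X := (le_sup_right : V ≤ X) (Subgroup.subset_closure (by simp))
  have hbX : b ∈ X := (le_sup_right : V ≤ X) (Subgroup.subset_closure (by simp))
  have hX2 : IsPGroup 2 X := by
    rintro ⟨x, hx⟩
    obtain ⟨n, hn, v, hv, rfl⟩ := Subgroup.mem_sup_of_normal_left.1 hx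
    have h1 : (n * v) ^ 2 ∈ N := by
      have e : (n * v) ^ 2 = n * (v * n * v⁻¹) * v ^ 2 := by
        rw [pow_two, pow_two]
        group
      rw [e, (hV v hv).1, mul_one]
      exact N.mul_mem hn (Subgroup.Normal.conj_mem inferInstance n hn v)
    obtain ⟨k, hk⟩ := hN _ h1
    refine ⟨k + 1, Subtype.ext ?_⟩
    show (n * v) ^ 2 ^ (k + 1) = 1
    rw [pow_succ', pow_mul, hk]
  have hX : Chs (⊤ : Subgroup X) := by
    refine pt X hX2 ⟨a, haX⟩ ⟨b, hbX⟩ (Subtype.ext ha) (Subtype.ext hb) (Subtype.ext hab) ?_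
    refine (hfin.preimage (f := fun x : X => (x : G)) (Subtype.val_injective.injOn)).subset ?_
    rintro x ⟨h1, h2⟩
    exact ⟨congrArg Subtype.val h1, congrArg Subtype.val h2⟩
  intro H hH hfg
  have hHX : H ≤ X := hH.trans le_sup_left
  have e := Subgroup.subgroupOfEquivOfLe hHX
  have : Group.FG H := (Group.fg_iff_subgroup_fg _).2 hfg
  have : Group.FG (H.subgroupOf X) :=
    Group.fg_of_surjective (f := e.symm.toMonoidHom) e.symm.surjective
  have h2 := lfc X hX2 ⊤ hX (H.subgroupOf X) le_top ((Group.fg_iff_subgroup_fg _).1 this)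
  exact Finite.of_equiv _ e.toEquiv

/-- TC. -/
theorem tc (fr : FrS.{u}) (pt : PtS.{u}) (lfc : LfcS.{u}) (inv : InvS.{u}) (vt : VtS.{u}) :
    TcS.{u} := by
  intro G _ hG R hR4 hR2 hfin C hn h0 hs h
  obtain ⟨a, ha, b, hb, hab, hgen⟩ := four_gen R hR4 hR2
  have hfinC : {x : G | x * a = a * x ∧ x * b = b * x}.Finite := by
    have h1 : ((Subgroup.centralizer (R : Set G) : Subgroup G) : Set G).Finite := Set.toFinite _
    refine h1.subset ?_
    rintro x ⟨h1, h2⟩
    rw [SetLike.mem_coe, Subgroup.mem_centralizer_iff]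
    intro r hr
    rcases hgen r hr with rfl | rfl | rfl | rfl
    · rw [one_mul, mul_one]
    · rw [mul_assoc, ← h2, ← mul_assoc, ← h1, mul_assoc]
    · exact h1.symm
    · exact h2.symm
  refine lf_series C h0 hs fun M hMC hMt hMlf => ?_
  obtain ⟨N, hNC, hlt, h1⟩ := h M hMC hMt
  have hMn := hn M hMC
  have hNn := hn N hNC
  refine ⟨N, hNC, hlt, ?_⟩
  rcases h1 with h1 | h1
  · exact h1
  have hMLF : LF M := by
    intro S hS
    have h2 : (S.map M.subtype).FG := fg_map hS _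
    have := hMlf _ (by rintro x ⟨y, -, rfl⟩; exact y.2) h2
    exact Finite.of_equiv _ (S.equivMapOfInjective M.subtype M.subtype_injective).symm.toEquiv
  have hfinQ := fr G M hMLF a b (hR2 a ha) (hR2 b hb) hab hfinC
  have hGq := tor_quot hG M
  have haq : ((a : G ⧸ M)) ^ 2 = 1 := by
    rw [← QuotientGroup.mk_pow, hR2 a ha, QuotientGroup.mk_one]
  have hbq : ((b : G ⧸ M)) ^ 2 = 1 := by
    rw [← QuotientGroup.mk_pow, hR2 b hb, QuotientGroup.mk_one]
  have habq : (a : G ⧸ M) * (b : G ⧸ M) = (b : G ⧸ M) * (a : G ⧸ M) := by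
    rw [← QuotientGroup.mk_mul, hab, QuotientGroup.mk_mul]
  let π := QuotientGroup.mk' M
  have hN1 : (N.map π).Normal := Subgroup.Normal.map hNn π (QuotientGroup.mk'_surjective M)
  suffices hlf : ∀ H ≤ N.map π, H.FG → Finite H by
    intro S hS hfg
    exact relIndex_of_map M S (hlf _ (Subgroup.map_mono hS) (fg_map hfg _))
  rcases h1 with h1 | h1
  · refine two_case pt lfc (a : G ⧸ M) (b : G ⧸ M) haq hbq habq hfinQ (N.map π) ?_
    rintro _ ⟨n, hnN, rfl⟩
    obtain ⟨k, hk⟩ := h1 n hnN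
    refine ⟨k, ?_⟩
    rw [← map_pow]
    exact (QuotientGroup.eq_one_iff _).2 hk
  -- no involutions in `N / M`
  have hno : ∀ g ∈ N.map π, g ^ 2 = 1 → g = 1 := by
    rintro _ ⟨n, hnN, rfl⟩ h2
    rw [← map_pow] at h2
    exact (QuotientGroup.eq_one_iff _).2 (h1 n hnN ((QuotientGroup.eq_one_iff _).1 h2))
  -- the image of `R`
  have hRq2 : ∀ r ∈ R.map π, r ^ 2 = 1 := by
    rintro _ ⟨r, hr, rfl⟩
    rw [← map_pow, hR2 r hr, map_one]
  have hRgen : ∀ r ∈ R.map π, r = 1 ∨ r = (a : G ⧸ M) * (b : G ⧸ M) ∨ r = (a : G ⧸ M) ∨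
      r = (b : G ⧸ M) := by
    rintro _ ⟨r, hr, rfl⟩
    rcases hgen r hr with rfl | rfl | rfl | rfl
    · left; rfl
    · right; left; rfl
    · right; right; left; rfl
    · right; right; right; rfl
  have haR : (a : G ⧸ M) ∈ R.map π := ⟨a, ha, rfl⟩
  have hbR : (b : G ⧸ M) ∈ R.map π := ⟨b, hb, rfl⟩
  by_cases hinj : Nat.card (R.map π) = 4
  · refine vt (G ⧸ M) hGq (R.map π) hinj hRq2 (N.map π) hN1 hno ?_
    refine (hfinQ.subset ?_ : ((N.map π ⊓ Subgroup.centralizer ((R.map π : Subgroup (G ⧸ M)) :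
      Set (G ⧸ M)) : Subgroup (G ⧸ M)) : Set (G ⧸ M)).Finite).to_subtype
    rintro x ⟨-, hx⟩
    have hx' := Subgroup.mem_centralizer_iff.1 hx
    exact ⟨(hx' _ haR).symm, (hx' _ hbR).symm⟩
  · -- a single involution (or none)
    have ht : ∃ t : G ⧸ M, t ^ 2 = 1 ∧ ((a : G ⧸ M) = 1 ∨ (a : G ⧸ M) = t) ∧
        ((b : G ⧸ M) = 1 ∨ (b : G ⧸ M) = t) := by
      by_cases ha1 : (a : G ⧸ M) = 1
      · exact ⟨b, hbq, Or.inl ha1, Or.inr rfl⟩
      by_cases hb1 : (b : G ⧸ M) = 1
      · exact ⟨a, haq, Or.inr rfl, Or.inl hb1⟩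
      by_cases hab1 : (a : G ⧸ M) = (b : G ⧸ M)
      · exact ⟨a, haq, Or.inr rfl, Or.inr hab1.symm⟩
      exfalso
      apply hinj
      have hinjR : Function.Injective (π.subgroupMap R) := by
        rw [injective_iff_map_eq_one]
        rintro ⟨r, hr⟩ h2
        have h3 : (r : G ⧸ M) = 1 := congrArg Subtype.val h2
        rcases hgen r hr with rfl | rfl | rfl | rfl
        · rfl
        · exfalso
          apply hab1
          have h4 : (a : G ⧸ M) * (b : G ⧸ M) = 1 := by rw [← QuotientGroup.mk_mul]; exact h3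
          have h5 := eq_inv_of_mul_eq_one_left h4
          have h6 : (b : G ⧸ M)⁻¹ = (b : G ⧸ M) := by
            rw [pow_two] at hbq
            exact inv_eq_of_mul_eq_one_left hbq
          rw [h5, h6]
        · exact absurd h3 ha1
        · exact absurd h3 hb1
      rw [← hR4]
      exact (Nat.card_congr (Equiv.ofBijective _ ⟨hinjR, π.subgroupMap_surjective R⟩)).symm
    obtain ⟨t, ht2, h2, h3⟩ := ht
    refine inv (G ⧸ M) hGq t ht2 (N.map π) hN1 hno (hfinQ.subset ?_)
    rintro x ⟨-, hx⟩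
    refine ⟨?_, ?_⟩
    · rcases h2 with h2 | h2
      · rw [h2, one_mul, mul_one]
      · rw [h2, hx]
    · rcases h3 with h3 | h3
      · rw [h3, one_mul, mul_one]
      · rw [h3, hx]

end

end Pool.Agent.FourGp.SR
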