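import Pool.Agent.Lib.MP_fb3619_al.SR.Tc

/-!
# Board SR, THEOREM C+: the series only has to reach the four-group; more types of factors
-/

set_option autoImplicit false

universe u

namespace Pool.Agent.FourGp.SR

open Pool.Agent.FourGp.H99 (LF)

/-- SHK: Shunkov's theorem for arbitrary periodic groups. -/
def ShkS : Prop := ∀ (G : Type u) [Group G], (∀ g : G, ∃ n : ℕ, 0 < n ∧ g ^ n = 1) →
  ∀ t : G, t ^ 2 = 1 → {x : G | x * t = t * x}.Finite → ∀ S : Subgroup G, S.FG → Finite S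

/-- TCP (THEOREM C+). -/
def TcpS : Prop := ∀ (G : Type u) [Group G], (∀ g : G, ∃ n : ℕ, 0 < n ∧ g ^ n = 1) →
  ∀ R : Subgroup G, Nat.card R = 4 → (∀ r ∈ R, r ^ 2 = 1) →
  Finite ↥(Subgroup.centralizer (R : Set G)) →
  ∀ C : Set (Subgroup G), (∀ M ∈ C, M.Normal) → ⊥ ∈ C →
  (∀ c ⊆ C, c.Nonempty → IsChain (· ≤ ·) c → sSup c ∈ C) →
  (∀ M ∈ C, M ⊓ R = ⊥ → ∃ N ∈ C, M < N ∧ (
    (∀ S ≤ N, S.FG → M.relIndex S ≠ 0) ∨
    (∀ n ∈ N, ∃ k : ℕ, n ^ 2 ^ k ∈ M) ∨
    (∀ n ∈ N, n ^ 2 ∈ M → n ∈ M) ∨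
    (∃ r ∈ R, ((fun g : G => (g : G ⧸ M)) '' {n | n ∈ N ∧ n⁻¹ * r⁻¹ * n * r ∈ M}).Finite) ∨
    (∀ n ∈ N, (∀ r ∈ R, n⁻¹ * r * n ∈ R ⊔ M) → n ∈ R ⊔ M))) →
  ∀ H : Subgroup G, H.FG → Finite H

section

variable {G : Type u} [Group G]

/-- Factors of type (iv): an element of square one with finite centralizer. -/
theorem inv_case (shk : ShkS.{u}) (hG : ∀ g : G, ∃ n : ℕ, 0 < n ∧ g ^ n = 1) (t : G)
    (ht : t ^ 2 = 1) (N : Subgroup G) [N.Normal] (hfin : {x : G | x ∈ N ∧ x * t = t * x}.Finite) :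
    ∀ H ≤ N, H.FG → Finite H := by
  let V : Subgroup G := Subgroup.zpowers t
  let X : Subgroup G := N ⊔ V
  have htX : t ∈ X := (le_sup_right : V ≤ X) (Subgroup.mem_zpowers t)
  have hV : ∀ v ∈ V, v = 1 ∨ v = t := by
    intro v hv
    obtain ⟨k, rfl⟩ := Subgroup.mem_zpowers_iff.1 hv
    rcases Int.even_or_odd' k with ⟨j, rfl | rfl⟩
    · left
      rw [zpow_mul, zpow_ofNat, ht, one_zpow]
    · right
      rw [zpow_add, zpow_mul, zpow_ofNat, ht, one_zpow, one_mul, zpow_one]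
  have hfX : {x : X | x * ⟨t, htX⟩ = ⟨t, htX⟩ * x}.Finite := by
    have h1 : ((fun x : G => x) '' {x : G | x ∈ N ∧ x * t = t * x} ∪
        (fun x : G => x * t) '' {x : G | x ∈ N ∧ x * t = t * x}).Finite :=
      (hfin.image _).union (hfin.image _)
    refine (h1.preimage (f := fun x : X => (x : G)) (Subtype.val_injective.injOn)).subset ?_
    rintro ⟨x, hx⟩ h2
    have h2' : x * t = t * x := congrArg Subtype.val h2
    obtain ⟨n, hn, v, hv, rfl⟩ := Subgroup.mem_sup_of_normal_left.1 hx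
    rcases hV v hv with rfl | rfl
    · left
      rw [mul_one] at h2'
      exact ⟨n, ⟨hn, h2'⟩, (mul_one n).symm⟩
    · right
      refine ⟨n, ⟨hn, ?_⟩, rfl⟩
      rw [← mul_assoc] at h2'
      exact mul_right_cancel h2'
  have hXt : ∀ g : X, ∃ n : ℕ, 0 < n ∧ g ^ n = 1 := by
    intro g
    obtain ⟨n, hn, h⟩ := hG g
    exact ⟨n, hn, Subtype.ext h⟩
  have hlf := shk X hXt ⟨t, htX⟩ (Subtype.ext ht) hfX
  intro H hH hfg
  have hHX : H ≤ X := hH.trans le_sup_left
  have e := Subgroup.subgroupOfEquivOfLe hHX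
  have : Group.FG H := (Group.fg_iff_subgroup_fg _).2 hfg
  have : Group.FG (H.subgroupOf X) :=
    Group.fg_of_surjective (f := e.symm.toMonoidHom) e.symm.surjective
  have h2 := hlf (H.subgroupOf X) ((Group.fg_iff_subgroup_fg _).1 this)
  exact Finite.of_equiv _ e.toEquiv

/-- Factors of type (v). -/
theorem sn_case (hC : TheoCS.{u}) (R : Subgroup G)
    (hG : ∀ g : G, ∃ n : ℕ, 0 < n ∧ g ^ n = 1) (hR4 : Nat.card R = 4) (hR : ∀ r ∈ R, r * r = 1)
    (M N : Subgroup G) [hMn : M.Normal] [hNn : N.Normal]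
    (h1 : ∀ n ∈ N, (∀ r ∈ R, n⁻¹ * r * n ∈ R ⊔ M) → n ∈ R ⊔ M) :
    ∀ S ≤ N, S.FG → M.relIndex S ≠ 0 := by
  let π := QuotientGroup.mk' M
  let Gb : Subgroup (G ⧸ M) := (R ⊔ N).map π
  let Rb : Subgroup Gb := (R.map π).subgroupOf Gb
  have hle : R.map π ≤ Gb := Subgroup.map_mono le_sup_left
  have : Finite R := Nat.finite_of_card_ne_zero (by rw [hR4]; norm_num)
  have hcard : Nat.card Rb ∣ 4 := by
    have e := Subgroup.subgroupOfEquivOfLe hle
    rw [Nat.card_congr e.toEquiv, ← hR4]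
    exact Subgroup.card_map_dvd R π
  have hlf := theoC' hC Gb Rb (by
      rintro ⟨x, y, hy, rfl⟩
      obtain ⟨n, hn, h⟩ := hG y
      refine ⟨n, hn, Subtype.ext ?_⟩
      show (π y) ^ n = 1
      rw [← map_pow, h, map_one]) hcard (by
      rintro ⟨x, hx⟩ hxr
      obtain ⟨r, hr, h2⟩ := Subgroup.mem_subgroupOf.1 hxr
      apply Subtype.ext
      show x * x = 1
      have h2 : π r = x := h2
      rw [← h2, ← map_mul, hR r hr, map_one]) (by
      rintro ⟨x, hx⟩ hxn
      rw [Subgroup.mem_subgroupOf]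
      show x ∈ R.map π
      obtain ⟨y, hy, rfl⟩ := hx
      obtain ⟨r, hr, n, hn, rfl⟩ := Subgroup.mem_sup_of_normal_right.1 hy
      have h2 : n ∈ R ⊔ M := by
        apply h1 n hn
        intro s hs
        have hs' : π s ∈ R.map π := ⟨s, hs, rfl⟩
        -- conjugate `s` back by `r`
        have hs2 : r * s * r⁻¹ ∈ R := R.mul_mem (R.mul_mem hr hs) (R.inv_mem hr)
        have h3 := hxn ⟨π (r * s * r⁻¹), hle ⟨_, hs2, rfl⟩⟩
          (Subgroup.mem_subgroupOf.2 ⟨_, hs2, rfl⟩)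
        have h4 := Subgroup.mem_subgroupOf.1 h3
        obtain ⟨t, ht, h5⟩ := h4
        have h5 : π t = (π (r * n))⁻¹ * π (r * s * r⁻¹) * π (r * n) := h5
        have h6 : π t = π (n⁻¹ * s * n) := by
          rw [h5, ← map_inv, ← map_mul, ← map_mul]
          congr 1
          group
        have h7 : t⁻¹ * (n⁻¹ * s * n) ∈ M := QuotientGroup.eq.1 h6
        have h8 : n⁻¹ * s * n = t * (t⁻¹ * (n⁻¹ * s * n)) := by group
        rw [h8]
        exact Subgroup.mul_mem_sup ht h7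
      obtain ⟨t, ht, m, hm, rfl⟩ := Subgroup.mem_sup_of_normal_right.1 h2
      refine ⟨r * t, R.mul_mem hr ht, ?_⟩
      show π (r * t) = π (r * (t * m))
      rw [← mul_assoc, map_mul π (r * t) m]
      have : π m = 1 := (QuotientGroup.eq_one_iff m).2 hm
      rw [this, mul_one])
  intro S hS hfg
  have hSG : S.map π ≤ Gb := Subgroup.map_mono (hS.trans le_sup_right)
  have h2 : ((S.map π).subgroupOf Gb).FG := by
    have h3 : (S.map π).FG := fg_map hfg _
    have e := Subgroup.subgroupOfEquivOfLe hSG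
    have : Group.FG (S.map π) := (Group.fg_iff_subgroup_fg _).2 h3
    have : Group.FG ((S.map π).subgroupOf Gb) :=
      Group.fg_of_surjective (f := e.symm.toMonoidHom) e.symm.surjective
    exact (Group.fg_iff_subgroup_fg _).1 this
  have := hlf _ h2
  have h3 : Finite (S.map π) := Finite.of_equiv _ (Subgroup.subgroupOfEquivOfLe hSG).toEquiv
  exact relIndex_of_map M S h3

/-- TCP. -/
theorem tcp (fr : FrS.{u}) (pt : PtS.{u}) (lfc : LfcS.{u}) (shk : ShkS.{u}) (vt : VtS.{u})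
    (sn : TheoCS.{u}) : TcpS.{u} := by
  intro G _ hG R hR4 hR2 hfin C hn h0 hs h
  have hRR : ∀ r ∈ R, r * r = 1 := fun r hr => by rw [← pow_two]; exact hR2 r hr
  obtain ⟨a, ha, b, hb, hab, hgen⟩ := four_gen R hR4 hR2
  have hfinC : {x : G | x * a = a * x ∧ x * b = b * x}.Finite := by
    have h1 : ((Subgroup.centralizer (R : Set G) : Subgroup G) : Set G).Finite := Set.toFinite _
    refine h1.subset ?_
    rintro x ⟨h1, h2⟩
    rw [SetLike.mem_coe, Subgroup.mem_centralizer_iff]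
    intro r hr
    rcases hgen r hr with rfl | rfl | rfl | rfl
    · rw [one_mul, mul_one]
    · rw [mul_assoc, ← h2, ← mul_assoc, ← h1, mul_assoc]
    · exact h1.symm
    · exact h2.symm
  -- a maximal locally finite member of the series
  let P : Set (Subgroup G) := {M | M ∈ C ∧ ∀ S ≤ M, S.FG → Finite S}
  have hP : ∀ c ⊆ P, IsChain (· ≤ ·) c → ∃ ub ∈ P, ∀ z ∈ c, z ≤ ub := by
    intro c hcP hc
    rcases c.eq_empty_or_nonempty with rfl | hne
    · refine ⟨⊥, ⟨h0, fun S hS _ => ?_⟩, by simp⟩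
      rw [le_bot_iff] at hS
      subst hS
      infer_instance
    · exact ⟨sSup c, ⟨hs c (fun M hM => (hcP hM).1) hne hc,
        lf_sup c hc hne (fun M hM => (hcP hM).2)⟩, fun z hz => le_sSup hz⟩
  obtain ⟨M, hM⟩ := zorn_le₀ P hP
  have hMC := hM.prop.1
  have hMlf := hM.prop.2
  have hMn := hn M hMC
  have hMLF : LF M := by
    intro S hS
    have h2 : (S.map M.subtype).FG := fg_map hS _
    have := hMlf _ (by rintro x ⟨y, -, rfl⟩; exact y.2) h2
    exact Finite.of_equiv _ (S.equivMapOfInjective M.subtype M.subtype_injective).symm.toEquiv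
  have hfinQ := fr G M hMLF a b (hR2 a ha) (hR2 b hb) hab hfinC
  have hGq := tor_quot hG M
  have haq : ((a : G ⧸ M)) ^ 2 = 1 := by
    rw [← QuotientGroup.mk_pow, hR2 a ha, QuotientGroup.mk_one]
  have hbq : ((b : G ⧸ M)) ^ 2 = 1 := by
    rw [← QuotientGroup.mk_pow, hR2 b hb, QuotientGroup.mk_one]
  have habq : (a : G ⧸ M) * (b : G ⧸ M) = (b : G ⧸ M) * (a : G ⧸ M) := by
    rw [← QuotientGroup.mk_mul, hab, QuotientGroup.mk_mul]
  let π := QuotientGroup.mk' M
  have hRq2 : ∀ r ∈ R.map π, r ^ 2 = 1 := by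
    rintro _ ⟨r, hr, rfl⟩
    rw [← map_pow, hR2 r hr, map_one]
  have haR : (a : G ⧸ M) ∈ R.map π := ⟨a, ha, rfl⟩
  have hbR : (b : G ⧸ M) ∈ R.map π := ⟨b, hb, rfl⟩
  have hker : ∀ r ∈ R, (r : G ⧸ M) = 1 → r ∈ M := fun r _ hr => (QuotientGroup.eq_one_iff r).1 hr
  by_cases hMR : M ⊓ R = ⊥
  · -- the series goes on
    exfalso
    obtain ⟨N, hNC, hlt, h1⟩ := h M hMC hMR
    have hNn := hn N hNC
    have hN1 : (N.map π).Normal := Subgroup.Normal.map hNn π (QuotientGroup.mk'_surjective M)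
    have hrel : ∀ S ≤ N, S.FG → M.relIndex S ≠ 0 := by
      rcases h1 with h1 | h1 | h1 | h1 | h1
      · exact h1
      · have hlf : ∀ H ≤ N.map π, H.FG → Finite H := by
          refine two_case pt lfc (a : G ⧸ M) (b : G ⧸ M) haq hbq habq hfinQ (N.map π) ?_
          rintro _ ⟨n, hnN, rfl⟩
          obtain ⟨k, hk⟩ := h1 n hnN
          refine ⟨k, ?_⟩
          rw [← map_pow]
          exact (QuotientGroup.eq_one_iff _).2 hk
        intro S hS hfg
        exact relIndex_of_map M S (hlf _ (Subgroup.map_mono hS) (fg_map hfg _))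
      · have hno : ∀ g ∈ N.map π, g ^ 2 = 1 → g = 1 := by
          rintro _ ⟨n, hnN, rfl⟩ h2
          rw [← map_pow] at h2
          exact (QuotientGroup.eq_one_iff _).2 (h1 n hnN ((QuotientGroup.eq_one_iff _).1 h2))
        have hinjR : Function.Injective (π.subgroupMap R) := by
          rw [injective_iff_map_eq_one]
          rintro ⟨r, hr⟩ h2
          have h3 : (r : G ⧸ M) = 1 := congrArg Subtype.val h2
          have h4 : r ∈ M ⊓ R := ⟨hker r hr h3, hr⟩
          rw [hMR, Subgroup.mem_bot] at h4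
          exact Subtype.ext h4
        have hcard : Nat.card (R.map π) = 4 := by
          rw [← hR4]
          exact (Nat.card_congr (Equiv.ofBijective _ ⟨hinjR, π.subgroupMap_surjective R⟩)).symm
        have hlf : ∀ H ≤ N.map π, H.FG → Finite H := by
          refine vt (G ⧸ M) hGq (R.map π) hcard hRq2 (N.map π) hN1 hno ?_
          refine (hfinQ.subset ?_ : ((N.map π ⊓ Subgroup.centralizer
            ((R.map π : Subgroup (G ⧸ M)) : Set (G ⧸ M)) : Subgroup (G ⧸ M)) :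
            Set (G ⧸ M)).Finite).to_subtype
          rintro x ⟨-, hx⟩
          have hx' := Subgroup.mem_centralizer_iff.1 hx
          exact ⟨(hx' _ haR).symm, (hx' _ hbR).symm⟩
        intro S hS hfg
        exact relIndex_of_map M S (hlf _ (Subgroup.map_mono hS) (fg_map hfg _))
      · obtain ⟨r, hr, hrf⟩ := h1
        have hlf : ∀ H ≤ N.map π, H.FG → Finite H := by
          refine inv_case shk hGq (π r) (hRq2 _ ⟨r, hr, rfl⟩) (N.map π) (hrf.subset ?_)
          rintro _ ⟨⟨n, hnN, rfl⟩, h2⟩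
          refine ⟨n, ⟨hnN, ?_⟩, rfl⟩
          have h3 : π (n⁻¹ * r⁻¹ * n * r) = 1 := by
            have e : n⁻¹ * r⁻¹ * n * r = (r * n)⁻¹ * (n * r) := by group
            rw [e, map_mul, map_inv, map_mul, map_mul, h2]
            group
          exact (QuotientGroup.eq_one_iff _).1 h3
        intro S hS hfg
        exact relIndex_of_map M S (hlf _ (Subgroup.map_mono hS) (fg_map hfg _))
      · exact sn_case sn R hG hR4 hRR M N h1
    have h2 : N ∈ P := ⟨hNC, lf_ext hMlf hrel⟩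
    exact hlt.not_ge (hM.le_of_ge h2 hlt.le)
  · -- `M` meets `R`
    have ht : ∃ t : G ⧸ M, t ^ 2 = 1 ∧ ((a : G ⧸ M) = 1 ∨ (a : G ⧸ M) = t) ∧
        ((b : G ⧸ M) = 1 ∨ (b : G ⧸ M) = t) := by
      by_cases ha1 : (a : G ⧸ M) = 1
      · exact ⟨b, hbq, Or.inl ha1, Or.inr rfl⟩
      by_cases hb1 : (b : G ⧸ M) = 1
      · exact ⟨a, haq, Or.inr rfl, Or.inl hb1⟩
      by_cases hab1 : (a : G ⧸ M) = (b : G ⧸ M)
      · exact ⟨a, haq, Or.inr rfl, Or.inr hab1.symm⟩
      exfalso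
      apply hMR
      rw [eq_bot_iff]
      rintro r ⟨hrM, hr⟩
      have h3 : (r : G ⧸ M) = 1 := (QuotientGroup.eq_one_iff r).2 hrM
      rcases hgen r hr with rfl | rfl | rfl | rfl
      · exact Subgroup.mem_bot.2 rfl
      · exfalso
        apply hab1
        have h4 : (a : G ⧸ M) * (b : G ⧸ M) = 1 := by rw [← QuotientGroup.mk_mul]; exact h3
        have h5 := eq_inv_of_mul_eq_one_left h4
        have h6 : (b : G ⧸ M)⁻¹ = (b : G ⧸ M) := by
          rw [pow_two] at hbq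
          exact inv_eq_of_mul_eq_one_left hbq
        rw [h5, h6]
      · exact absurd h3 ha1
      · exact absurd h3 hb1
    obtain ⟨t, ht2, h2, h3⟩ := ht
    have hq : ∀ S : Subgroup (G ⧸ M), S.FG → Finite S := by
      refine shk (G ⧸ M) hGq t ht2 (hfinQ.subset ?_)
      intro x hx
      refine ⟨?_, ?_⟩
      · rcases h2 with h2 | h2
        · rw [h2, one_mul, mul_one]
        · rw [h2]; exact hx
      · rcases h3 with h3 | h3
        · rw [h3, one_mul, mul_one]
        · rw [h3]; exact hx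
    exact Pool.Agent.FourGp.H99.LF_ext M hMLF hq

end

end Pool.Agent.FourGp.SR
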