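import Pool.Agent.Lib.MP_fb3619_al.SR.Iface

/-!
# MP_fb3619_al, board SR: row YFI (`|Y : B|` is finite)
-/

set_option autoImplicit false

universe u

namespace Pool.Agent.FourGp.SR

/-- Row YFI. -/
theorem yfi (prs : PrsS.{u}) : YfiS.{u} := by
  classical
  intro G _ hG B hB hBc hB2 a b ha hb hab hfin
  have hnorm : ∀ c : G, ∀ y ∈ B, c⁻¹ * y * c ∈ B := by
    intro c y hy
    have h := hB.conj_mem y hy c⁻¹
    rwa [inv_inv] at h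
  obtain ⟨F₀, hF₀, hF⟩ := prs G B hBc (fun x _ => hG x) hB2 a b (hnorm a) (hnorm b) ha hb hab
  let P : G × G → G → Prop := fun p h => p.1 = h⁻¹ * a * h ∧ p.2 = h⁻¹ * b * h
  let hf : G × G → G := fun p => if hp : ∃ h, P p h then hp.choose else 1
  have hhf : ∀ p, (∃ h, P p h) → P p (hf p) := by
    intro p hp
    have h1 : hf p = hp.choose := dif_pos hp
    rw [h1]
    exact hp.choose_spec
  refine ⟨Set.image2 (fun c p => c * hf p) {x : G | x * a = a * x ∧ x * b = b * x} F₀,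
    hfin.image2 _ hF₀, ?_⟩
  intro g hga hgb
  have hpw : ∀ c : G, c ^ 2 = 1 → (g⁻¹ * c * g) ^ 2 = 1 := by
    intro c hc
    have : (g⁻¹ * c * g) ^ 2 = g⁻¹ * c ^ 2 * g := by rw [pow_two, pow_two]; group
    rw [this, hc]
    group
  have hcm : (g⁻¹ * a * g) * (g⁻¹ * b * g) = (g⁻¹ * b * g) * (g⁻¹ * a * g) := by
    have e1 : (g⁻¹ * a * g) * (g⁻¹ * b * g) = g⁻¹ * (a * b) * g := by group
    have e2 : (g⁻¹ * b * g) * (g⁻¹ * a * g) = g⁻¹ * (b * a) * g := by group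
    rw [e1, e2, hab]
  obtain ⟨p, hp, x, hx, h1, h2⟩ := hF (g⁻¹ * a * g) (g⁻¹ * b * g) hga hgb (hpw a ha) (hpw b hb) hcm
  have hP : P p (g * x⁻¹) := by
    refine ⟨?_, ?_⟩
    · have : (g * x⁻¹)⁻¹ * a * (g * x⁻¹) = x * (g⁻¹ * a * g) * x⁻¹ := by group
      rw [this, h1]
      group
    · have : (g * x⁻¹)⁻¹ * b * (g * x⁻¹) = x * (g⁻¹ * b * g) * x⁻¹ := by group
      rw [this, h2]
      group
  obtain ⟨q1, q2⟩ := hhf p ⟨_, hP⟩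
  obtain ⟨r1, r2⟩ := hP
  have hcomm : ∀ c : G, (hf p)⁻¹ * c * hf p = (g * x⁻¹)⁻¹ * c * (g * x⁻¹) →
      (g * x⁻¹ * (hf p)⁻¹) * c = c * (g * x⁻¹ * (hf p)⁻¹) := by
    intro c hc
    have e1 : c = hf p * ((hf p)⁻¹ * c * hf p) * (hf p)⁻¹ := by group
    calc (g * x⁻¹ * (hf p)⁻¹) * c
        = (g * x⁻¹ * (hf p)⁻¹) * (hf p * ((hf p)⁻¹ * c * hf p) * (hf p)⁻¹) := by rw [← e1]
      _ = (g * x⁻¹ * (hf p)⁻¹) * (hf p * ((g * x⁻¹)⁻¹ * c * (g * x⁻¹)) * (hf p)⁻¹) := by rw [hc]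
      _ = c * (g * x⁻¹ * (hf p)⁻¹) := by group
  refine ⟨(g * x⁻¹ * (hf p)⁻¹) * hf p, ⟨g * x⁻¹ * (hf p)⁻¹, ⟨?_, ?_⟩, p, hp, rfl⟩, ?_⟩
  · exact hcomm a (q1.symm.trans r1)
  · exact hcomm b (q2.symm.trans r2)
  · have : (g * x⁻¹ * (hf p)⁻¹ * hf p)⁻¹ * g = x := by group
    rw [this]
    exact hx

end Pool.Agent.FourGp.SR
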